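import Pool.Agent.MWST.Count

namespace Pool.Agent.MWST

open Set

variable {S : Finset Plane} {T : Finset (Sym2 Plane)}

/-- The line through `p` and `q` has points of `S` strictly on both sides. -/
def Sep (S : Finset Plane) (p q : Plane) : Prop :=
  (∃ z ∈ S, 0 < ori p q z) ∧ (∃ z ∈ S, ori p q z < 0)

lemma Sep.symm {p q : Plane} (h : Sep S p q) : Sep S q p := by
  obtain ⟨⟨z, hz, h1⟩, ⟨w, hw, h2⟩⟩ := h
  refine ⟨⟨w, hw, ?_⟩, ⟨z, hz, ?_⟩⟩
  · rw [ori_swap]; linarith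
  · rw [ori_swap]; linarith

lemma sep_comm (p q : Plane) : Sep S p q ↔ Sep S q p := ⟨Sep.symm, Sep.symm⟩

/-- Inner edges : `S` has points strictly on both sides. -/
def IsInner (S : Finset Plane) (e : Sym2 Plane) : Prop :=
  Sym2.lift ⟨fun p q => Sep S p q, fun p q => propext (sep_comm p q)⟩ e

@[simp] lemma isInner_mk (p q : Plane) : IsInner S s(p, q) ↔ Sep S p q := Iff.rfl

lemma nonneg_of_not_sep {p q x : Plane} (h : ¬ Sep S p q) (hx : x ∈ S) (hpos : 0 < ori p q x) :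
    ∀ z ∈ S, 0 ≤ ori p q z := by
  intro z hz
  by_contra hcon
  push Not at hcon
  exact h ⟨⟨x, hx, hpos⟩, ⟨z, hz, hcon⟩⟩

/-- The corner lemma. -/
lemma IsTriangulation.corner (hT : IsTriangulation S T) (n0 n1 s : ℝ)
    (hgen : ∀ z ∈ S, n0 * z 0 + n1 * z 1 ≠ s)
    (hnc : ∀ p ∈ S, ∀ q ∈ S, p ≠ q → ∃ z ∈ S, ori p q z ≠ 0)
    (hfree : ∀ p q, s(p, q) ∈ T → n0 * p 0 + n1 * p 1 < s → s < n0 * q 0 + n1 * q 1 → ¬ Sep S p q)
    {x1 x2 D : Plane} (hx1 : x1 ∈ S) (hx2 : x2 ∈ S) (hx12 : x1 ≠ x2)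
    (hl1 : n0 * x1 0 + n1 * x1 1 < s) (hl2 : n0 * x2 0 + n1 * x2 1 < s)
    (hD : D ∈ S) (hlD : s < n0 * D 0 + n1 * D 1) :
    ∃ u v, s(D, u) ∈ T ∧ s(D, v) ∈ T ∧ s(u, v) ∈ T ∧ 0 < ori D u v ∧
      (∀ z ∈ S, 0 ≤ ori D u z) ∧ (∀ z ∈ S, 0 ≤ ori v D z) ∧
      (∀ z ∈ S, 0 ≤ ori u v z → z = D ∨ z = u ∨ z = v) ∧
      n0 * u 0 + n1 * u 1 < s ∧ n0 * v 0 + n1 * v 1 < s := by
  classical
  have hE := hT.prop
  set l : Plane → ℝ := fun z => n0 * z 0 + n1 * z 1 with hl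
  -- the finishing argument
  have fin : ∀ D' u v, s(D', u) ∈ T → s(D', v) ∈ T → s(u, v) ∈ T → 0 < ori D' u v →
      (∀ z ∈ S, 0 ≤ ori D' u z) → (∀ z ∈ S, 0 ≤ ori v D' z) →
      (∀ z ∈ S, 0 ≤ ori u v z → z = D' ∨ z = u ∨ z = v) →
      ((l D' < s ∧ s < l u ∧ s < l v) ∨ (s < l D' ∧ l u < s ∧ l v < s)) →
      ∃ u v, s(D, u) ∈ T ∧ s(D, v) ∈ T ∧ s(u, v) ∈ T ∧ 0 < ori D u v ∧
      (∀ z ∈ S, 0 ≤ ori D u z) ∧ (∀ z ∈ S, 0 ≤ ori v D z) ∧
      (∀ z ∈ S, 0 ≤ ori u v z → z = D ∨ z = u ∨ z = v) ∧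
      l u < s ∧ l v < s := by
    intro D' u v h1 h2 h3 h4 h5 h6 h7 h8
    have ident : ∀ z, (l z - s) * ori D' u v = (l D' - s) * ori u v z + (l u - s) * ori v D' z +
        (l v - s) * ori D' u z := by
      intro z; simp only [hl]; unfold ori; ring
    rcases h8 with ⟨a1, a2, a3⟩ | ⟨a1, a2, a3⟩
    · exfalso
      have huniq : ∀ z ∈ S, l z < s → z = D' := by
        intro z hz hlz
        have h9 : 0 ≤ ori u v z := by
          by_contra hcon
          push Not at hcon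
          have e := ident z
          have t1 : (l z - s) * ori D' u v < 0 := mul_neg_of_neg_of_pos (by linarith) h4
          have t2 : 0 < (l D' - s) * ori u v z := mul_pos_of_neg_of_neg (by linarith) hcon
          have t3 : 0 ≤ (l u - s) * ori v D' z := mul_nonneg (by linarith) (h6 z hz)
          have t4 : 0 ≤ (l v - s) * ori D' u z := mul_nonneg (by linarith) (h5 z hz)
          linarith
        rcases h7 z hz h9 with h | h | h
        · exact h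
        · rw [h] at hlz; exact absurd hlz (not_lt.2 a2.le)
        · rw [h] at hlz; exact absurd hlz (not_lt.2 a3.le)
      exact hx12 ((huniq x1 hx1 hl1).trans (huniq x2 hx2 hl2).symm)
    · have hDD : D = D' := by
        have h9 : 0 ≤ ori u v D := by
          by_contra hcon
          push Not at hcon
          have e := ident D
          have t1 : 0 < (l D - s) * ori D' u v := mul_pos (by linarith) h4
          have t2 : (l D' - s) * ori u v D < 0 := mul_neg_of_pos_of_neg (by linarith) hcon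
          have t3 : (l u - s) * ori v D' D ≤ 0 := mul_nonpos_of_nonpos_of_nonneg (by linarith) (h6 D hD)
          have t4 : (l v - s) * ori D' u D ≤ 0 := mul_nonpos_of_nonpos_of_nonneg (by linarith) (h5 D hD)
          linarith
        rcases h7 D hD h9 with h | h | h
        · exact h
        · rw [h] at hlD; exact absurd hlD (not_lt.2 a2.le)
        · rw [h] at hlD; exact absurd hlD (not_lt.2 a3.le)
      subst hDD
      exact ⟨u, v, h1, h2, h3, h4, h5, h6, h7, a2, a3⟩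
  -- a crossing edge
  have hcross : ∃ p q, s(p, q) ∈ T ∧ l p < s ∧ s < l q := by
    obtain ⟨p, hpF, hpmax⟩ := Finset.exists_max_image (S.filter (fun z => l z < s)) l
      ⟨x1, Finset.mem_filter.2 ⟨hx1, hl1⟩⟩
    obtain ⟨hpS, hlp⟩ := Finset.mem_filter.1 hpF
    obtain ⟨q, hpq, hlq⟩ := hT.exists_edge_halfplane hpS hD n0 n1 (by
      have : l p < l D := hlp.trans hlD
      exact this)
    refine ⟨p, q, hpq, hlp, ?_⟩
    have hqS := hE.right_mem hpq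
    rcases lt_or_ge (l q) s with h | h
    · have := hpmax q (Finset.mem_filter.2 ⟨hqS, h⟩)
      exact absurd hlq (not_lt.2 this)
    · exact lt_of_le_of_ne h (hgen q hqS).symm
  obtain ⟨p0, q0, hpq0, hlp0, hlq0⟩ := hcross
  have hnsep0 : ¬ Sep S p0 q0 := hfree p0 q0 hpq0 hlp0 hlq0
  -- orient the edge
  have horient : ∃ p q, s(p, q) ∈ T ∧ (∃ z ∈ S, 0 < ori p q z) ∧ ¬ Sep S p q ∧
      ((l p < s ∧ s < l q) ∨ (l q < s ∧ s < l p)) := by
    obtain ⟨z, hz, hz0⟩ := hnc p0 (hE.left_mem hpq0) q0 (hE.right_mem hpq0) (hE.ne hpq0)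
    rcases lt_or_gt_of_ne hz0 with h | h
    · refine ⟨q0, p0, ?_, ⟨z, hz, ?_⟩, ?_, Or.inr ⟨hlp0, hlq0⟩⟩
      · rwa [Sym2.eq_swap]
      · rw [ori_swap]; linarith
      · rw [sep_comm]; exact hnsep0
    · exact ⟨p0, q0, hpq0, ⟨z, hz, h⟩, hnsep0, Or.inl ⟨hlp0, hlq0⟩⟩
  obtain ⟨p, q, hpq, ⟨x0, hx0S, hx0⟩, hns, hside⟩ := horient
  have hall := nonneg_of_not_sep hns hx0S hx0
  obtain ⟨w, hwS, hDw, hpw, hqw, hemp⟩ := hT.face hpq hx0S hx0
  have hlw : l w ≠ s := hgen w hwS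
  -- two options
  have optq : ((l q < s ∧ s < l p ∧ s < l w) ∨ (s < l q ∧ l p < s ∧ l w < s)) → ¬ Sep S q w →
      ∃ u v, s(D, u) ∈ T ∧ s(D, v) ∈ T ∧ s(u, v) ∈ T ∧ 0 < ori D u v ∧
      (∀ z ∈ S, 0 ≤ ori D u z) ∧ (∀ z ∈ S, 0 ≤ ori v D z) ∧
      (∀ z ∈ S, 0 ≤ ori u v z → z = D ∨ z = u ∨ z = v) ∧
      l u < s ∧ l v < s := by
    intro hs hns2
    have h2 : 0 < ori q w p := by rw [ori_rot]; exact hDw
    have hall2 := nonneg_of_not_sep hns2 (hE.left_mem hpq) h2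
    refine fin q w p hqw (by rwa [Sym2.eq_swap]) (by rwa [Sym2.eq_swap]) h2 hall2 ?_ ?_ ?_
    · exact hall
    · intro z hz h
      rcases hemp z hz (hall z hz) (hall2 z hz) h with h' | h' | h'
      · exact Or.inr (Or.inr h')
      · exact Or.inl h'
      · exact Or.inr (Or.inl h')
    · rcases hs with ⟨a, b, c⟩ | ⟨a, b, c⟩
      · exact Or.inl ⟨a, c, b⟩
      · exact Or.inr ⟨a, c, b⟩
  have optp : ((l p < s ∧ s < l q ∧ s < l w) ∨ (s < l p ∧ l q < s ∧ l w < s)) → ¬ Sep S p w →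
      ∃ u v, s(D, u) ∈ T ∧ s(D, v) ∈ T ∧ s(u, v) ∈ T ∧ 0 < ori D u v ∧
      (∀ z ∈ S, 0 ≤ ori D u z) ∧ (∀ z ∈ S, 0 ≤ ori v D z) ∧
      (∀ z ∈ S, 0 ≤ ori u v z → z = D ∨ z = u ∨ z = v) ∧
      l u < s ∧ l v < s := by
    intro hs hns2
    have h2 : 0 < ori w p q := by rw [ori_rot']; exact hDw
    have hall2 := nonneg_of_not_sep (fun h => hns2 h.symm) (hE.right_mem hpq) h2
    refine fin p q w hpq hpw hqw hDw hall hall2 ?_ ?_
    · intro z hz h
      exact hemp z hz (hall z hz) h (hall2 z hz)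
    · exact hs
  rcases lt_or_gt_of_ne hlw with h | h
  · -- l w < s
    rcases hside with ⟨a, b⟩ | ⟨a, b⟩
    · -- l p < s < l q : crossing edge w q
      exact optq (Or.inr ⟨b, a, h⟩) (fun hs => hfree w q (by rwa [Sym2.eq_swap]) h b hs.symm)
    · exact optp (Or.inr ⟨b, a, h⟩) (fun hs => hfree w p (by rwa [Sym2.eq_swap]) h b hs.symm)
  · rcases hside with ⟨a, b⟩ | ⟨a, b⟩
    · exact optp (Or.inl ⟨a, b, h⟩) (fun hs => hfree p w hpw a h hs)
    · exact optq (Or.inl ⟨a, b, h⟩) (fun hs => hfree q w hqw a h hs)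

end Pool.Agent.MWST
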