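import Pool.Agent.MWST.Face

namespace Pool.Agent.MWST

open Set MeasureTheory

/-- Smallest / largest `i`-th coordinate on an edge. -/
noncomputable def lo (i : Fin 2) (e : Sym2 Plane) : ℝ :=
  Sym2.lift ⟨fun p q => min (p i) (q i), fun _ _ => min_comm _ _⟩ e
noncomputable def hi (i : Fin 2) (e : Sym2 Plane) : ℝ :=
  Sym2.lift ⟨fun p q => max (p i) (q i), fun _ _ => max_comm _ _⟩ e

@[simp] lemma lo_mk (i : Fin 2) (p q : Plane) : lo i s(p, q) = min (p i) (q i) := rfl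
@[simp] lemma hi_mk (i : Fin 2) (p q : Plane) : hi i s(p, q) = max (p i) (q i) := rfl

lemma lo_le_hi (i : Fin 2) (e : Sym2 Plane) : lo i e ≤ hi i e := by
  induction e using Sym2.ind with
  | _ p q => simp only [lo_mk, hi_mk]; exact min_le_max

lemma dist_sq (p q : Plane) : dist p q ^ 2 = (p 0 - q 0) ^ 2 + (p 1 - q 1) ^ 2 := by
  rw [EuclideanSpace.dist_eq, Real.sq_sqrt (by positivity)]
  simp [Fin.sum_univ_two, Real.dist_eq, sq_abs]

lemma abs_sub_le_dist (i : Fin 2) (p q : Plane) : |p i - q i| ≤ dist p q := by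
  apply abs_le_of_sq_le_sq _ dist_nonneg
  rw [dist_sq]
  fin_cases i
  · simp; positivity
  · simp; positivity

lemma hi_sub_lo (i : Fin 2) (e : Sym2 Plane) : hi i e - lo i e ≤ len e := by
  induction e using Sym2.ind with
  | _ p q =>
    simp only [lo_mk, hi_mk, len_mk]
    rw [max_sub_min_eq_abs']
    exact abs_sub_le_dist i p q

lemma hi_sub_lo_lt {p q : Plane} (h : p 1 ≠ q 1) : hi 0 s(p, q) - lo 0 s(p, q) < len s(p, q) := by
  simp only [lo_mk, hi_mk, len_mk]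
  rw [max_sub_min_eq_abs']
  apply abs_lt_of_sq_lt_sq _ dist_nonneg
  rw [dist_sq]
  have : 0 < (p 1 - q 1) ^ 2 := by
    have := sub_ne_zero.2 h
    positivity
  linarith

lemma len_nonneg (e : Sym2 Plane) : 0 ≤ len e := by
  induction e using Sym2.ind with
  | _ p q => rw [len_mk]; exact dist_nonneg

/-- Counting lemma: if over (almost) every `t` in `(α, β)` there are at least `k` edges, the total
`x`-extent of the edges over `(α, β)` is at least `k (β - α)`. -/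
lemma count_lb (M : Finset (Sym2 Plane)) (k : ℕ) {α β : ℝ} (hαβ : α ≤ β) (X : Finset ℝ)
    (h : ∀ t ∈ Ioo α β, t ∉ X → ∃ s : Finset (Sym2 Plane), s ⊆ M ∧ k ≤ s.card ∧
      ∀ e ∈ s, t ∈ Ioo (lo 0 e) (hi 0 e)) :
    (k : ℝ) * (β - α) ≤ ∑ e ∈ M, volume.real (Ioo (lo 0 e) (hi 0 e) ∩ Ioo α β) := by
  have h1 : (k : ENNReal) * ENNReal.ofReal (β - α) ≤
      ∑ e ∈ M, volume (Ioo (lo 0 e) (hi 0 e) ∩ Ioo α β) := by
    calc (k : ENNReal) * ENNReal.ofReal (β - α) = ∫⁻ _ in Ioo α β, (k : ENNReal) := by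
          simp
      _ ≤ ∫⁻ t in Ioo α β, ∑ e ∈ M, (Ioo (lo 0 e) (hi 0 e)).indicator (fun _ => (1 : ENNReal)) t := by
          apply lintegral_mono_ae
          have hX : ∀ᵐ t ∂(volume.restrict (Ioo α β)), t ∉ X := by
            have : (volume.restrict (Ioo α β)) (X : Set ℝ) = 0 :=
              le_antisymm ((Measure.restrict_apply_le _ _).trans_eq
                (X.finite_toSet.measure_zero _)) bot_le
            exact measure_eq_zero_iff_ae_notMem.1 this
          filter_upwards [hX, ae_restrict_mem measurableSet_Ioo] with t ht1 ht2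
          obtain ⟨s, hsM, hcard, hs⟩ := h t ht2 ht1
          calc (k : ENNReal) ≤ (s.card : ENNReal) := by exact_mod_cast hcard
            _ = ∑ e ∈ s, (Ioo (lo 0 e) (hi 0 e)).indicator (fun _ => (1 : ENNReal)) t := by
                rw [Finset.sum_congr rfl (fun e he => indicator_of_mem (hs e he) _)]
                simp
            _ ≤ _ := Finset.sum_le_sum_of_subset hsM
      _ = ∑ e ∈ M, volume (Ioo (lo 0 e) (hi 0 e) ∩ Ioo α β) := by
          rw [lintegral_finsetSum]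
          · apply Finset.sum_congr rfl
            intro e _
            rw [lintegral_indicator measurableSet_Ioo]
            simp [Measure.restrict_apply, measurableSet_Ioo, Measure.restrict_restrict]
          · intro e _
            exact measurable_const.indicator measurableSet_Ioo
  have hfin : ∀ e ∈ M, volume (Ioo (lo 0 e) (hi 0 e) ∩ Ioo α β) ≠ ⊤ := by
    intro e _
    exact ((measure_mono inter_subset_right).trans_lt (by simp)).ne
  have h2 := ENNReal.toReal_mono (ENNReal.sum_ne_top.2 hfin) h1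
  rw [ENNReal.toReal_mul, ENNReal.toReal_natCast, ENNReal.toReal_ofReal (by linarith),
    ENNReal.toReal_sum hfin] at h2
  exact h2

/-- A free horizontal level: if the total `y`-extent of the edges in `M` is smaller than `β - α`,
some level in `(α, β)` outside a finite set meets no edge of `M`. -/
lemma exists_free (M : Finset (Sym2 Plane)) {α β : ℝ} (X : Finset ℝ)
    (h : ∑ e ∈ M, len e < β - α) :
    ∃ s ∈ Ioo α β, s ∉ X ∧ ∀ e ∈ M, s ∉ Icc (lo 1 e) (hi 1 e) := by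
  by_contra hcon
  push Not at hcon
  have hsub : Ioo α β ⊆ (X : Set ℝ) ∪ ⋃ e ∈ M, Icc (lo 1 e) (hi 1 e) := by
    intro t ht
    by_cases hX : t ∈ X
    · exact Or.inl hX
    · right
      obtain ⟨e, he, hte⟩ := hcon t ht hX
      simp only [mem_iUnion]
      exact ⟨e, he, hte⟩
  have h1 := measure_mono (μ := volume) hsub
  have h2 : volume ((X : Set ℝ) ∪ ⋃ e ∈ M, Icc (lo 1 e) (hi 1 e)) ≤
      ∑ e ∈ M, ENNReal.ofReal (hi 1 e - lo 1 e) := by
    refine (measure_union_le _ _).trans ?_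
    rw [X.finite_toSet.measure_zero, zero_add]
    refine (measure_biUnion_finset_le _ _).trans ?_
    apply Finset.sum_le_sum
    intro e _
    rw [Real.volume_Icc]
  have h3 := h1.trans h2
  rw [Real.volume_Ioo, ← ENNReal.ofReal_sum_of_nonneg (fun e _ => sub_nonneg.2 (lo_le_hi 1 e))] at h3
  have h4 : β - α ≤ ∑ e ∈ M, (hi 1 e - lo 1 e) := by
    have := (ENNReal.ofReal_le_ofReal_iff
      (Finset.sum_nonneg (fun e _ => sub_nonneg.2 (lo_le_hi 1 e)))).1 h3
    exact this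
  have h5 : ∑ e ∈ M, (hi 1 e - lo 1 e) ≤ ∑ e ∈ M, len e :=
    Finset.sum_le_sum (fun e _ => hi_sub_lo 1 e)
  linarith

lemma split_real (e : Sym2 Plane) {β γ : ℝ} :
    volume.real (Ioo (lo 0 e) (hi 0 e) ∩ Ioo 0 β) + volume.real (Ioo (lo 0 e) (hi 0 e) ∩ Ioo β γ) ≤
      hi 0 e - lo 0 e := by
  have hd : Disjoint (Ioo (lo 0 e) (hi 0 e) ∩ Ioo 0 β) (Ioo (lo 0 e) (hi 0 e) ∩ Ioo β γ) := by
    rw [Set.disjoint_left]
    rintro t ⟨_, h1⟩ ⟨_, h2⟩
    exact lt_asymm h1.2 h2.1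
  have hfin : volume (Ioo (lo 0 e) (hi 0 e)) ≠ ⊤ := by
    rw [Real.volume_Ioo]; exact ENNReal.ofReal_ne_top
  have hfin1 : volume (Ioo (lo 0 e) (hi 0 e) ∩ Ioo 0 β) ≠ ⊤ :=
    ne_top_of_le_ne_top hfin (measure_mono inter_subset_left)
  have hfin2 : volume (Ioo (lo 0 e) (hi 0 e) ∩ Ioo β γ) ≠ ⊤ :=
    ne_top_of_le_ne_top hfin (measure_mono inter_subset_left)
  have hsum : volume (Ioo (lo 0 e) (hi 0 e) ∩ Ioo 0 β) + volume (Ioo (lo 0 e) (hi 0 e) ∩ Ioo β γ) ≤
      ENNReal.ofReal (hi 0 e - lo 0 e) := by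
    rw [← measure_union hd (measurableSet_Ioo.inter measurableSet_Ioo), ← Real.volume_Ioo,
      ← inter_union_distrib_left]
    exact measure_mono inter_subset_left
  have h3 := ENNReal.toReal_mono ENNReal.ofReal_ne_top hsum
  rw [ENNReal.toReal_add hfin1 hfin2, ENNReal.toReal_ofReal (sub_nonneg.2 (lo_le_hi 0 e))] at h3
  exact h3

/-- Two-interval version of the counting lemma. -/
lemma count_two (M : Finset (Sym2 Plane)) (k₁ k₂ : ℕ) {β γ : ℝ} (h0 : 0 ≤ β) (h1 : β ≤ γ)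
    (X : Finset ℝ)
    (hA : ∀ t ∈ Ioo 0 β, t ∉ X → ∃ s : Finset (Sym2 Plane), s ⊆ M ∧ k₁ ≤ s.card ∧
      ∀ e ∈ s, t ∈ Ioo (lo 0 e) (hi 0 e))
    (hB : ∀ t ∈ Ioo β γ, t ∉ X → ∃ s : Finset (Sym2 Plane), s ⊆ M ∧ k₂ ≤ s.card ∧
      ∀ e ∈ s, t ∈ Ioo (lo 0 e) (hi 0 e)) :
    (k₁ : ℝ) * β + k₂ * (γ - β) ≤ ∑ e ∈ M, (hi 0 e - lo 0 e) := by
  have e1 := count_lb M k₁ h0 X hA
  have e2 := count_lb M k₂ h1 X hB
  have e3 : ∑ e ∈ M, volume.real (Ioo (lo 0 e) (hi 0 e) ∩ Ioo 0 β) +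
      ∑ e ∈ M, volume.real (Ioo (lo 0 e) (hi 0 e) ∩ Ioo β γ) ≤ ∑ e ∈ M, (hi 0 e - lo 0 e) := by
    rw [← Finset.sum_add_distrib]
    exact Finset.sum_le_sum (fun e _ => split_real e)
  rw [sub_zero] at e1
  linarith

end Pool.Agent.MWST
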