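import Mathlib

/-!
# Steiner triangulations of finite planar point sets

The definitions below follow the problem file `MP_f600e0_lc` word by word.
-/

namespace Pool.Agent.MWST

/-- The Euclidean plane. -/
abbrev Plane : Type := EuclideanSpace ℝ (Fin 2)

/-- An edge is recorded by its unordered pair of endpoints; `seg e` is the closed straight-line
segment joining them. -/
def seg (e : Sym2 Plane) : Set Plane :=
  Sym2.lift ⟨fun x y => segment ℝ x y, fun x y => segment_symm ℝ x y⟩ e

/-- The Euclidean length of an edge: the distance between its two endpoints. -/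
noncomputable def len (e : Sym2 Plane) : ℝ :=
  Sym2.lift ⟨fun x y => dist x y, fun x y => dist_comm x y⟩ e

/-- `T` is a set of edges on the finite point set `S` satisfying the three conditions of the
problem file:
* every edge is a genuine segment (two different endpoints) with both endpoints in `S`;
* no edge contains a point of `S` other than its endpoints;
* no two edges meet except at a common endpoint. -/
structure IsEdgeSet (S : Finset Plane) (T : Finset (Sym2 Plane)) : Prop where
  not_diag : ∀ e ∈ T, ¬ e.IsDiag
  endpoints_mem : ∀ e ∈ T, ∀ x ∈ e, x ∈ S
  only_endpoints : ∀ e ∈ T, ∀ x ∈ S, x ∈ seg e → x ∈ e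
  meet : ∀ e ∈ T, ∀ f ∈ T, e ≠ f → ∀ x, x ∈ seg e → x ∈ seg f → x ∈ e ∧ x ∈ f

/-- A triangulation of `S` is a maximal (with respect to inclusion) set of edges on `S`
satisfying the three conditions. -/
def IsTriangulation (S : Finset Plane) (T : Finset (Sym2 Plane)) : Prop :=
  Maximal (IsEdgeSet S) T

/-- The weight of `T` is the total Euclidean length of its edges. -/
noncomputable def weight (T : Finset (Sym2 Plane)) : ℝ := ∑ e ∈ T, len e

/-- A Steiner triangulation of `P` is a triangulation of some finite set `S ⊇ P`. -/
def IsSteinerTriangulation (P : Finset Plane) (T : Finset (Sym2 Plane)) : Prop :=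
  ∃ S : Finset Plane, P ⊆ S ∧ IsTriangulation S T

/-- `W P` is the infimum of the weights of all Steiner triangulations of `P`. -/
noncomputable def W (P : Finset Plane) : ℝ :=
  sInf {w : ℝ | ∃ T : Finset (Sym2 Plane), IsSteinerTriangulation P T ∧ weight T = w}

end Pool.Agent.MWST
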