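import Pool.Agent.MWST.Sector

namespace Pool.Agent.MWST

open Set

variable {S : Finset Plane} {T : Finset (Sym2 Plane)}

/-- In a triangulation, a point `v` of `S` has an edge into every open half-plane (with `v` on its
boundary) which contains a point of `S`. -/
lemma IsTriangulation.exists_edge_halfplane (hT : IsTriangulation S T) {v w0 : Plane} (hv : v ∈ S)
    (hw0 : w0 ∈ S) (n0 n1 : ℝ) (h : n0 * v 0 + n1 * v 1 < n0 * w0 0 + n1 * w0 1) :
    ∃ w, s(v, w) ∈ T ∧ n0 * v 0 + n1 * v 1 < n0 * w 0 + n1 * w 1 := by
  classical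
  have hE := hT.prop
  set l : Plane → ℝ := fun z => n0 * z 0 + n1 * z 1 with hl
  have lpt : ∀ x y t, l (pt x y t) = (1 - t) * l x + t * l y := by
    intro x y t; simp only [hl, pt_zero, pt_one]; ring
  obtain ⟨w, hwF, hwmin⟩ := Finset.exists_min_image (S.filter (fun z => l v < l z)) l
    ⟨w0, Finset.mem_filter.2 ⟨hw0, h⟩⟩
  obtain ⟨hwS, hlw⟩ := Finset.mem_filter.1 hwF
  have hvw : v ≠ w := by rintro rfl; exact lt_irrefl _ hlw
  have hemp : ∀ z ∈ S, z ∈ segment ℝ v w → z = v ∨ z = w := by
    intro z hz hzs
    by_cases hzv : z = v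
    · exact Or.inl hzv
    right
    obtain ⟨t, ht0, ht1, rfl⟩ := exists_ratio hzs hzv
    rcases ht1.lt_or_eq with h1 | h1
    · exfalso
      have h2 : l v < l (pt v w t) := by rw [lpt]; nlinarith
      have h3 := hwmin _ (Finset.mem_filter.2 ⟨hz, h2⟩)
      rw [lpt] at h3
      nlinarith
    · rw [h1]; exact pt_eq_right
  by_cases hvwT : s(v, w) ∈ T
  · exact ⟨w, hvwT, hlw⟩
  obtain ⟨p, q, τ, hpq, hvp, hvq, hτ0, hτ1, hmem, hfirst⟩ :=
    hT.exists_first_hit hv hwS hvw hemp hvwT
  set m := pt v w τ with hm
  have hmv : m ≠ v := by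
    intro heq
    have : l m = l v := by rw [heq]
    rw [hm, lpt] at this
    nlinarith
  have hmw : m ≠ w := by
    intro heq
    have : l m = l w := by rw [heq]
    rw [hm, lpt] at this
    nlinarith
  have hmvw : m ∈ segment ℝ v w := pt_mem hτ0.le hτ1.le
  have hmS : m ∉ S := by
    intro hmS
    rcases hemp m hmS hmvw with h | h
    · exact hmv h
    · exact hmw h
  have hlm : l v < l m := by rw [hm, lpt]; nlinarith
  have hsub : segment ℝ v m ⊆ segment ℝ v w :=
    (convex_segment v w).segment_subset (left_mem_segment ℝ v w) hmvw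
  have noS : ∀ z ∈ S, z ∈ segment ℝ v m → z = v := by
    intro z hz hzs
    rcases hemp z hz (hsub hzs) with h | h
    · exact h
    · exfalso
      subst h
      obtain ⟨t, ht0, ht1, ht⟩ := mem_segment_iff.1 hzs
      have : l z = (1 - t) * l v + t * l m := by
        have := lpt v m t
        rw [← ht] at this
        exact this
      have hlmz : l m < l z := by rw [hm, lpt]; nlinarith
      nlinarith
  have noT : ∀ r x, s(r, x) ∈ T → ∀ z ∈ segment ℝ v m, z ∈ segment ℝ r x → z = v ∨ z = m := by
    intro r x hrx z hz1 hz2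
    by_cases hzv : z = v
    · exact Or.inl hzv
    right
    obtain ⟨κ, hκ0, hκ1, hκ⟩ := exists_ratio hz1 hzv
    have hz' : z = pt v w (κ * τ) := by
      rw [hκ, hm]
      have := pt_pt v w 0 τ κ
      rw [pt_eq_left] at this
      rw [this]
      congr 1; ring
    have hκτ0 : 0 < κ * τ := by positivity
    by_cases hvr : v = r
    · exfalso
      subst hvr
      have := hE.eq_of_ray hwS hvw hemp hrx hκτ0 (by rw [← hz']; exact hz2)
      rw [this] at hrx
      exact hvwT hrx
    by_cases hvx : v = x
    · exfalso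
      subst hvx
      rw [Sym2.eq_swap] at hrx
      rw [segment_symm] at hz2
      have := hE.eq_of_ray hwS hvw hemp hrx hκτ0 (by rw [← hz']; exact hz2)
      rw [this] at hrx
      exact hvwT hrx
    have := hfirst r x hrx hvr hvx (κ * τ) hκτ0.le (by nlinarith) (by rw [← hz']; exact hz2)
    rw [hz', this]
  -- choose the endpoint on the far side
  have main : ∀ p q, s(p, q) ∈ T → v ≠ p → v ≠ q → m ∈ segment ℝ p q → l m ≤ l p →
      ∃ w, s(v, w) ∈ T ∧ l v < l w := by
    intro p q hpq hvp hvq hmem hlp
    obtain ⟨y, hy, A, G, hA, hG, h0, h1⟩ := hT.sector hv hmS hpq hvp hvq hmem noS noT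
    refine ⟨y, hy, ?_⟩
    have : l y = l v + A * (l m - l v) + G * (l p - l v) := by
      simp only [hl]
      rw [h0, h1]; ring
    rw [this]
    have h2 : 0 < G * (l p - l v) := mul_pos hG (by linarith)
    have h3 : 0 ≤ A * (l m - l v) := mul_nonneg hA (by linarith)
    linarith
  obtain ⟨t, ht0, ht1, hmt⟩ := mem_segment_iff.1 hmem
  have hlmt : l m = (1 - t) * l p + t * l q := by
    have := lpt p q t
    rw [← hmt] at this
    exact this
  by_cases hlp : l m ≤ l p
  · exact main p q hpq hvp hvq hmem hlp
  · have hlq : l m ≤ l q := by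
      by_contra hcon
      push Not at hlp hcon
      rcases ht0.lt_or_eq with h | h
      · nlinarith
      · subst h; simp at hlmt; linarith
    rw [Sym2.eq_swap] at hpq
    rw [segment_symm] at hmem
    exact main q p hpq hvq hvp hmem hlq

lemma onseg_of_G0 {o p q z : Plane} (hD : ori o p q ≠ 0) (h1 : cG o p q z = 0)
    (h2 : 0 ≤ cA o p q z) (h3 : cA o p q z ≤ 1) : z ∈ segment ℝ o p := by
  have : z = pt o p (cA o p q z) := by
    apply frame_ext hD
    · rw [cA_pt, cA_o, cA_p hD]; ring
    · rw [cG_pt, cG_o, cG_p, h1]; ring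
  rw [this]; exact pt_mem h2 h3

lemma onseg_of_A0 {o p q z : Plane} (hD : ori o p q ≠ 0) (h1 : cA o p q z = 0)
    (h2 : 0 ≤ cG o p q z) (h3 : cG o p q z ≤ 1) : z ∈ segment ℝ o q := by
  have : z = pt o q (cG o p q z) := by
    apply frame_ext hD
    · rw [cA_pt, cA_o, cA_q, h1]; ring
    · rw [cG_pt, cG_o, cG_q hD]; ring
  rw [this]; exact pt_mem h2 h3

lemma onseg_of_sum {o p q z : Plane} (hD : ori o p q ≠ 0) (h1 : cA o p q z + cG o p q z = 1)
    (h2 : 0 ≤ cG o p q z) (h3 : 0 ≤ cA o p q z) : z ∈ segment ℝ p q := by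
  have : z = pt p q (cG o p q z) := by
    apply frame_ext hD
    · rw [cA_pt, cA_p hD, cA_q]; linarith
    · rw [cG_pt, cG_p, cG_q hD]; ring
  rw [this]; exact pt_mem h2 (by linarith)

/-- An edge with endpoint `o` through a point `k ≠ o` : its other endpoint is on the ray. -/
lemma ray_coord {o p q g k : Plane} (hk : k ∈ segment ℝ o g) (hko : k ≠ o) :
    ∃ μ : ℝ, 0 < μ ∧ μ ≤ 1 ∧ cA o p q k = μ * cA o p q g ∧ cG o p q k = μ * cG o p q g := by
  obtain ⟨μ, h0, h1, rfl⟩ := exists_ratio hk hko
  refine ⟨μ, h0, h1, ?_, ?_⟩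
  · rw [cA_pt, cA_o]; ring
  · rw [cG_pt, cG_o]; ring

/-- The face lemma: each edge `p q` having a point of `S` strictly to its left is a side of a
triangle `p q w` of the triangulation on its left. -/
lemma IsTriangulation.face (hT : IsTriangulation S T) {p q x0 : Plane} (hpq : s(p, q) ∈ T)
    (hx0 : x0 ∈ S) (hx : 0 < ori p q x0) :
    ∃ w, w ∈ S ∧ 0 < ori p q w ∧ s(p, w) ∈ T ∧ s(q, w) ∈ T ∧
      (∀ z ∈ S, 0 ≤ ori p q z → 0 ≤ ori q w z → 0 ≤ ori w p z → z = p ∨ z = q ∨ z = w) := by
  classical
  have hE := hT.prop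
  have hpS := hE.left_mem hpq
  have hqS := hE.right_mem hpq
  have hpne := hE.ne hpq
  -- candidates
  have hex : ∃ w, s(p, w) ∈ T ∧ 0 < ori p q w := by
    obtain ⟨w, hw, hlw⟩ := hT.exists_edge_halfplane hpS hx0 (-(q 1 - p 1)) (q 0 - p 0) (by
      unfold ori at hx; nlinarith)
    refine ⟨w, hw, ?_⟩
    unfold ori; nlinarith
  set Wp : Finset Plane := S.filter (fun z => s(p, z) ∈ T ∧ 0 < ori p q z) with hWp
  have hWne : Wp.Nonempty := by
    obtain ⟨w, hw, hlw⟩ := hex
    exact ⟨w, Finset.mem_filter.2 ⟨hE.right_mem hw, hw, hlw⟩⟩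
  obtain ⟨w, hwW, hwmax⟩ := Finset.exists_max_image Wp
    (fun z => ((z 0 - p 0) * (q 0 - p 0) + (z 1 - p 1) * (q 1 - p 1)) / ori p q z) hWne
  obtain ⟨hwS, hpw, hD⟩ := Finset.mem_filter.1 hwW
  have hsq := sq_dist_pos hpne
  have hang : ∀ z, s(p, z) ∈ T → 0 < ori p q z → 0 ≤ ori p w z := by
    intro z hz hz0
    have h1 := hwmax z (Finset.mem_filter.2 ⟨hE.right_mem hz, hz, hz0⟩)
    simp only at h1
    rw [div_le_div_iff₀ hz0 hD] at h1
    have key : ori p w z * ((q 0 - p 0) ^ 2 + (q 1 - p 1) ^ 2) =
        ((w 0 - p 0) * (q 0 - p 0) + (w 1 - p 1) * (q 1 - p 1)) * ori p q z -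
        ((z 0 - p 0) * (q 0 - p 0) + (z 1 - p 1) * (q 1 - p 1)) * ori p q w := by
      unfold ori; ring
    by_contra hcon
    push Not at hcon
    have : ori p w z * ((q 0 - p 0) ^ 2 + (q 1 - p 1) ^ 2) < 0 := mul_neg_of_neg_of_pos hcon hsq
    linarith
  have hD' : ori p q w ≠ 0 := hD.ne'
  have hpwne := hE.ne hpw
  have hqw : q ≠ w := by
    rintro rfl; rw [ori_self] at hD; exact lt_irrefl _ hD
  set A : Plane → ℝ := fun z => cA p q w z with hA
  set G : Plane → ℝ := fun z => cG p q w z with hG
  have Aq : A q = 1 := cA_p hD'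
  have Gq : G q = 0 := cG_p p q w
  have Aw : A w = 0 := cA_q p q w
  have Gw : G w = 1 := cG_q hD'
  have Ap : A p = 0 := cA_o p q w
  have Gp : G p = 0 := cG_o p q w
  have Apt : ∀ x y t, A (pt x y t) = (1 - t) * A x + t * A y := fun x y t => cA_pt p q w x y t
  have Gpt : ∀ x y t, G (pt x y t) = (1 - t) * G x + t * G y := fun x y t => cG_pt p q w x y t
  have ext : ∀ z z', A z = A z' → G z = G z' → z = z' := fun z z' h1 h2 => frame_ext hD' h1 h2
  have Aori : ∀ z, ori w p z = A z * ori p q w := by
    intro z
    simp only [hA]; unfold cA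
    rw [div_mul_cancel₀ _ hD']
    exact ori_rot p z w |>.symm ▸ (ori_rot p z w ▸ by unfold ori; ring)
  have Gori : ∀ z, ori p q z = G z * ori p q w := by
    intro z
    simp only [hG]; unfold cG
    rw [div_mul_cancel₀ _ hD']
  have Sori : ∀ z, ori q w z = (1 - (A z + G z)) * ori p q w := by
    intro z
    have h1 := Aori z
    have h2 := Gori z
    have : ori q w z = ori p q w - ori w p z - ori p q z := by unfold ori; ring
    rw [this, h1, h2]; ring
  have pw0 : ∀ z, ori p w z = - (A z * ori p q w) := by
    intro z; rw [ori_swap, Aori]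
  -- an edge from p strictly inside the angle is impossible
  have noin : ∀ g, s(p, g) ∈ T → 0 < A g → 0 < G g → False := by
    intro g hg h1 h2
    have h3 := hang g hg (by rw [Gori]; positivity)
    rw [pw0] at h3
    have : 0 < A g * ori p q w := by positivity
    linarith
  -- an edge through an interior point of the angle does not have endpoint p
  have noin' : ∀ g k, s(p, g) ∈ T → k ∈ segment ℝ p g → 0 < A k → 0 < G k → False := by
    intro g k hg hk h1 h2
    have hkp : k ≠ p := by rintro rfl; rw [Ap] at h1; exact lt_irrefl _ h1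
    obtain ⟨μ, hμ0, _, e1, e2⟩ := ray_coord (p := q) (q := w) hk hkp
    apply noin g hg
    · have : 0 < μ * A g := by rw [← e1]; exact h1
      exact (mul_pos_iff_of_pos_left hμ0).1 this
    · have : 0 < μ * G g := by rw [← e2]; exact h2
      exact (mul_pos_iff_of_pos_left hμ0).1 this
  -- escaping argument : from a point k in the open angle with rho < 1-level to endpoint a
  have esc : ∀ a b k, s(a, b) ∈ T → k ∈ segment ℝ a b → 0 < A k → 0 < G k →
      A k + G k ≤ 1 → A a + G a ≤ A k + G k → A a + G a < 1 → 0 ≤ A a ∧ 0 ≤ G a := by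
    intro a b k hab hk hAk hGk hρk hρa hρa1
    by_contra hcon
    have hout : A a < 0 ∨ G a < 0 := by
      by_contra h
      push Not at h
      exact hcon h
    obtain ⟨t, ht0, ht1, hr⟩ := exit2 (φ := fun t => A (pt k a t)) (ψ := fun t => G (pt k a t))
      (by simp only [Apt]; fun_prop) (by simp only [Gpt]; fun_prop)
      (by simp only [pt_eq_left]; exact hAk) (by simp only [pt_eq_left]; exact hGk)
      (by simp only [pt_eq_right]; exact hout)
    set r := pt k a t with hrdef
    have hρr : A r + G r < 1 := by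
      have : A r + G r = (1 - t) * (A k + G k) + t * (A a + G a) := by
        rw [hrdef, Apt, Gpt]; ring
      rw [this]
      nlinarith
    have hrab : r ∈ segment ℝ a b := by
      have hseg : segment ℝ k a ⊆ segment ℝ a b :=
        (convex_segment a b).segment_subset hk (left_mem_segment ℝ a b)
      exact hseg (pt_mem ht0.le ht1)
    -- p is an endpoint
    have hp : r = p → False := by
      intro hrp
      have hpab : p ∈ segment ℝ a b := hrp ▸ hrab
      rcases hE.only hab hpS hpab with h | h
      · subst h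
        exact noin' b k hab hk hAk hGk
      · subst h
        rw [Sym2.eq_swap] at hab
        rw [segment_symm] at hk
        exact noin' a k hab hk hAk hGk
    rcases hr with ⟨h1, h2⟩ | ⟨h1, h2⟩
    · have hrpw : r ∈ segment ℝ p w := onseg_of_A0 hD' h1 h2 (by
        have : A r = 0 := h1
        show G r ≤ 1
        linarith)
      have hne : s(a, b) ≠ s(p, w) := by
        intro heq
        have : k ∈ segment ℝ p w := by
          have h := hk
          rw [← seg_mk, heq, seg_mk] at h
          exact h
        obtain ⟨c, _, _, rfl⟩ := mem_segment_iff.1 this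
        rw [Apt, Ap, Aw] at hAk
        simp at hAk
      rcases (hE.meets hab hpw hne hrab hrpw).2 with h | h
      · exact hp h
      · rw [h, Aw, Gw] at hρr; norm_num at hρr
    · have hrpq : r ∈ segment ℝ p q := onseg_of_G0 hD' h1 h2 (by
        have : G r = 0 := h1
        show A r ≤ 1
        linarith)
      have hne : s(a, b) ≠ s(p, q) := by
        intro heq
        have : k ∈ segment ℝ p q := by
          have h := hk
          rw [← seg_mk, heq, seg_mk] at h
          exact h
        obtain ⟨c, _, _, rfl⟩ := mem_segment_iff.1 this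
        rw [Gpt, Gp, Gq] at hGk
        simp at hGk
      rcases (hE.meets hab hpq hne hrab hrpq).2 with h | h
      · exact hp h
      · rw [h, Aq, Gq] at hρr; norm_num at hρr
  -- the triangle is empty
  have hempty : ∀ z ∈ S, 0 ≤ A z → 0 ≤ G z → A z + G z ≤ 1 → z = p ∨ z = q ∨ z = w := by
    by_contra hcon
    push Not at hcon
    obtain ⟨y0, hy0S, hy0A, hy0G, hy0ρ, hy0p, hy0q, hy0w⟩ := hcon
    set Y : Finset Plane := S.filter (fun z => (0 ≤ A z ∧ 0 ≤ G z ∧ A z + G z ≤ 1) ∧
      z ≠ p ∧ z ≠ q ∧ z ≠ w) with hY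
    obtain ⟨y, hyY, hymin⟩ := Finset.exists_min_image Y (fun z => A z + G z)
      ⟨y0, Finset.mem_filter.2 ⟨hy0S, ⟨hy0A, hy0G, hy0ρ⟩, hy0p, hy0q, hy0w⟩⟩
    obtain ⟨hyS, ⟨hyA, hyG, hyρ⟩, hyp, hyq, hyw⟩ := Finset.mem_filter.1 hyY
    have hyA0 : 0 < A y := by
      rcases hyA.lt_or_eq with h | h
      · exact h
      · exfalso
        have : y ∈ segment ℝ p w := onseg_of_A0 hD' h.symm hyG (by
          show G y ≤ 1
          linarith)
        rcases hE.only hpw hyS this with h | h
        · exact hyp h
        · exact hyw h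
    have hyG0 : 0 < G y := by
      rcases hyG.lt_or_eq with h | h
      · exact h
      · exfalso
        have : y ∈ segment ℝ p q := onseg_of_G0 hD' h.symm hyA (by
          show A y ≤ 1
          linarith)
        rcases hE.only hpq hyS this with h | h
        · exact hyp h
        · exact hyq h
    have hemp : ∀ z ∈ S, z ∈ segment ℝ p y → z = p ∨ z = y := by
      intro z hz hzs
      by_cases hzp : z = p
      · exact Or.inl hzp
      right
      obtain ⟨t, ht0, ht1, rfl⟩ := exists_ratio hzs hzp
      rcases ht1.lt_or_eq with h1 | h1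
      · exfalso
        have eA : A (pt p y t) = t * A y := by rw [Apt, Ap]; ring
        have eG : G (pt p y t) = t * G y := by rw [Gpt, Gp]; ring
        have hmem : pt p y t ∈ Y := by
          simp only [hY, Finset.mem_filter]
          refine ⟨hz, ⟨?_, ?_, ?_⟩, hzp, ?_, ?_⟩
          · rw [eA]; positivity
          · rw [eG]; positivity
          · rw [eA, eG]; nlinarith
          · intro h
            have : G (pt p y t) = 0 := by rw [h, Gq]
            rw [eG] at this
            have : 0 < t * G y := by positivity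
            linarith
          · intro h
            have : A (pt p y t) = 0 := by rw [h, Aw]
            rw [eA] at this
            have : 0 < t * A y := by positivity
            linarith
        have := hymin _ hmem
        rw [eA, eG] at this
        nlinarith
      · rw [h1]; exact pt_eq_right
    have hpy : s(p, y) ∈ T := by
      apply hT.mem_of_free hpS hyS hyp.symm hemp
      intro g1 g2 hg hne k hk1 hk2
      by_contra hcon
      push Not at hcon
      obtain ⟨hkp, hky⟩ := hcon
      obtain ⟨κ, hκ0, hκ1, hκ⟩ := exists_ratio hk1 hkp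
      have hκlt : κ < 1 := by
        rcases hκ1.lt_or_eq with h | h
        · exact h
        · rw [h, pt_eq_right] at hκ; exact absurd hκ hky
      have eA : A k = κ * A y := by rw [hκ, Apt, Ap]; ring
      have eG : G k = κ * G y := by rw [hκ, Gpt, Gp]; ring
      have hAk : 0 < A k := by rw [eA]; positivity
      have hGk : 0 < G k := by rw [eG]; positivity
      have hρk : A k + G k < A y + G y := by rw [eA, eG]; nlinarith
      have key : ∀ a b, s(a, b) ∈ T → k ∈ segment ℝ a b → A a + G a ≤ A k + G k → False := by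
        intro a b hab hkab hρa
        obtain ⟨h1, h2⟩ := esc a b k hab hkab hAk hGk (by linarith) hρa (by linarith)
        by_cases hap : a = p
        · subst hap
          exact noin' b k hab hkab hAk hGk
        · have haY : a ∈ Y := by
            simp only [hY, Finset.mem_filter]
            refine ⟨hE.left_mem hab, ⟨h1, h2, by linarith⟩, hap, ?_, ?_⟩
            · intro h; rw [h, Aq, Gq] at hρa; linarith
            · intro h; rw [h, Aw, Gw] at hρa; linarith
          have := hymin a haY
          linarith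
      obtain ⟨t, ht0, ht1, hkt⟩ := mem_segment_iff.1 hk2
      have hρt : A k + G k = (1 - t) * (A g1 + G g1) + t * (A g2 + G g2) := by
        have h1 := Apt g1 g2 t
        have h2 := Gpt g1 g2 t
        rw [← hkt] at h1 h2
        rw [h1, h2]; ring
      by_cases hc : A g1 + G g1 ≤ A k + G k
      · exact key g1 g2 hg hk2 hc
      · have hc2 : A g2 + G g2 ≤ A k + G k := by
          by_contra h
          push Not at h hc
          rcases ht0.lt_or_eq with h' | h'
          · nlinarith
          · rw [← h'] at hρt; simp at hρt; linarith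
        rw [Sym2.eq_swap] at hg
        rw [segment_symm] at hk2
        exact key g2 g1 hg hk2 hc2
    exact noin y hpy hyA0 hyG0
  -- the third side
  have hqwT : s(q, w) ∈ T := by
    have hemp : ∀ z ∈ S, z ∈ segment ℝ q w → z = q ∨ z = w := by
      intro z hz hzs
      obtain ⟨t, ht0, ht1, rfl⟩ := mem_segment_iff.1 hzs
      have eA : A (pt q w t) = 1 - t := by rw [Apt, Aq, Aw]; ring
      have eG : G (pt q w t) = t := by rw [Gpt, Gq, Gw]; ring
      rcases hempty _ hz (by rw [eA]; linarith) (by rw [eG]; exact ht0) (by rw [eA, eG]; linarith)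
        with h | h | h
      · exfalso
        have h1 : A (pt q w t) = 0 := by rw [h, Ap]
        have h2 : G (pt q w t) = 0 := by rw [h, Gp]
        rw [eA] at h1; rw [eG] at h2; linarith
      · exact Or.inl h
      · exact Or.inr h
    apply hT.mem_of_free hqS hwS hqw hemp
    intro g1 g2 hg hne k hk1 hk2
    by_contra hcon
    push Not at hcon
    obtain ⟨hkq, hkw⟩ := hcon
    have hkS : k ∉ S := by
      intro hkS
      rcases hemp k hkS hk1 with h | h
      · exact hkq h
      · exact hkw h
    obtain ⟨κ, hκ0, hκ1, hκ⟩ := exists_ratio hk1 hkq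
    have hκlt : κ < 1 := by
      rcases hκ1.lt_or_eq with h | h
      · exact h
      · rw [h, pt_eq_right] at hκ; exact absurd hκ hkw
    have eA : A k = 1 - κ := by rw [hκ, Apt, Aq, Aw]; ring
    have eG : G k = κ := by rw [hκ, Gpt, Gq, Gw]; ring
    have hAk : 0 < A k := by rw [eA]; linarith
    have hGk : 0 < G k := by rw [eG]; exact hκ0
    have hρk : A k + G k = 1 := by rw [eA, eG]; ring
    have key : ∀ a b, s(a, b) ∈ T → k ∈ segment ℝ a b → A a + G a < 1 → False := by
      intro a b hab hkab hρa
      obtain ⟨h1, h2⟩ := esc a b k hab hkab hAk hGk (by linarith) (by linarith) hρa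
      rcases hempty a (hE.left_mem hab) h1 h2 hρa.le with h | h | h
      · subst h
        exact noin' b k hab hkab hAk hGk
      · rw [h, Aq, Gq] at hρa; norm_num at hρa
      · rw [h, Aw, Gw] at hρa; norm_num at hρa
    obtain ⟨t, ht0, ht1, hkt⟩ := mem_segment_iff.1 hk2
    have hρt : A k + G k = (1 - t) * (A g1 + G g1) + t * (A g2 + G g2) := by
      have h1 := Apt g1 g2 t
      have h2 := Gpt g1 g2 t
      rw [← hkt] at h1 h2
      rw [h1, h2]; ring
    rw [hρk] at hρt
    have htpos : 0 < t := by
      rcases ht0.lt_or_eq with h | h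
      · exact h
      · exfalso; apply hkS; rw [hkt, ← h, pt_eq_left]; exact hE.left_mem hg
    have htlt : t < 1 := by
      rcases ht1.lt_or_eq with h | h
      · exact h
      · exfalso; apply hkS; rw [hkt, h, pt_eq_right]; exact hE.right_mem hg
    by_cases hc : A g1 + G g1 < 1
    · exact key g1 g2 hg hk2 hc
    by_cases hc2 : A g2 + G g2 < 1
    · rw [Sym2.eq_swap] at hg
      rw [segment_symm] at hk2
      exact key g2 g1 hg hk2 hc2
    push Not at hc hc2
    have hs1 : A g1 + G g1 = 1 := by nlinarith
    have hs2 : A g2 + G g2 = 1 := by nlinarith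
    -- collinear with q w
    have hlin : ∀ z, A z + G z = 1 → z = pt q w (G z) := by
      intro z hz
      apply ext
      · rw [Apt, Aq, Aw]; linarith
      · rw [Gpt, Gq, Gw]; ring
    have e1 := hlin g1 hs1
    have e2 := hlin g2 hs2
    set α := G g1 with hα
    set β := G g2 with hβ
    have hκeq : κ = (1 - t) * α + t * β := by
      have h1 := Gpt g1 g2 t
      rw [← hkt, eG] at h1
      exact h1
    have hαn : ¬ (0 < α ∧ α < 1) := by
      rintro ⟨h0, h1⟩
      have hm1 : g1 ∈ segment ℝ q w := by rw [e1]; exact pt_mem h0.le h1.le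
      rcases hemp g1 (hE.left_mem hg) hm1 with h | h
      · have : α = 0 := by rw [hα, h, Gq]
        linarith
      · have : α = 1 := by rw [hα, h, Gw]
        linarith
    have hβn : ¬ (0 < β ∧ β < 1) := by
      rintro ⟨h0, h1⟩
      have hm1 : g2 ∈ segment ℝ q w := by rw [e2]; exact pt_mem h0.le h1.le
      rcases hemp g2 (hE.right_mem hg) hm1 with h | h
      · have : β = 0 := by rw [hβ, h, Gq]
        linarith
      · have : β = 1 := by rw [hβ, h, Gw]
        linarith
    have hcase : (α ≤ 0 ∧ 1 ≤ β) ∨ (β ≤ 0 ∧ 1 ≤ α) := by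
      by_cases ha : α ≤ 0
      · left
        refine ⟨ha, ?_⟩
        by_contra hb
        push Not at hb
        have hb0 : 0 < β := by
          by_contra h
          push Not at h
          nlinarith
        exact hβn ⟨hb0, hb⟩
      · push Not at ha
        have ha1 : 1 ≤ α := by
          by_contra h
          push Not at h
          exact hαn ⟨ha, h⟩
        right
        refine ⟨?_, ha1⟩
        by_contra hb
        push Not at hb
        have hb1 : 1 ≤ β := by
          by_contra h
          push Not at h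
          exact hβn ⟨hb, h⟩
        nlinarith
    have hab : α ≠ β := by rcases hcase with ⟨h1, h2⟩ | ⟨h1, h2⟩ <;> intro h <;> linarith
    have hin : ∀ c : ℝ, 0 ≤ c → c ≤ 1 → pt q w c ∈ segment ℝ g1 g2 := by
      intro c hc0 hc1
      have : pt q w c = pt g1 g2 ((c - α) / (β - α)) := by
        rw [e1, e2, pt_pt]
        congr 1
        have : β - α ≠ 0 := sub_ne_zero.2 hab.symm
        field_simp
        ring
      rw [this]
      rcases hcase with ⟨h1, h2⟩ | ⟨h1, h2⟩
      · apply pt_mem
        · apply div_nonneg <;> linarith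
        · rw [div_le_one (by linarith)]; linarith
      · apply pt_mem
        · apply div_nonneg_of_nonpos <;> linarith
        · rw [div_le_one_of_neg (by linarith)]; linarith
    have hvin : q ∈ segment ℝ g1 g2 := by
      have := hin 0 le_rfl zero_le_one; rwa [pt_eq_left] at this
    have hyin : w ∈ segment ℝ g1 g2 := by
      have := hin 1 zero_le_one le_rfl; rwa [pt_eq_right] at this
    apply hne
    rcases hE.only hg hqS hvin with h | h <;> rcases hE.only hg hwS hyin with h' | h'
    · exact absurd (h.trans h'.symm) hqw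
    · rw [h, h']
    · rw [h, h', Sym2.eq_swap]
    · exact absurd (h.trans h'.symm) hqw
  refine ⟨w, hwS, hD, hpw, hqwT, ?_⟩
  intro z hz h1 h2 h3
  rw [Gori] at h1
  rw [Sori] at h2
  rw [Aori] at h3
  have e1 : 0 ≤ G z := nonneg_of_mul_nonneg_left h1 hD
  have e2 : 0 ≤ 1 - (A z + G z) := nonneg_of_mul_nonneg_left h2 hD
  have e3 : 0 ≤ A z := nonneg_of_mul_nonneg_left h3 hD
  exact hempty z hz e3 e1 (by linarith)

end Pool.Agent.MWST
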