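import Pool.Agent.MWST.Defs

namespace Pool.Agent.MWST

open Set

@[simp] lemma seg_mk (x y : Plane) : seg s(x, y) = segment ℝ x y := rfl
@[simp] lemma len_mk (x y : Plane) : len s(x, y) = dist x y := rfl

/-- Signed doubled area of the triangle `p q r`. -/
def ori (p q r : Plane) : ℝ := (q 0 - p 0) * (r 1 - p 1) - (q 1 - p 1) * (r 0 - p 0)

lemma ori_swap (p q r : Plane) : ori q p r = - ori p q r := by unfold ori; ring
lemma ori_swap' (p q r : Plane) : ori p r q = - ori p q r := by unfold ori; ring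
lemma ori_rot (p q r : Plane) : ori q r p = ori p q r := by unfold ori; ring
lemma ori_rot' (p q r : Plane) : ori r p q = ori p q r := by unfold ori; ring
lemma ori_self (p q : Plane) : ori p q q = 0 := by unfold ori; ring
lemma ori_self' (p q : Plane) : ori p q p = 0 := by unfold ori; ring
lemma ori_self'' (p q : Plane) : ori p p q = 0 := by unfold ori; ring

lemma plane_ext {x y : Plane} (h0 : x 0 = y 0) (h1 : x 1 = y 1) : x = y := by
  ext i
  fin_cases i
  · exact h0
  · exact h1

/-- The point dividing the segment from `x` to `y` in ratio `t : 1 - t`. -/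
noncomputable def pt (x y : Plane) (t : ℝ) : Plane := !₂[(1 - t) * x 0 + t * y 0, (1 - t) * x 1 + t * y 1]

@[simp] lemma pt_zero (x y : Plane) (t : ℝ) : (pt x y t) 0 = (1 - t) * x 0 + t * y 0 := by
  simp [pt]
@[simp] lemma pt_one (x y : Plane) (t : ℝ) : (pt x y t) 1 = (1 - t) * x 1 + t * y 1 := by
  simp [pt]

lemma pt_mem {x y : Plane} {t : ℝ} (h0 : 0 ≤ t) (h1 : t ≤ 1) : pt x y t ∈ segment ℝ x y := by
  refine ⟨1 - t, t, by linarith, h0, by ring, ?_⟩
  apply plane_ext <;> simp

lemma mem_segment_iff {x y z : Plane} : z ∈ segment ℝ x y ↔ ∃ t : ℝ, 0 ≤ t ∧ t ≤ 1 ∧ z = pt x y t := by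
  constructor
  · rintro ⟨a, b, ha, hb, hab, rfl⟩
    refine ⟨b, hb, by linarith, ?_⟩
    have : a = 1 - b := by linarith
    subst this
    apply plane_ext <;> simp
  · rintro ⟨t, h0, h1, rfl⟩
    exact pt_mem h0 h1

lemma ori_pt (p q x y : Plane) (t : ℝ) : ori p q (pt x y t) = (1 - t) * ori p q x + t * ori p q y := by
  unfold ori; simp; ring

lemma pt_eq_left {x y : Plane} : pt x y 0 = x := by apply plane_ext <;> simp
lemma pt_eq_right {x y : Plane} : pt x y 1 = y := by apply plane_ext <;> simp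

/-- An exit lemma: an affine path starting in the interior of an intersection of two half-planes and
ending outside hits the boundary. -/
lemma exit2 {φ ψ : ℝ → ℝ} (hφ : Continuous φ) (hψ : Continuous ψ) (h0 : 0 < φ 0) (h0' : 0 < ψ 0)
    (h1 : φ 1 < 0 ∨ ψ 1 < 0) :
    ∃ t : ℝ, 0 < t ∧ t ≤ 1 ∧ ((φ t = 0 ∧ 0 ≤ ψ t) ∨ (ψ t = 0 ∧ 0 ≤ φ t)) := by
  have hc : ContinuousOn (fun t => min (φ t) (ψ t)) (Set.Icc 0 1) := (hφ.min hψ).continuousOn
  have hiv := intermediate_value_Icc' (zero_le_one (α := ℝ)) hc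
  have hm : (0 : ℝ) ∈ Set.Icc (min (φ 1) (ψ 1)) (min (φ 0) (ψ 0)) := by
    constructor
    · rcases h1 with h | h
      · exact (min_le_left _ _).trans h.le
      · exact (min_le_right _ _).trans h.le
    · exact le_min h0.le h0'.le
  obtain ⟨t, ⟨ht0, ht1⟩, ht⟩ := hiv hm
  simp only at ht
  have htpos : 0 < t := by
    rcases ht0.lt_or_eq with h | h
    · exact h
    · subst h
      exact absurd ht (ne_of_gt (lt_min h0 h0'))
  refine ⟨t, htpos, ht1, ?_⟩
  rcases le_total (φ t) (ψ t) with h | h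
  · rw [min_eq_left h] at ht
    left; exact ⟨ht, ht ▸ h⟩
  · rw [min_eq_right h] at ht
    right; exact ⟨ht, ht ▸ h⟩

lemma exit3 {φ ψ χ : ℝ → ℝ} (hφ : Continuous φ) (hψ : Continuous ψ) (hχ : Continuous χ)
    (h0 : 0 < φ 0) (h0' : 0 < ψ 0) (h0'' : 0 < χ 0)
    (h1 : φ 1 < 0 ∨ ψ 1 < 0 ∨ χ 1 < 0) :
    ∃ t : ℝ, 0 < t ∧ t ≤ 1 ∧ 0 ≤ φ t ∧ 0 ≤ ψ t ∧ 0 ≤ χ t ∧ (φ t = 0 ∨ ψ t = 0 ∨ χ t = 0) := by
  have hc : ContinuousOn (fun t => min (φ t) (min (ψ t) (χ t))) (Set.Icc 0 1) :=
    (hφ.min (hψ.min hχ)).continuousOn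
  have hiv := intermediate_value_Icc' (zero_le_one (α := ℝ)) hc
  have hm : (0 : ℝ) ∈ Set.Icc (min (φ 1) (min (ψ 1) (χ 1))) (min (φ 0) (min (ψ 0) (χ 0))) := by
    constructor
    · rcases h1 with h | h | h
      · exact (min_le_left _ _).trans h.le
      · exact (min_le_right _ _).trans ((min_le_left _ _).trans h.le)
      · exact (min_le_right _ _).trans ((min_le_right _ _).trans h.le)
    · exact le_min h0.le (le_min h0'.le h0''.le)
  obtain ⟨t, ⟨ht0, ht1⟩, ht⟩ := hiv hm
  simp only at ht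
  have htpos : 0 < t := by
    rcases ht0.lt_or_eq with h | h
    · exact h
    · subst h
      exact absurd ht (ne_of_gt (lt_min h0 (lt_min h0' h0'')))
  have e1 : 0 ≤ φ t := by rw [← ht]; exact min_le_left _ _
  have e2 : 0 ≤ ψ t := by rw [← ht]; exact (min_le_right _ _).trans (min_le_left _ _)
  have e3 : 0 ≤ χ t := by rw [← ht]; exact (min_le_right _ _).trans (min_le_right _ _)
  refine ⟨t, htpos, ht1, e1, e2, e3, ?_⟩
  rcases le_total (φ t) (min (ψ t) (χ t)) with h | h
  · rw [min_eq_left h] at ht; exact Or.inl ht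
  · rw [min_eq_right h] at ht
    rcases le_total (ψ t) (χ t) with h' | h'
    · rw [min_eq_left h'] at ht; exact Or.inr (Or.inl ht)
    · rw [min_eq_right h'] at ht; exact Or.inr (Or.inr ht)

section Tri

variable {S : Finset Plane} {T : Finset (Sym2 Plane)}

lemma IsEdgeSet.ne (h : IsEdgeSet S T) {p q : Plane} (he : s(p, q) ∈ T) : p ≠ q := by
  intro hpq
  exact h.not_diag _ he (by simp [hpq])

lemma IsEdgeSet.left_mem (h : IsEdgeSet S T) {p q : Plane} (he : s(p, q) ∈ T) : p ∈ S :=
  h.endpoints_mem _ he p (by simp)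

lemma IsEdgeSet.right_mem (h : IsEdgeSet S T) {p q : Plane} (he : s(p, q) ∈ T) : q ∈ S :=
  h.endpoints_mem _ he q (by simp)

lemma IsEdgeSet.only (h : IsEdgeSet S T) {p q x : Plane} (he : s(p, q) ∈ T) (hx : x ∈ S)
    (hs : x ∈ segment ℝ p q) : x = p ∨ x = q := by
  have := h.only_endpoints _ he x hx hs
  simpa using this

lemma IsEdgeSet.meets (h : IsEdgeSet S T) {p q r w x : Plane} (he : s(p, q) ∈ T) (hf : s(r, w) ∈ T)
    (hne : s(p, q) ≠ s(r, w)) (h1 : x ∈ segment ℝ p q) (h2 : x ∈ segment ℝ r w) :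
    (x = p ∨ x = q) ∧ (x = r ∨ x = w) := by
  have := h.meet _ he _ hf hne x h1 h2
  simpa using this

/-- Two edges meeting in a point outside `S` coincide. -/
lemma IsEdgeSet.eq_of_meet (h : IsEdgeSet S T) {p q r w x : Plane} (he : s(p, q) ∈ T)
    (hf : s(r, w) ∈ T) (h1 : x ∈ segment ℝ p q) (h2 : x ∈ segment ℝ r w) (hx : x ∉ S) :
    s(p, q) = s(r, w) := by
  by_contra hne
  rcases (h.meets he hf hne h1 h2).1 with rfl | rfl
  · exact hx (h.left_mem he)
  · exact hx (h.right_mem he)

/-- Blocking lemma: a pair of points of `S` that is not blocked is an edge of a triangulation. -/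
lemma IsTriangulation.mem_of_free (hT : IsTriangulation S T) {x y : Plane} (hx : x ∈ S) (hy : y ∈ S)
    (hxy : x ≠ y) (h1 : ∀ z ∈ S, z ∈ segment ℝ x y → z = x ∨ z = y)
    (h2 : ∀ p q, s(p, q) ∈ T → s(p, q) ≠ s(x, y) → ∀ z ∈ segment ℝ x y, z ∈ segment ℝ p q →
      z = x ∨ z = y) : s(x, y) ∈ T := by
  classical
  have hE := hT.prop
  have key : IsEdgeSet S (insert s(x, y) T) := by
    refine ⟨?_, ?_, ?_, ?_⟩
    · intro e he
      rcases Finset.mem_insert.1 he with rfl | he
      · simpa using hxy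
      · exact hE.not_diag e he
    · intro e he z hz
      rcases Finset.mem_insert.1 he with rfl | he
      · rcases Sym2.mem_iff.1 hz with rfl | rfl
        · exact hx
        · exact hy
      · exact hE.endpoints_mem e he z hz
    · intro e he z hz hze
      rcases Finset.mem_insert.1 he with rfl | he
      · simpa using h1 z hz hze
      · exact hE.only_endpoints e he z hz hze
    · have aux : ∀ f ∈ T, f ≠ s(x, y) → ∀ z, z ∈ seg s(x, y) → z ∈ seg f →
          z ∈ s(x, y) ∧ z ∈ f := by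
        intro f hf hne z hz1 hz2
        induction f using Sym2.ind with
        | _ p q =>
          have h3 := h2 p q hf hne z hz1 hz2
          refine ⟨by simpa using h3, ?_⟩
          have hzS : z ∈ S := by rcases h3 with rfl | rfl <;> assumption
          exact hE.only_endpoints _ hf z hzS hz2
      intro e he f hf hne z hz1 hz2
      rcases Finset.mem_insert.1 he with rfl | he
      · rcases Finset.mem_insert.1 hf with rfl | hf
        · exact absurd rfl hne
        · exact aux f hf hne.symm z hz1 hz2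
      · rcases Finset.mem_insert.1 hf with rfl | hf
        · exact (aux e he hne z hz2 hz1).symm
        · exact hE.meet e he f hf hne z hz1 hz2
  exact hT.le_of_ge key (Finset.subset_insert _ _) (Finset.mem_insert_self _ _)

end Tri

end Pool.Agent.MWST
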