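import Pool.Agent.MWST.Inner

namespace Pool.Agent.MWST

open Set MeasureTheory
open scoped MeasureTheory ENNReal

variable {S : Finset Plane} {T : Finset (Sym2 Plane)}

/-- A ray from a point `x` of the hull meets an outer edge. -/
lemma IsTriangulation.hull_ray (hT : IsTriangulation S T) {x y p0 q0 : Plane} (hxy : x ≠ y)
    (hp0 : p0 ∈ S) (hq0 : q0 ∈ S) (h1 : ori x y p0 < 0) (h2 : 0 < ori x y q0)
    (hx : x ∈ segment ℝ p0 q0) (hgen : ∀ z ∈ S, ori x y z ≠ 0) :
    ∃ p q, s(p, q) ∈ T ∧ ¬ Sep S p q ∧ ∃ α : ℝ, 0 ≤ α ∧ pt x y α ∈ segment ℝ p q := by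
  classical
  have hE := hT.prop
  set κ : Plane → ℝ := fun z => ori x y z with hκ
  set C : Finset (Plane × Plane) := (S ×ˢ S).filter (fun a => s(a.1, a.2) ∈ T ∧ κ a.1 < 0 ∧ 0 < κ a.2)
    with hC
  set lam : Plane × Plane → ℝ := fun a => ori a.1 a.2 x / (ori a.1 a.2 x - ori a.1 a.2 y) with hlam
  have hden : ∀ p q, ori p q x - ori p q y = κ q - κ p := by
    intro p q; simp only [hκ]; unfold ori; ring
  have hCne : C.Nonempty := by
    obtain ⟨p, hpF, hpmax⟩ := Finset.exists_max_image (S.filter (fun z => κ z < 0)) κ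
      ⟨p0, Finset.mem_filter.2 ⟨hp0, h1⟩⟩
    obtain ⟨hpS, hlp⟩ := Finset.mem_filter.1 hpF
    have hlt : κ p < κ q0 := lt_trans hlp h2
    obtain ⟨q, hpq, hlq⟩ := hT.exists_edge_halfplane hpS hq0 (-(y 1 - x 1)) (y 0 - x 0) (by
      simp only [hκ] at hlt; unfold ori at hlt; linarith)
    have hqS := hE.right_mem hpq
    have hlq' : κ p < κ q := by simp only [hκ]; unfold ori; linarith
    refine ⟨(p, q), Finset.mem_filter.2 ⟨Finset.mem_product.2 ⟨hpS, hqS⟩, hpq, hlp, ?_⟩⟩
    rcases lt_or_ge (κ q) 0 with h | h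
    · have := hpmax q (Finset.mem_filter.2 ⟨hqS, h⟩)
      exact absurd hlq' (not_lt.2 this)
    · exact lt_of_le_of_ne h (hgen q hqS).symm
  obtain ⟨⟨p, q⟩, hpqC, hmax⟩ := Finset.exists_max_image C lam hCne
  obtain ⟨hmem, hpq, hκp, hκq⟩ := Finset.mem_filter.1 hpqC
  obtain ⟨hpS, hqS⟩ := Finset.mem_product.1 hmem
  simp only at hpq hκp hκq hpS hqS
  -- crossing points
  have hcrossing : ∀ p q, κ p < 0 → 0 < κ q → ∃ τ : ℝ, 0 < τ ∧ τ < 1 ∧ ∃ α : ℝ,
      pt p q τ = pt x y α := by
    intro p q hp hq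
    have hd : 0 < κ q - κ p := by linarith
    refine ⟨- κ p / (κ q - κ p), div_pos (by linarith) hd, by rw [div_lt_one hd]; linarith, ?_⟩
    apply exists_ray_param _ hxy
    have : ori x y (pt p q (-κ p / (κ q - κ p))) = (1 - (-κ p / (κ q - κ p))) * κ p +
      (-κ p / (κ q - κ p)) * κ q := ori_pt x y p q _
    rw [this]
    field_simp
    ring
  obtain ⟨τ, hτ0, hτ1, α, hα⟩ := hcrossing p q hκp hκq
  have hαlam : α * (κ q - κ p) = ori p q x := by
    have h3 : ori p q (pt x y α) = 0 := by
      rw [← hα, ori_pt, ori_self', ori_self]; ring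
    rw [ori_pt] at h3
    rw [← hden]; linarith
  have hd : 0 < κ q - κ p := by linarith
  have hlamα : lam (p, q) = α := by
    simp only [hlam]
    rw [hden, ← hαlam]; field_simp
  -- no point beyond
  have hnobeyond : ∀ z ∈ S, 0 ≤ ori p q z := by
    intro z hz
    by_contra hneg
    push Not at hneg
    have hqp : s(q, p) ∈ T := by rwa [Sym2.eq_swap]
    obtain ⟨w, hwS, hDw, hqw, hpw, _⟩ := hT.face hqp hz (by rw [ori_swap]; linarith)
    have hκw : κ w ≠ 0 := hgen w hwS
    have final : ∀ p' q' : Plane, κ p' < 0 → 0 < κ q' → s(p', q') ∈ T →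
        (∀ τ, 0 < τ → τ < 1 → 0 < ori q p (pt p' q' τ)) → False := by
      intro p' q' h3 h4 h5 h6
      obtain ⟨τ', hτ0', hτ1', α', hα'⟩ := hcrossing p' q' h3 h4
      have h7 := h6 τ' hτ0' hτ1'
      rw [hα', ori_swap, ori_pt] at h7
      have hd' : 0 < κ q' - κ p' := by linarith
      have h8 : α' * (κ q' - κ p') = ori p' q' x := by
        have h3 : ori p' q' (pt x y α') = 0 := by
          rw [← hα', ori_pt, ori_self', ori_self]; ring
        rw [ori_pt] at h3
        rw [← hden]; linarith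
      have h9 : lam (p', q') = α' := by
        simp only [hlam]
        rw [hden, ← h8]; field_simp
      have h10 := hmax (p', q') (Finset.mem_filter.2 ⟨Finset.mem_product.2
        ⟨hE.left_mem h5, hE.right_mem h5⟩, h5, h3, h4⟩)
      rw [h9, hlamα] at h10
      have h11 : ori p q x - α' * (κ q - κ p) < 0 := by rw [← hden]; linarith
      rw [← hαlam] at h11
      nlinarith
    rcases lt_or_gt_of_ne hκw with h | h
    · refine final w q h hκq (by rwa [Sym2.eq_swap]) ?_
      intro τ' h3 h4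
      rw [ori_pt, ori_self']
      have : 0 < (1 - τ') * ori q p w := mul_pos (by linarith) hDw
      linarith
    · refine final p w hκp h hpw ?_
      intro τ' h3 h4
      rw [ori_pt, ori_self]
      have : 0 < τ' * ori q p w := mul_pos h3 hDw
      linarith
  refine ⟨p, q, hpq, ?_, α, ?_, ?_⟩
  · rintro ⟨_, z, hz, hz2⟩
    have := hnobeyond z hz
    linarith
  · obtain ⟨t, ht0, ht1, hxt⟩ := mem_segment_iff.1 hx
    have : 0 ≤ ori p q x := by
      rw [hxt, ori_pt]
      exact add_nonneg (mul_nonneg (by linarith) (hnobeyond _ hp0)) (mul_nonneg ht0 (hnobeyond _ hq0))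
    rw [← hαlam] at this
    exact nonneg_of_mul_nonneg_left this hd
  · rw [← hα]; exact pt_mem hτ0.le hτ1.le

/-- Nearest point projection onto a nonempty compact convex set. -/
lemma exists_proj {K : Set Plane} (hne : K.Nonempty) (hc : IsCompact K) (hconv : Convex ℝ K) :
    ∃ π : Plane → Plane, LipschitzWith 1 π ∧
      ∀ z x : Plane, x ∈ K → (∀ w ∈ K, inner ℝ (z - x) (w - x) ≤ 0) → π z = x := by
  have hex : ∀ z : Plane, ∃ v ∈ K, ∀ w ∈ K, inner ℝ (z - v) (w - v) ≤ 0 := by
    intro z
    obtain ⟨v, hv, hv2⟩ := exists_norm_eq_iInf_of_complete_convex hne hc.isComplete hconv z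
    exact ⟨v, hv, (norm_eq_iInf_iff_real_inner_le_zero hconv hv).1 hv2⟩
  choose π hπ hπ2 using hex
  refine ⟨π, ?_, ?_⟩
  · apply LipschitzWith.of_dist_le_mul
    intro x y
    have h1 := hπ2 x (π y) (hπ y)
    have h2 := hπ2 y (π x) (hπ x)
    have h3 : ‖π y - π x‖ ^ 2 ≤ inner ℝ (y - x) (π y - π x) := by
      rw [← real_inner_self_eq_norm_sq]
      have e1 : inner ℝ (y - π y) (π x - π y) = - inner ℝ (y - π y) (π y - π x) := by
        rw [← inner_neg_right]; congr 1; abel
      rw [e1] at h2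
      have e2 : inner ℝ (y - x) (π y - π x) - inner ℝ (π y - π x) (π y - π x) =
          inner ℝ (y - π y) (π y - π x) - inner ℝ (x - π x) (π y - π x) := by
        simp only [← inner_sub_left]
        congr 1; abel
      linarith
    have h4 : inner ℝ (y - x) (π y - π x) ≤ ‖y - x‖ * ‖π y - π x‖ := real_inner_le_norm _ _
    rw [NNReal.coe_one, one_mul, dist_comm (π x), dist_comm x, dist_eq_norm, dist_eq_norm]
    by_contra hcon
    push Not at hcon
    have : 0 < ‖π y - π x‖ := lt_of_le_of_lt (norm_nonneg _) hcon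
    nlinarith
  · intro z x hx hx2
    have h1 := hπ2 z x hx
    have h2 := hx2 (π z) (hπ z)
    have h3 : ‖x - π z‖ ^ 2 ≤ 0 := by
      rw [← real_inner_self_eq_norm_sq]
      have e1 : inner ℝ (z - x) (π z - x) = - inner ℝ (z - x) (x - π z) := by
        rw [← inner_neg_right]; congr 1; abel
      rw [e1] at h2
      have e2 : inner ℝ (z - π z) (x - π z) - inner ℝ (z - x) (x - π z) =
          inner ℝ (x - π z) (x - π z) := by
        rw [← inner_sub_left]; congr 1; abel
      linarith
    have h4 : ‖x - π z‖ = 0 := by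
      have := sq_nonneg ‖x - π z‖
      exact pow_eq_zero_iff (two_ne_zero) |>.1 (le_antisymm h3 this)
    rw [norm_eq_zero, sub_eq_zero] at h4
    exact h4.symm

lemma inner_plane (x y : Plane) : inner ℝ x y = x 0 * y 0 + x 1 * y 1 := by
  rw [PiLp.inner_apply]
  simp [Fin.sum_univ_two]
  ring

/-- Covering a side. -/
lemma IsTriangulation.cover_side (hT : IsTriangulation S T) {K : Set Plane} {π : Plane → Plane}
    (hπ : ∀ z x : Plane, x ∈ K → (∀ w ∈ K, inner ℝ (z - x) (w - x) ≤ 0) → π z = x)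
    {p q : Plane} (hp : p ∈ S) (hq : q ∈ S) (hpq : p ≠ q) (hK : ∀ w ∈ K, 0 ≤ ori p q w)
    (hseg : segment ℝ p q ⊆ K) :
    ∃ F : Set Plane, F.Finite ∧ segment ℝ p q ⊆
      (π '' ⋃ e ∈ {e | e ∈ T ∧ ¬ IsInner S e}, seg e) ∪ F := by
  classical
  have hsq := sq_dist_pos hpq
  set D := (q 0 - p 0) ^ 2 + (q 1 - p 1) ^ 2 with hD
  set X : Set ℝ := (fun z : Plane => ((q 0 - p 0) * (z 0 - p 0) + (q 1 - p 1) * (z 1 - p 1)) / D) '' (S : Set Plane)
    with hX
  have hXfin : X.Finite := (S.finite_toSet).image _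
  refine ⟨(fun t => pt p q t) '' (X ∪ {0, 1}), (hXfin.union (by simp)).image _, ?_⟩
  intro x hx
  obtain ⟨t, ht0, ht1, rfl⟩ := mem_segment_iff.1 hx
  by_cases ht : t ∈ X ∪ {0, 1}
  · right; exact ⟨t, ht, rfl⟩
  left
  simp only [mem_union, mem_insert_iff, mem_singleton_iff, not_or] at ht
  obtain ⟨htX, htn0, htn1⟩ := ht
  have ht0' : 0 < t := lt_of_le_of_ne ht0 (Ne.symm htn0)
  have ht1' : t < 1 := lt_of_le_of_ne ht1 htn1
  set x := pt p q t with hxdef
  set y : Plane := !₂[x 0 + (q 1 - p 1), x 1 - (q 0 - p 0)] with hy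
  have hy0 : y 0 = x 0 + (q 1 - p 1) := by simp [hy]
  have hy1 : y 1 = x 1 - (q 0 - p 0) := by simp [hy]
  have hx0 : x 0 = (1 - t) * p 0 + t * q 0 := by rw [hxdef, pt_zero]
  have hx1 : x 1 = (1 - t) * p 1 + t * q 1 := by rw [hxdef, pt_one]
  have hori : ∀ z, ori x y z = (q 0 - p 0) * (z 0 - p 0) + (q 1 - p 1) * (z 1 - p 1) - t * D := by
    intro z; unfold ori; rw [hy0, hy1, hx0, hx1, hD]; ring
  have hxy : x ≠ y := by
    intro h
    have e0 : x 0 = y 0 := by rw [← h]
    have e1 : x 1 = y 1 := by rw [← h]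
    rw [hy0] at e0; rw [hy1] at e1
    have : q 1 - p 1 = 0 := by linarith
    have : q 0 - p 0 = 0 := by linarith
    apply hpq
    apply plane_ext <;> linarith
  obtain ⟨p', q', hpq', hns, α, hα0, hαseg⟩ := hT.hull_ray hxy hp hq
    (by rw [hori]; have : 0 < t * D := mul_pos ht0' hsq; nlinarith)
    (by rw [hori]
        have h1 : (q 0 - p 0) * (q 0 - p 0) + (q 1 - p 1) * (q 1 - p 1) = D := by rw [hD]; ring
        rw [h1]; nlinarith)
    hx
    (by
      intro z hz h
      rw [hori] at h
      apply htX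
      rw [hX]
      refine ⟨z, hz, ?_⟩
      simp only
      field_simp
      linarith)
  refine ⟨pt x y α, ?_, ?_⟩
  · simp only [mem_iUnion, mem_ofPred_eq, exists_prop]
    exact ⟨s(p', q'), ⟨hpq', hns⟩, hαseg⟩
  · apply hπ _ _ (hseg hx)
    intro w hw
    rw [inner_plane]
    have h1 := hK w hw
    have : ((pt x y α) - x) 0 * (w - x) 0 + ((pt x y α) - x) 1 * (w - x) 1 = - α * ori p q w := by
      simp only [PiLp.sub_apply, pt_zero, pt_one, hy0, hy1, hx0, hx1]
      unfold ori
      ring
    rw [this]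
    nlinarith

/-- The convex hull of the four points. -/
lemma hull_ori {p q : Plane} (ha : 0 ≤ ori p q pa) (hc : 0 ≤ ori p q pc) (hd : 0 ≤ ori p q pd) :
    ∀ w ∈ convexHull ℝ ({pa, pc, pd} : Set Plane), 0 ≤ ori p q w := by
  have hconv : Convex ℝ {w : Plane | 0 ≤ ori p q w} := by
    intro x hx y hy a b ha hb hab
    simp only [mem_ofPred_eq] at *
    have : ori p q (a • x + b • y) = a * ori p q x + b * ori p q y := by
      have hb' : b = 1 - a := by linarith
      subst hb'
      unfold ori; simp; ring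
    rw [this]
    exact add_nonneg (mul_nonneg ha hx) (mul_nonneg hb hy)
  intro w hw
  have := convexHull_min (s := ({pa, pc, pd} : Set Plane)) (t := {w : Plane | 0 ≤ ori p q w}) ?_ hconv hw
  · exact this
  · intro z hz
    simp only [mem_insert_iff, mem_singleton_iff] at hz
    rcases hz with rfl | rfl | rfl <;> assumption

open Classical in
/-- The outer edges of any triangulation of a set containing the three corner points have total
length at least the perimeter of their triangle. -/
theorem outer_bound (hT : IsTriangulation S T) (ha : pa ∈ S) (hc : pc ∈ S) (hd : pd ∈ S) :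
    dist pa pc + dist pc pd + dist pd pa ≤ ∑ e ∈ T.filter (fun e => ¬ IsInner S e), len e := by
  set K : Set Plane := convexHull ℝ ({pa, pc, pd} : Set Plane) with hK
  have hsub : ({pa, pc, pd} : Set Plane) ⊆ K := subset_convexHull ℝ _
  have haK : pa ∈ K := hsub (by simp)
  have hcK : pc ∈ K := hsub (by simp)
  have hdK : pd ∈ K := hsub (by simp)
  have hKc : IsCompact K := (Set.toFinite _).isCompact_convexHull ℝ
  have hKconv : Convex ℝ K := convex_convexHull ℝ _
  obtain ⟨π, hπL, hπ⟩ := exists_proj ⟨pa, haK⟩ hKc hKconv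
  have hac : pa ≠ pc := by intro h; have := congrArg (fun z : Plane => z 0) h; simp at this
  have hcd : pc ≠ pd := by intro h; have := congrArg (fun z : Plane => z 0) h; simp at this
  have hda : pd ≠ pa := by
    intro h; have := congrArg (fun z : Plane => z 1) h; simp at this; norm_num at this
  obtain ⟨F1, hF1, hcov1⟩ := hT.cover_side hπ ha hc hac
    (hull_ori (by unfold ori; simp only [pa0, pa1, pc0, pc1, pd0, pd1]; norm_num) (by unfold ori; simp only [pa0, pa1, pc0, pc1, pd0, pd1]; norm_num) (by unfold ori; simp only [pa0, pa1, pc0, pc1, pd0, pd1]; norm_num))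
    (hKconv.segment_subset haK hcK)
  obtain ⟨F2, hF2, hcov2⟩ := hT.cover_side hπ hc hd hcd
    (hull_ori (by unfold ori; simp only [pa0, pa1, pc0, pc1, pd0, pd1]; norm_num) (by unfold ori; simp only [pa0, pa1, pc0, pc1, pd0, pd1]; norm_num) (by unfold ori; simp only [pa0, pa1, pc0, pc1, pd0, pd1]; norm_num))
    (hKconv.segment_subset hcK hdK)
  obtain ⟨F3, hF3, hcov3⟩ := hT.cover_side hπ hd ha hda
    (hull_ori (by unfold ori; simp only [pa0, pa1, pc0, pc1, pd0, pd1]; norm_num) (by unfold ori; simp only [pa0, pa1, pc0, pc1, pd0, pd1]; norm_num) (by unfold ori; simp only [pa0, pa1, pc0, pc1, pd0, pd1]; norm_num))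
    (hKconv.segment_subset hdK haK)
  set U : Set Plane := ⋃ e ∈ {e | e ∈ T ∧ ¬ IsInner S e}, seg e with hU
  have hone : (0 : ℝ) < 1 := one_pos
  have : NullSingletonClass (μH[1] : Measure Plane) :=
    Measure.nullSingletonClass_hausdorff Plane hone
  -- measure of U
  have hlenU : μH[1] U ≤ ENNReal.ofReal (∑ e ∈ T.filter (fun e => ¬ IsInner S e), len e) := by
    have hUeq : U = ⋃ e ∈ T.filter (fun e => ¬ IsInner S e), seg e := by
      rw [hU]; ext z; simp
    rw [hUeq, ENNReal.ofReal_sum_of_nonneg (fun e _ => len_nonneg e)]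
    refine (measure_biUnion_finset_le _ _).trans ?_
    apply Finset.sum_le_sum
    intro e _
    induction e using Sym2.ind with
    | _ x y => rw [seg_mk, len_mk, hausdorffMeasure_segment, edist_dist]
  have himg : μH[1] (π '' U) ≤ μH[1] U := by
    have := hπL.hausdorffMeasure_image_le (d := 1) zero_le_one U
    simpa using this
  -- sides
  have hsides : segment ℝ pa pc ∪ segment ℝ pc pd ∪ segment ℝ pd pa ⊆ π '' U ∪ (F1 ∪ F2 ∪ F3) := by
    rintro x ((hx | hx) | hx)
    · rcases hcov1 hx with h | h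
      · exact Or.inl h
      · exact Or.inr (Or.inl (Or.inl h))
    · rcases hcov2 hx with h | h
      · exact Or.inl h
      · exact Or.inr (Or.inl (Or.inr h))
    · rcases hcov3 hx with h | h
      · exact Or.inl h
      · exact Or.inr (Or.inr h)
  have hF : μH[1] (F1 ∪ F2 ∪ F3 : Set Plane) = 0 := ((hF1.union hF2).union hF3).measure_zero _
  have hle : μH[1] (segment ℝ pa pc ∪ segment ℝ pc pd ∪ segment ℝ pd pa) ≤ μH[1] (π '' U) := by
    calc _ ≤ μH[1] (π '' U ∪ (F1 ∪ F2 ∪ F3)) := measure_mono hsides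
      _ ≤ μH[1] (π '' U) + μH[1] (F1 ∪ F2 ∪ F3 : Set Plane) := measure_union_le _ _
      _ = μH[1] (π '' U) := by rw [hF, add_zero]
  have hmeas : ∀ x y : Plane, MeasurableSet (segment ℝ x y) := fun x y => (isCompact_seg x y).measurableSet
  -- intersections
  have c1 : ∀ z ∈ segment ℝ pa pc, 50 * z 0 - z 1 = 200 := by
    intro z hz
    obtain ⟨t, _, _, rfl⟩ := mem_segment_iff.1 hz
    simp; ring
  have c2 : ∀ z ∈ segment ℝ pc pd, 50 * z 0 + z 1 = 200 := by
    intro z hz
    obtain ⟨t, _, _, rfl⟩ := mem_segment_iff.1 hz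
    simp; ring
  have c3 : ∀ z ∈ segment ℝ pd pa, z 0 = 0 := by
    intro z hz
    obtain ⟨t, _, _, rfl⟩ := mem_segment_iff.1 hz
    simp
  have d1 : AEDisjoint μH[1] (segment ℝ pa pc) (segment ℝ pc pd) := by
    have : segment ℝ pa pc ∩ segment ℝ pc pd ⊆ {pc} := by
      rintro z ⟨h1, h2⟩
      have e1 := c1 z h1
      have e2 := c2 z h2
      apply plane_ext
      · simp; linarith
      · simp; linarith
    exact le_antisymm ((measure_mono this).trans_eq (measure_singleton _)) bot_le
  have d2 : AEDisjoint μH[1] (segment ℝ pa pc ∪ segment ℝ pc pd) (segment ℝ pd pa) := by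
    have : (segment ℝ pa pc ∪ segment ℝ pc pd) ∩ segment ℝ pd pa ⊆ {pa, pd} := by
      rintro z ⟨h1 | h1, h2⟩
      · left
        have e1 := c1 z h1
        have e2 := c3 z h2
        apply plane_ext
        · simp; linarith
        · simp; linarith
      · right
        have e1 := c2 z h1
        have e2 := c3 z h2
        apply plane_ext
        · simp; linarith
        · simp; linarith
    exact le_antisymm ((measure_mono this).trans_eq ((Set.toFinite _).measure_zero _)) bot_le
  have htotal : μH[1] (segment ℝ pa pc ∪ segment ℝ pc pd ∪ segment ℝ pd pa) =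
      ENNReal.ofReal (dist pa pc + dist pc pd + dist pd pa) := by
    rw [measure_union₀ (hmeas _ _).nullMeasurableSet d2, measure_union₀ (hmeas _ _).nullMeasurableSet d1,
      hausdorffMeasure_segment, hausdorffMeasure_segment, hausdorffMeasure_segment, edist_dist,
      edist_dist, edist_dist, ENNReal.ofReal_add (by positivity) dist_nonneg,
      ENNReal.ofReal_add dist_nonneg dist_nonneg]
  rw [htotal] at hle
  have hfin := (hle.trans himg).trans hlenU
  exact (ENNReal.ofReal_le_ofReal_iff (Finset.sum_nonneg (fun e _ => len_nonneg e))).1 hfin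

end Pool.Agent.MWST
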