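import Pool.Agent.MWST.Third

namespace Pool.Agent.MWST

open Set

variable {S : Finset Plane} {T : Finset (Sym2 Plane)}

/-- The four points of the example. -/
noncomputable def pa : Plane := !₂[0, -200]
noncomputable def pb : Plane := !₂[1, 0]
noncomputable def pc : Plane := !₂[4, 0]
noncomputable def pd : Plane := !₂[0, 200]

@[simp] lemma pa0 : pa 0 = 0 := by simp [pa]
@[simp] lemma pa1 : pa 1 = -200 := by simp [pa]
@[simp] lemma pb0 : pb 0 = 1 := by simp [pb]
@[simp] lemma pb1 : pb 1 = 0 := by simp [pb]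
@[simp] lemma pc0 : pc 0 = 4 := by simp [pc]
@[simp] lemma pc1 : pc 1 = 0 := by simp [pc]
@[simp] lemma pd0 : pd 0 = 0 := by simp [pd]
@[simp] lemma pd1 : pd 1 = 200 := by simp [pd]

lemma mem_interval {p q : Plane} {t : ℝ} (h1 : p 0 < t) (h2 : t < q 0) :
    t ∈ Ioo (lo 0 s(p, q)) (hi 0 s(p, q)) := by
  constructor
  · simp only [lo_mk]; exact (min_le_left _ _).trans_lt h1
  · simp only [hi_mk]; exact h2.trans_le (le_max_right _ _)

open Classical in
/-- The inner edges of any triangulation of a set containing the four points have total length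
more than `13`. -/
theorem inner_bound (hT : IsTriangulation S T) (ha : pa ∈ S) (hb : pb ∈ S) (hc : pc ∈ S)
    (hd : pd ∈ S) : 13 < ∑ e ∈ T.filter (IsInner S), len e := by
  by_contra hcon
  push Not at hcon
  have hE := hT.prop
  set M := T.filter (IsInner S) with hM
  have hnc : ∀ p ∈ S, ∀ q ∈ S, p ≠ q → ∃ z ∈ S, ori p q z ≠ 0 := by
    intro p _ q _ hpq
    by_contra h
    push Not at h
    have h1 := h pa ha
    have h2 := h pc hc
    have h3 := h pd hd
    unfold ori at h1 h2 h3
    simp only [pa0, pa1, pc0, pc1, pd0, pd1] at h1 h2 h3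
    apply hpq
    have e0 : q 0 - p 0 = 0 := by linarith
    have e1 : q 1 - p 1 = 0 := by nlinarith
    apply plane_ext <;> linarith
  -- free levels
  obtain ⟨s, ⟨hs0, hs14⟩, hsX, hsfree⟩ := exists_free M (α := 0) (β := 14)
    (S.image (fun z => z 1)) (by linarith)
  obtain ⟨s', ⟨hs'0, hs'14⟩, hs'X, hs'free⟩ := exists_free M (α := -14) (β := 0)
    (S.image (fun z => z 1)) (by linarith)
  -- top corner
  obtain ⟨u, v, hdu, hdv, huv, hD, hallu, hallv, hempT, hus, hvs⟩ := hT.corner 0 1 s
    (by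
      intro z hz h
      apply hsX
      rw [Finset.mem_image]
      exact ⟨z, hz, by linarith⟩) hnc
    (by
      intro p q hpq h1 h2 hsep
      apply hsfree s(p, q) (Finset.mem_filter.2 ⟨hpq, hsep⟩)
      constructor
      · simp only [lo_mk]; exact (min_le_left _ _).trans (by linarith)
      · simp only [hi_mk]; exact le_trans (by linarith) (le_max_right _ _))
    (x1 := pb) (x2 := pc) (D := pd) hb hc
    (by intro h; have := congrArg (fun z : Plane => z 0) h; simp at this)
    (by simp; exact hs0) (by simp; exact hs0) hd (by simp; linarith)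
  -- bottom corner
  obtain ⟨v', u', hav', hau', hvu', hD', hallv', hallu', hempB, hv's, hu's⟩ :=
    hT.corner 0 (-1) (-s')
    (by
      intro z hz h
      apply hs'X
      rw [Finset.mem_image]
      exact ⟨z, hz, by linarith⟩) hnc
    (by
      intro p q hpq h1 h2 hsep
      apply hs'free s(p, q) (Finset.mem_filter.2 ⟨hpq, hsep⟩)
      constructor
      · simp only [lo_mk]; exact (min_le_right _ _).trans (by linarith)
      · simp only [hi_mk]; exact le_trans (by linarith) (le_max_left _ _))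
    (x1 := pb) (x2 := pc) (D := pa) hb hc
    (by intro h; have := congrArg (fun z : Plane => z 0) h; simp at this)
    (by simp; exact hs'14) (by simp; exact hs'14) ha (by simp; linarith)
  -- coordinates
  have hu0 : u 0 ≤ 0 := by
    have h := hallu pa ha
    unfold ori at h; simp only [pa0, pa1, pd0, pd1] at h; linarith
  have hv0 : 3.72 < v 0 := by
    have h := hallv pc hc
    unfold ori at h; simp only [pc0, pc1, pd0, pd1] at h
    have h2 : v 1 < 14 := by linarith
    nlinarith
  have hu'0 : u' 0 ≤ 0 := by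
    have h := hallu' pd hd
    unfold ori at h; simp only [pa0, pa1, pd0, pd1] at h; linarith
  have hv'0 : 3.72 < v' 0 := by
    have h := hallv' pc hc
    unfold ori at h; simp only [pa0, pa1, pc0, pc1] at h
    have h2 : -14 < v' 1 := by linarith
    nlinarith
  -- b is strictly between the two shields
  have below : ∀ x ∈ S, x ≠ pd → x ≠ u → x ≠ v → ori u v x < 0 := by
    intro x hx h1 h2 h3
    by_contra h
    push Not at h
    rcases hempT x hx h with h' | h' | h'
    · exact h1 h'
    · exact h2 h'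
    · exact h3 h'
  have above : ∀ x ∈ S, x ≠ pa → x ≠ u' → x ≠ v' → 0 < ori u' v' x := by
    intro x hx h1 h2 h3
    by_contra h
    push Not at h
    rcases hempB x hx (by rw [ori_swap]; linarith) with h' | h' | h'
    · exact h1 h'
    · exact h3 h'
    · exact h2 h'
  have ne_of_x : ∀ x y : Plane, x 0 ≠ y 0 → x ≠ y := by
    intro x y h h'; exact h (by rw [h'])
  have hbuv : ori u v pb < 0 := by
    apply below pb hb
    · apply ne_of_x; simp
    · apply ne_of_x; simp only [pb0]; intro h; linarith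
    · apply ne_of_x; simp only [pb0]; intro h; linarith
  have hbuv' : 0 < ori u' v' pb := by
    apply above pb hb
    · apply ne_of_x; simp
    · apply ne_of_x; simp only [pb0]; intro h; linarith
    · apply ne_of_x; simp only [pb0]; intro h; linarith
  have huv'T : s(u', v') ∈ T := by rwa [Sym2.eq_swap]
  -- membership in M
  have huvM : s(u, v) ∈ M := by
    refine Finset.mem_filter.2 ⟨huv, ?_⟩
    exact ⟨⟨pd, hd, by rw [ori_rot]; exact hD⟩, ⟨pb, hb, hbuv⟩⟩
  have huv'M : s(u', v') ∈ M := by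
    refine Finset.mem_filter.2 ⟨huv'T, ?_⟩
    refine ⟨⟨pb, hb, hbuv'⟩, ⟨pa, ha, ?_⟩⟩
    have : ori u' v' pa = - ori pa v' u' := by unfold ori; ring
    rw [this]; linarith
  have hneuv : s(u, v) ≠ s(u', v') := by
    intro heq
    rcases Sym2.eq_iff.1 heq with ⟨rfl, rfl⟩ | ⟨rfl, rfl⟩
    · linarith
    · linarith
  set m := min (v 0) (v' 0) with hm
  have hmv : m ≤ v 0 := min_le_left _ _
  have hmv' : m ≤ v' 0 := min_le_right _ _
  have hm3 : 3.72 < m := lt_min hv0 hv'0
  -- third edges
  obtain ⟨z, hzS, hzu, hzv, huz, hzvT, ⟨hsl1, hsl2⟩, hthird⟩ := hT.third (Or.inl rfl : (1:ℝ) = 1 ∨ (1:ℝ) = -1)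
    (m := m) (u := u) (v := v) (u' := u') (v' := v') (b := pb) huv huv'T hu0 hu'0 hmv hmv' hb
    (by simp) (by simp; linarith) (by rw [one_mul, ori_swap]; linarith) (by rw [one_mul]; exact hbuv')
  obtain ⟨z', hz'S, hzu', hzv', huz', hzvT', ⟨hsl1', hsl2'⟩, hthird'⟩ :=
    hT.third (Or.inr rfl : (-1:ℝ) = 1 ∨ (-1:ℝ) = -1)
    (m := m) (u := u') (v := v') (u' := u) (v' := v) (b := pb) huv'T huv hu'0 hu0 hmv' hmv hb
    (by simp) (by simp; linarith) (by rw [ori_swap]; linarith) (by linarith)
  simp only [pb0] at hsl1 hsl2 hsl1' hsl2'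
  -- three edges everywhere
  have hf : ∀ t, 0 < t → t < m → (∀ x ∈ S, x 0 ≠ t) → ∃ f ∈ M, t ∈ Ioo (lo 0 f) (hi 0 f) ∧
      f ≠ s(u, v) ∧ f ≠ s(u', v') ∧ ((z 0 < t ∧ f = s(z, v)) ∨ (t < z 0 ∧ f = s(u, z))) := by
    intro t ht0 htm hgen
    rcases hthird t ht0 htm hgen with ⟨h1, h2, h3⟩ | ⟨h1, h2, h3⟩
    · refine ⟨s(z, v), Finset.mem_filter.2 ⟨hzvT, h2⟩, mem_interval h1 (by linarith), ?_, h3,
        Or.inl ⟨h1, rfl⟩⟩
      intro heq
      rcases Sym2.eq_iff.1 heq with ⟨h, _⟩ | ⟨h, _⟩
      · exact hzu h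
      · exact hzv h
    · refine ⟨s(u, z), Finset.mem_filter.2 ⟨huz, h2⟩, mem_interval (by linarith) h1, ?_, h3,
        Or.inr ⟨h1, rfl⟩⟩
      intro heq
      rcases Sym2.eq_iff.1 heq with ⟨_, h⟩ | ⟨_, h⟩
      · exact hzv h
      · exact hzu h
  have hf' : ∀ t, 0 < t → t < m → (∀ x ∈ S, x 0 ≠ t) → ∃ f ∈ M, t ∈ Ioo (lo 0 f) (hi 0 f) ∧
      f ≠ s(u, v) ∧ f ≠ s(u', v') ∧ ((z' 0 < t ∧ f = s(z', v')) ∨ (t < z' 0 ∧ f = s(u', z'))) := by
    intro t ht0 htm hgen
    rcases hthird' t ht0 htm hgen with ⟨h1, h2, h3⟩ | ⟨h1, h2, h3⟩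
    · refine ⟨s(z', v'), Finset.mem_filter.2 ⟨hzvT', h2⟩, mem_interval h1 (by linarith), h3, ?_,
        Or.inl ⟨h1, rfl⟩⟩
      intro heq
      rcases Sym2.eq_iff.1 heq with ⟨h, _⟩ | ⟨h, _⟩
      · exact hzu' h
      · exact hzv' h
    · refine ⟨s(u', z'), Finset.mem_filter.2 ⟨huz', h2⟩, mem_interval (by linarith) h1, h3, ?_,
        Or.inr ⟨h1, rfl⟩⟩
      intro heq
      rcases Sym2.eq_iff.1 heq with ⟨_, h⟩ | ⟨_, h⟩
      · exact hzv' h
      · exact hzu' h
  -- when the two third edges coincide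
  have hcoin : ∀ t, 0 < t → t < m → ∀ f, 
      ((z 0 < t ∧ f = s(z, v)) ∨ (t < z 0 ∧ f = s(u, z))) →
      ((z' 0 < t ∧ f = s(z', v')) ∨ (t < z' 0 ∧ f = s(u', z'))) →
      (t < 1 → u = u') ∧ (1 < t → v = v') := by
    intro t ht0 htm f h1 h2
    rcases h1 with ⟨hz, rfl⟩ | ⟨hz, rfl⟩ <;> rcases h2 with ⟨hz', heq⟩ | ⟨hz', heq⟩
    · rcases Sym2.eq_iff.1 heq with ⟨e1, e2⟩ | ⟨e1, e2⟩
      · refine ⟨fun ht => ?_, fun _ => e2⟩
        exfalso
        have k1 := hsl1 (by linarith)
        have k2 := hsl1' (by linarith)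
        rw [← e1, ← e2] at k2
        linarith
      · exfalso; rw [e1] at hz; linarith
    · rcases Sym2.eq_iff.1 heq with ⟨e1, e2⟩ | ⟨e1, e2⟩
      · exfalso
        have k1 := hsl1 (by rw [e1]; linarith)
        have k2 := hsl2' (by rw [← e2]; linarith)
        rw [← e1, ← e2] at k2
        linarith
      · exfalso; rw [e2] at hv0; linarith
    · rcases Sym2.eq_iff.1 heq with ⟨e1, e2⟩ | ⟨e1, e2⟩
      · exfalso
        have k1 := hsl2 (by rw [e2]; linarith)
        have k2 := hsl1' (by rw [← e1]; linarith)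
        rw [← e1, ← e2] at k2
        linarith
      · exfalso; rw [e1] at hu0; linarith
    · rcases Sym2.eq_iff.1 heq with ⟨e1, e2⟩ | ⟨e1, e2⟩
      · refine ⟨fun _ => e1, fun ht => ?_⟩
        exfalso
        have k1 := hsl2 (by linarith)
        have k2 := hsl2' (by linarith)
        rw [← e1, ← e2] at k2
        linarith
      · exfalso; rw [e2] at hz; linarith
  -- packing
  have pack3 : ∀ t, 0 < t → t < m → t ∉ S.image (fun z => z 0) →
      ∃ r : Finset (Sym2 Plane), r ⊆ M ∧ 3 ≤ r.card ∧ ∀ e ∈ r, t ∈ Ioo (lo 0 e) (hi 0 e) := by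
    intro t ht0 htm hX
    have hgen : ∀ x ∈ S, x 0 ≠ t := by
      intro x hx h; apply hX; rw [Finset.mem_image]; exact ⟨x, hx, h⟩
    obtain ⟨f, hfM, hft, hf1, hf2, _⟩ := hf t ht0 htm hgen
    refine ⟨{s(u, v), s(u', v'), f}, ?_, ?_, ?_⟩
    · intro e he
      simp only [Finset.mem_insert, Finset.mem_singleton] at he
      rcases he with rfl | rfl | rfl
      · exact huvM
      · exact huv'M
      · exact hfM
    · rw [Finset.card_eq_three.2 ⟨s(u, v), s(u', v'), f, hneuv, hf1.symm, hf2.symm, rfl⟩]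
    · intro e he
      simp only [Finset.mem_insert, Finset.mem_singleton] at he
      rcases he with rfl | rfl | rfl
      · exact mem_interval (by linarith) (by linarith)
      · exact mem_interval (by linarith) (by linarith)
      · exact hft
  have pack4 : ∀ t, 0 < t → t < m → t ∉ S.image (fun z => z 0) →
      ((t < 1 ∧ u ≠ u') ∨ (1 < t ∧ v ≠ v')) →
      ∃ r : Finset (Sym2 Plane), r ⊆ M ∧ 4 ≤ r.card ∧ ∀ e ∈ r, t ∈ Ioo (lo 0 e) (hi 0 e) := by
    intro t ht0 htm hX hcase
    have hgen : ∀ x ∈ S, x 0 ≠ t := by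
      intro x hx h; apply hX; rw [Finset.mem_image]; exact ⟨x, hx, h⟩
    obtain ⟨f, hfM, hft, hf1, hf2, hf3⟩ := hf t ht0 htm hgen
    obtain ⟨f', hfM', hft', hf1', hf2', hf3'⟩ := hf' t ht0 htm hgen
    have hne : f ≠ f' := by
      rintro rfl
      have := hcoin t ht0 htm f hf3 hf3'
      rcases hcase with ⟨h1, h2⟩ | ⟨h1, h2⟩
      · exact h2 (this.1 h1)
      · exact h2 (this.2 h1)
    refine ⟨{s(u, v), s(u', v'), f, f'}, ?_, ?_, ?_⟩
    · intro e he
      simp only [Finset.mem_insert, Finset.mem_singleton] at he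
      rcases he with rfl | rfl | rfl | rfl
      · exact huvM
      · exact huv'M
      · exact hfM
      · exact hfM'
    · rw [Finset.card_insert_of_notMem, Finset.card_eq_three.2 ⟨s(u', v'), f, f', hf2.symm, hf2'.symm, hne, rfl⟩]
      simp only [Finset.mem_insert, Finset.mem_singleton, not_or]
      exact ⟨hneuv, hf1.symm, hf1'.symm⟩
    · intro e he
      simp only [Finset.mem_insert, Finset.mem_singleton] at he
      rcases he with rfl | rfl | rfl | rfl
      · exact mem_interval (by linarith) (by linarith)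
      · exact mem_interval (by linarith) (by linarith)
      · exact hft
      · exact hft'
  have hle : ∑ e ∈ M, (hi 0 e - lo 0 e) ≤ ∑ e ∈ M, len e :=
    Finset.sum_le_sum (fun e _ => hi_sub_lo 0 e)
  by_cases hvv : v = v'
  · -- case A
    have huu : u ≠ u' := by
      rintro rfl
      rw [← hvv] at hbuv'
      linarith
    have hcount := count_two M 4 3 (β := 1) (γ := m) (by norm_num) (by linarith)
      (S.image (fun z => z 0))
      (fun t ht hX => pack4 t ht.1 (by linarith [ht.2]) hX (Or.inl ⟨ht.2, huu⟩))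
      (fun t ht hX => pack3 t (by linarith [ht.1]) ht.2 hX)
    have hv4 : 4 ≤ v 0 := by
      by_contra h4
      push Not at h4
      have hc1 : ori u v pc < 0 := by
        apply below pc hc
        · apply ne_of_x; simp
        · apply ne_of_x; simp only [pc0]; intro h; linarith
        · apply ne_of_x; simp only [pc0]; intro h; linarith
      have hc2 : 0 < ori u' v' pc := by
        apply above pc hc
        · apply ne_of_x; simp
        · apply ne_of_x; simp only [pc0]; intro h; linarith
        · apply ne_of_x; simp only [pc0]; intro h; rw [← hvv] at h; linarith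
      rw [← hvv] at hc2 hbuv'
      set K := -(v 0 - u' 0) * (v 1 - u 1) + (v 0 - u 0) * (v 1 - u' 1) with hK
      have ident : ∀ x : Plane, (v 0 - u' 0) * ori u v x - (v 0 - u 0) * ori u' v x = K * (x 0 - v 0) := by
        intro x; rw [hK]; unfold ori; ring
      have i1 := ident pb
      have i2 := ident pc
      simp only [pb0, pc0] at i1 i2
      have p1 : 0 < v 0 - u' 0 := by linarith
      have p2 : 0 < v 0 - u 0 := by linarith
      have q1 : (v 0 - u' 0) * ori u v pb < 0 := mul_neg_of_pos_of_neg p1 hbuv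
      have q2 : 0 < (v 0 - u 0) * ori u' v pb := mul_pos p2 hbuv'
      have q3 : (v 0 - u' 0) * ori u v pc < 0 := mul_neg_of_pos_of_neg p1 hc1
      have q4 : 0 < (v 0 - u 0) * ori u' v pc := mul_pos p2 hc2
      have r1 : K * (1 - v 0) < 0 := by linarith
      have r2 : K * (4 - v 0) < 0 := by linarith
      have hKpos : 0 < K := by
        by_contra h
        push Not at h
        have : 0 ≤ K * (1 - v 0) := mul_nonneg_of_nonpos_of_nonpos h (by linarith)
        linarith
      have : 0 < K * (4 - v 0) := mul_pos hKpos (by linarith)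
      linarith
    have hmeq : m = v 0 := by rw [hm, ← hvv, min_self]
    have hstrict : ∑ e ∈ M, (hi 0 e - lo 0 e) < ∑ e ∈ M, len e := by
      by_cases h1 : u 1 = v 1
      · have h2 : u' 1 ≠ v' 1 := by
          intro h2
          rw [← hvv] at h2 hbuv'
          unfold ori at hbuv hbuv'
          simp only [pb0, pb1] at hbuv hbuv'
          rw [h1] at hbuv
          rw [h2] at hbuv'
          have k1 : 0 < v 1 := by
            by_contra h
            push Not at h
            have : 0 ≤ (v 0 - u 0) * (0 - v 1) := mul_nonneg (by linarith) (by linarith)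
            linarith
          have k2 : (v 0 - u' 0) * (0 - v 1) ≤ 0 :=
            mul_nonpos_of_nonneg_of_nonpos (by linarith) (by linarith)
          linarith
        exact Finset.sum_lt_sum (fun e _ => hi_sub_lo 0 e) ⟨s(u', v'), huv'M, hi_sub_lo_lt h2⟩
      · exact Finset.sum_lt_sum (fun e _ => hi_sub_lo 0 e) ⟨s(u, v), huvM, hi_sub_lo_lt h1⟩
    rw [hmeq] at hcount
    push_cast at hcount
    linarith
  · -- case B
    have hcount := count_two M 3 4 (β := 1) (γ := m) (by norm_num) (by linarith)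
      (S.image (fun z => z 0))
      (fun t ht hX => pack3 t ht.1 (by linarith [ht.2]) hX)
      (fun t ht hX => pack4 t (by linarith [ht.1]) ht.2 hX (Or.inr ⟨ht.1, hvv⟩))
    push_cast at hcount
    linarith

end Pool.Agent.MWST
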