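import Pool.Agent.MWST.Visible

namespace Pool.Agent.MWST

open Set

lemma sq_dist_pos {v m : Plane} (h : v ≠ m) : 0 < (m 0 - v 0) ^ 2 + (m 1 - v 1) ^ 2 := by
  by_contra hcon
  push Not at hcon
  apply h
  have h0 : (m 0 - v 0) ^ 2 = 0 := by nlinarith [sq_nonneg (m 0 - v 0), sq_nonneg (m 1 - v 1)]
  have h1 : (m 1 - v 1) ^ 2 = 0 := by nlinarith [sq_nonneg (m 0 - v 0), sq_nonneg (m 1 - v 1)]
  apply plane_ext
  · have := pow_eq_zero_iff (two_ne_zero) |>.1 h0; linarith
  · have := pow_eq_zero_iff (two_ne_zero) |>.1 h1; linarith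

lemma exists_ray_param {v m p : Plane} (h : ori v m p = 0) (hvm : v ≠ m) : ∃ α : ℝ, p = pt v m α := by
  have hpos := sq_dist_pos hvm
  unfold ori at h
  refine ⟨((m 0 - v 0) * (p 0 - v 0) + (m 1 - v 1) * (p 1 - v 1)) / ((m 0 - v 0) ^ 2 + (m 1 - v 1) ^ 2), ?_⟩
  apply plane_ext
  · simp only [pt_zero]
    field_simp
    linear_combination (-(m 1 - v 1)) * h
  · simp only [pt_one]
    field_simp
    linear_combination (m 0 - v 0) * h

lemma pt_pt (v m : Plane) (a b t : ℝ) : pt (pt v m a) (pt v m b) t = pt v m ((1 - t) * a + t * b) := by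
  apply plane_ext <;> simp <;> ring

variable {S : Finset Plane} {T : Finset (Sym2 Plane)}

/-- The sector lemma: if nothing is hit on the half-open segment `[v, m)` and `m` is a point (not
in `S`) of an edge `p q`, then there is an edge from `v` into the sector between `v m` and
`v p`. -/
lemma IsTriangulation.sector (hT : IsTriangulation S T) {v m p q : Plane} (hv : v ∈ S)
    (hm : m ∉ S) (hpq : s(p, q) ∈ T) (hvp : v ≠ p) (hvq : v ≠ q) (hmpq : m ∈ segment ℝ p q)
    (noS : ∀ z ∈ S, z ∈ segment ℝ v m → z = v)
    (noT : ∀ r x, s(r, x) ∈ T → ∀ z ∈ segment ℝ v m, z ∈ segment ℝ r x → z = v ∨ z = m) :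
    ∃ y, s(v, y) ∈ T ∧ ∃ A G : ℝ, 0 ≤ A ∧ 0 < G ∧ y 0 = v 0 + A * (m 0 - v 0) + G * (p 0 - v 0) ∧
      y 1 = v 1 + A * (m 1 - v 1) + G * (p 1 - v 1) := by
  classical
  have hE := hT.prop
  have hvm : v ≠ m := by rintro rfl; exact hm hv
  have hpS := hE.left_mem hpq
  have hqS := hE.right_mem hpq
  have hmp : m ≠ p := by rintro rfl; exact hm hpS
  have hmq : m ≠ q := by rintro rfl; exact hm hqS
  obtain ⟨t0, ht00, ht01, hmt⟩ := mem_segment_iff.1 hmpq
  have ht0pos : 0 < t0 := by
    rcases ht00.lt_or_eq with h | h
    · exact h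
    · subst h; rw [pt_eq_left] at hmt; exact absurd hmt hmp
  have ht0lt : t0 < 1 := by
    rcases ht01.lt_or_eq with h | h
    · exact h
    · subst h; rw [pt_eq_right] at hmt; exact absurd hmt hmq
  -- non-collinearity
  have hD : ori v m p ≠ 0 := by
    intro hD
    obtain ⟨α, hα⟩ := exists_ray_param hD hvm
    have hDq : ori v m q = 0 := by
      have h1 : ori v m m = (1 - t0) * ori v m p + t0 * ori v m q := by
        have h := ori_pt v m p q t0
        rw [← hmt] at h
        exact h
      rw [ori_self, hD] at h1
      have h2 : t0 * ori v m q = 0 := by linarith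
      rcases mul_eq_zero.1 h2 with h | h
      · exact absurd h ht0pos.ne'
      · exact h
    obtain ⟨β, hβ⟩ := exists_ray_param hDq hvm
    have hαn : ¬ (0 ≤ α ∧ α ≤ 1) := by
      rintro ⟨h0, h1⟩
      exact hvp (noS p hpS (by rw [hα]; exact pt_mem h0 h1)).symm
    have hβn : ¬ (0 ≤ β ∧ β ≤ 1) := by
      rintro ⟨h0, h1⟩
      exact hvq (noS q hqS (by rw [hβ]; exact pt_mem h0 h1)).symm
    have hcomb : (1 - t0) * α + t0 * β = 1 := by
      have h1 : m = pt v m ((1 - t0) * α + t0 * β) := by
        rw [← pt_pt, ← hα, ← hβ]; exact hmt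
      have e0 : m 0 = (pt v m ((1 - t0) * α + t0 * β)) 0 := by rw [← h1]
      have e1 : m 1 = (pt v m ((1 - t0) * α + t0 * β)) 1 := by rw [← h1]
      simp only [pt_zero, pt_one] at e0 e1
      set c := (1 - t0) * α + t0 * β with hc
      have f0 : (1 - c) * (m 0 - v 0) = 0 := by linarith
      have f1 : (1 - c) * (m 1 - v 1) = 0 := by linarith
      have hpos := sq_dist_pos hvm
      rcases mul_eq_zero.1 f0 with h | h
      · linarith
      rcases mul_eq_zero.1 f1 with h' | h'
      · linarith
      · rw [h, h'] at hpos; norm_num at hpos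
    -- v lies between p and q
    have hvmem : v ∈ segment ℝ p q := by
      by_cases hα0 : α < 0
      · have hβ1 : 1 < β := by
          by_contra hcon
          push Not at hcon
          nlinarith
        have : v = pt p q ((-α) / (β - α)) := by
          rw [hα, hβ, pt_pt]
          have : (1 - -α / (β - α)) * α + -α / (β - α) * β = 0 := by
            field_simp [show β - α ≠ 0 by linarith]
            ring
          rw [this, pt_eq_left]
        rw [this]
        apply pt_mem
        · apply div_nonneg <;> linarith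
        · rw [div_le_one (by linarith)]; linarith
      · push Not at hα0
        have hα1 : 1 < α := by
          by_contra hcon
          push Not at hcon
          exact hαn ⟨hα0, hcon⟩
        have hβ0 : β < 0 := by
          by_contra hcon
          push Not at hcon
          have : 1 < β := by
            by_contra h
            push Not at h
            exact hβn ⟨hcon, h⟩
          nlinarith
        have : v = pt p q (α / (α - β)) := by
          rw [hα, hβ, pt_pt]
          have : (1 - α / (α - β)) * α + α / (α - β) * β = 0 := by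
            field_simp [show α - β ≠ 0 by linarith]
            ring
          rw [this, pt_eq_left]
        rw [this]
        apply pt_mem
        · apply div_nonneg <;> linarith
        · rw [div_le_one (by linarith)]; linarith
    rcases hE.only hpq hv hvmem with h | h
    · exact hvp h
    · exact hvq h
  -- coordinates
  set A : Plane → ℝ := fun z => cA v m p z with hA
  set G : Plane → ℝ := fun z => cG v m p z with hG
  have Am : A m = 1 := cA_p hD
  have Gm : G m = 0 := cG_p v m p
  have Ap : A p = 0 := cA_q v m p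
  have Gp : G p = 1 := cG_q hD
  have Av : A v = 0 := cA_o v m p
  have Gv : G v = 0 := cG_o v m p
  have Apt : ∀ x y t, A (pt x y t) = (1 - t) * A x + t * A y := fun x y t => cA_pt v m p x y t
  have Gpt : ∀ x y t, G (pt x y t) = (1 - t) * G x + t * G y := fun x y t => cG_pt v m p x y t
  have ext : ∀ z w, A z = A w → G z = G w → z = w := fun z w h1 h2 => frame_ext hD h1 h2
  -- coordinates of q : A + G = 1 and G q < 0
  have hAq : (1 - t0) * A p + t0 * A q = 1 := by rw [← Apt, ← hmt, Am]
  have hGq : (1 - t0) * G p + t0 * G q = 0 := by rw [← Gpt, ← hmt, Gm]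
  have hGq0 : G q < 0 := by
    rw [Gp] at hGq
    by_contra hcon
    push Not at hcon
    nlinarith
  have hρq : A q + G q = 1 := by
    rw [Ap] at hAq; rw [Gp] at hGq
    have : t0 * (A q + G q - 1) = 0 := by linarith
    rcases mul_eq_zero.1 this with h | h
    · exact absurd h ht0pos.ne'
    · linarith
  -- points on the line p q have A + G = 1
  have hline : ∀ z ∈ segment ℝ p q, A z + G z = 1 := by
    intro z hz
    obtain ⟨t, _, _, rfl⟩ := mem_segment_iff.1 hz
    rw [Apt, Gpt, Ap, Gp]
    linear_combination t * hρq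
  -- the candidate set
  set Y : Finset Plane := S.filter (fun z => z ≠ v ∧ 0 ≤ A z ∧ 0 ≤ G z ∧ A z + G z ≤ 1) with hY
  have hpY : p ∈ Y := by
    simp only [hY, Finset.mem_filter]
    refine ⟨hpS, hvp.symm, ?_, ?_, ?_⟩ <;> simp [Ap, Gp]
  obtain ⟨y, hyY, hymin⟩ := Finset.exists_min_image Y
    (fun z => toLex (G z / (A z + G z), A z + G z)) ⟨p, hpY⟩
  have hmin : ∀ z ∈ Y, G y / (A y + G y) < G z / (A z + G z) ∨
      (G y / (A y + G y) = G z / (A z + G z) ∧ A y + G y ≤ A z + G z) := by
    intro z hz
    have := hymin z hz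
    rw [Prod.Lex.toLex_le_toLex] at this
    exact this
  have hyS : y ∈ S := (Finset.mem_filter.1 hyY).1
  obtain ⟨hyv, hAy, hGy, hρy⟩ := (Finset.mem_filter.1 hyY).2
  have ρpos : ∀ z, z ≠ v → 0 ≤ A z → 0 ≤ G z → 0 < A z + G z := by
    intro z hz h1 h2
    rcases (add_nonneg h1 h2).lt_or_eq with h | h
    · exact h
    · exfalso
      apply hz
      apply ext
      · rw [Av]; linarith
      · rw [Gv]; linarith
  have hρy0 := ρpos y hyv hAy hGy
  -- G y > 0
  have onray : ∀ z, G z = 0 → 0 ≤ A z → A z ≤ 1 → z ∈ segment ℝ v m := by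
    intro z h1 h2 h3
    have : z = pt v m (A z) := by
      apply ext
      · rw [Apt, Av, Am]; ring
      · rw [Gpt, Gv, Gm, h1]; ring
    rw [this]; exact pt_mem h2 h3
  have hGy0 : 0 < G y := by
    rcases hGy.lt_or_eq with h | h
    · exact h
    · exfalso
      exact hyv (noS y hyS (onray y h.symm hAy (by linarith)))
  refine ⟨y, ?_, A y, G y, hAy, hGy0, frame0 hD y, frame1 hD y⟩
  -- emptiness of the open segment
  have hemp : ∀ z ∈ S, z ∈ segment ℝ v y → z = v ∨ z = y := by
    intro z hz hzs
    by_cases hzv : z = v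
    · exact Or.inl hzv
    right
    obtain ⟨t, ht0', ht1, rfl⟩ := exists_ratio hzs hzv
    rcases ht1.lt_or_eq with ht1' | ht1'
    · exfalso
      have eA : A (pt v y t) = t * A y := by rw [Apt, Av]; ring
      have eG : G (pt v y t) = t * G y := by rw [Gpt, Gv]; ring
      have hmem : pt v y t ∈ Y := by
        simp only [hY, Finset.mem_filter]
        refine ⟨hz, hzv, ?_, ?_, ?_⟩
        · rw [eA]; positivity
        · rw [eG]; positivity
        · rw [eA, eG]; nlinarith
      have hratio : G (pt v y t) / (A (pt v y t) + G (pt v y t)) = G y / (A y + G y) := by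
        rw [eA, eG]
        rw [show t * A y + t * G y = t * (A y + G y) by ring]
        rw [mul_div_mul_left _ _ ht0'.ne']
      rcases hmin _ hmem with h | ⟨_, h⟩
      · rw [hratio] at h; exact lt_irrefl _ h
      · rw [eA, eG] at h; nlinarith
    · rw [ht1']; exact pt_eq_right
  apply hT.mem_of_free hv hyS hyv.symm hemp
  intro g1 g2 hg hne k hk1 hk2
  by_contra hcon
  push Not at hcon
  obtain ⟨hkv, hky⟩ := hcon
  obtain ⟨κ, hκ0, hκ1, rfl⟩ := exists_ratio hk1 hkv
  have hκlt : κ < 1 := by
    rcases hκ1.lt_or_eq with h | h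
    · exact h
    · subst h; exact absurd pt_eq_right hky
  have eA : A (pt v y κ) = κ * A y := by rw [Apt, Av]; ring
  have eG : G (pt v y κ) = κ * G y := by rw [Gpt, Gv]; ring
  -- auxiliary functional
  set H : Plane → ℝ := fun z => A z * G y - G z * A y with hH
  have Hpt : ∀ x z t, H (pt x z t) = (1 - t) * H x + t * H z := by
    intro x z t; simp only [hH]; rw [Apt, Gpt]; ring
  have Hk : H (pt v y κ) = 0 := by simp only [hH]; rw [eA, eG]; ring
  -- key : an edge `g` through k with an endpoint `a` with H a > 0 is impossible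
  have key : ∀ a b, s(a, b) ∈ T → pt v y κ ∈ segment ℝ a b → 0 < H a → False := by
    intro a b hab hkab hHa
    have haS := hE.left_mem hab
    set k := pt v y κ with hkdef
    -- a is outside the triangle
    have hout : G a < 0 ∨ 1 - (A a + G a) < 0 := by
      by_contra hcon
      push Not at hcon
      obtain ⟨hGa, hρa⟩ := hcon
      have hAa : 0 < A a := by
        by_contra hneg
        push Not at hneg
        simp only [hH] at hHa
        nlinarith
      have hav : a ≠ v := by rintro rfl; rw [Av] at hAa; exact lt_irrefl _ hAa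
      have haY : a ∈ Y := by
        simp only [hY, Finset.mem_filter]
        exact ⟨haS, hav, hAa.le, hGa, by linarith⟩
      have hlt : G a / (A a + G a) < G y / (A y + G y) := by
        rw [div_lt_div_iff₀ (by linarith) hρy0]
        simp only [hH] at hHa
        nlinarith
      rcases hmin a haY with h | ⟨h, _⟩
      · exact lt_asymm h hlt
      · rw [h] at hlt; exact lt_irrefl _ hlt
    have hρk : A k + G k < 1 := by rw [eA, eG]; nlinarith
    obtain ⟨t, ht0', ht1', hr⟩ := exit2 (φ := fun t => G (pt k a t))
      (ψ := fun t => 1 - (A (pt k a t) + G (pt k a t)))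
      (by simp only [Gpt]; fun_prop) (by simp only [Gpt, Apt]; fun_prop)
      (by simp only [Gpt]; rw [eG]; simp; positivity)
      (by simp only [Gpt, Apt]; simp; linarith)
      (by simp only [pt_eq_right]; exact hout)
    set r := pt k a t with hrdef
    have hHr : 0 < H r := by
      rw [hrdef, Hpt, Hk]
      have : 0 < t * H a := mul_pos ht0' hHa
      linarith
    -- r on the edge a b
    have hrab : r ∈ segment ℝ a b := by
      have hseg : segment ℝ k a ⊆ segment ℝ a b :=
        (convex_segment a b).segment_subset hkab (left_mem_segment ℝ a b)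
      exact hseg (pt_mem ht0'.le ht1')
    have hne2 : s(a, b) ≠ s(p, q) := by
      intro heq
      have : k ∈ segment ℝ p q := by
        have h := hkab
        rw [← seg_mk, heq, seg_mk] at h
        exact h
      have := hline k this
      linarith
    rcases hr with ⟨h1, h2⟩ | ⟨h1, h2⟩
    · -- on the ray v m
      have hAr : 0 < A r := by
        by_contra hneg
        push Not at hneg
        simp only [hH] at hHr
        rw [h1] at hHr
        nlinarith
      have hrseg : r ∈ segment ℝ v m := onray r h1 hAr.le (by linarith)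
      rcases noT a b hab r hrseg hrab with h | h
      · rw [h, Av] at hAr; exact lt_irrefl _ hAr
      · rw [h] at hrab
        exact hne2 (hE.eq_of_meet hab hpq hrab hmpq hm)
    · -- on the edge p q
      have hAr : 0 < A r := by
        by_contra hneg
        push Not at hneg
        simp only [hH] at hHr
        nlinarith
      have hrm : r = pt m p (G r) := by
        apply ext
        · rw [Apt m p (G r), Am, Ap]; linarith
        · rw [Gpt m p (G r), Gm, Gp]; ring
      have hrpq : r ∈ segment ℝ p q := by
        have hseg : segment ℝ m p ⊆ segment ℝ p q :=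
          (convex_segment p q).segment_subset hmpq (left_mem_segment ℝ p q)
        apply hseg
        rw [hrm]
        exact pt_mem h2 (by linarith)
      rcases (hE.meets hab hpq hne2 hrab hrpq).2 with h | h
      · rw [h, Ap] at hAr; exact lt_irrefl _ hAr
      · rw [h] at h2; linarith
  -- sign analysis
  obtain ⟨t1, ht10, ht11, hkt⟩ := mem_segment_iff.1 hk2
  have hHsum : (1 - t1) * H g1 + t1 * H g2 = 0 := by rw [← Hpt, ← hkt, Hk]
  by_cases hg1 : 0 < H g1
  · exact key g1 g2 hg hk2 hg1
  by_cases hg2 : 0 < H g2
  · rw [Sym2.eq_swap] at hg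
    rw [segment_symm] at hk2
    exact key g2 g1 hg hk2 hg2
  push Not at hg1 hg2
  -- both vanish : collinear case
  have hkS : pt v y κ ∉ S := by
    intro hkS
    rcases hemp _ hkS hk1 with h | h
    · exact hkv h
    · exact hky h
  have ht1pos : 0 < t1 := by
    rcases ht10.lt_or_eq with h | h
    · exact h
    · subst h; rw [pt_eq_left] at hkt; rw [hkt] at hkS; exact absurd (hE.left_mem hg) hkS
  have ht1lt : t1 < 1 := by
    rcases ht11.lt_or_eq with h | h
    · exact h
    · subst h; rw [pt_eq_right] at hkt; rw [hkt] at hkS; exact absurd (hE.right_mem hg) hkS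
  have hH1 : H g1 = 0 := by nlinarith
  have hH2 : H g2 = 0 := by nlinarith
  -- every point with H = 0 is on the line v y
  have hlin : ∀ z, H z = 0 → z = pt v y (G z / G y) := by
    intro z hz
    simp only [hH] at hz
    apply ext
    · rw [Apt, Av]
      field_simp
      linarith
    · rw [Gpt, Gv]
      field_simp
      ring
  have e1 := hlin g1 hH1
  have e2 := hlin g2 hH2
  set α := G g1 / G y with hα
  set β := G g2 / G y with hβ
  have hκeq : κ = (1 - t1) * α + t1 * β := by
    have h1 : G (pt v y κ) = (1 - t1) * G g1 + t1 * G g2 := by rw [← Gpt, ← hkt]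
    rw [eG] at h1
    rw [hα, hβ]
    field_simp
    linarith
  have hαn : ¬ (0 < α ∧ α < 1) := by
    rintro ⟨h0, h1⟩
    have hm1 : g1 ∈ segment ℝ v y := by rw [e1]; exact pt_mem h0.le h1.le
    rcases hemp g1 (hE.left_mem hg) hm1 with h | h
    · have : G g1 = 0 := by rw [h, Gv]
      rw [hα, this] at h0; simp at h0
    · have : α = 1 := by rw [hα, h]; field_simp
      linarith
  have hβn : ¬ (0 < β ∧ β < 1) := by
    rintro ⟨h0, h1⟩
    have hm1 : g2 ∈ segment ℝ v y := by rw [e2]; exact pt_mem h0.le h1.le
    rcases hemp g2 (hE.right_mem hg) hm1 with h | h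
    · have : G g2 = 0 := by rw [h, Gv]
      rw [hβ, this] at h0; simp at h0
    · have : β = 1 := by rw [hβ, h]; field_simp
      linarith
  -- v and y are on the edge g1 g2
  have hcase : (α ≤ 0 ∧ 1 ≤ β) ∨ (β ≤ 0 ∧ 1 ≤ α) := by
    by_cases ha : α ≤ 0
    · left
      refine ⟨ha, ?_⟩
      by_contra hb
      push Not at hb
      have hb0 : 0 < β := by
        by_contra h
        push Not at h
        nlinarith
      exact hβn ⟨hb0, hb⟩
    · push Not at ha
      have ha1 : 1 ≤ α := by
        by_contra h
        push Not at h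
        exact hαn ⟨ha, h⟩
      right
      refine ⟨?_, ha1⟩
      by_contra hb
      push Not at hb
      have hb1 : 1 ≤ β := by
        by_contra h
        push Not at h
        exact hβn ⟨hb, h⟩
      nlinarith
  have hab : α ≠ β := by rcases hcase with ⟨h1, h2⟩ | ⟨h1, h2⟩ <;> intro h <;> linarith
  have hin : ∀ c : ℝ, 0 ≤ c → c ≤ 1 → pt v y c ∈ segment ℝ g1 g2 := by
    intro c hc0 hc1
    have : pt v y c = pt g1 g2 ((c - α) / (β - α)) := by
      rw [e1, e2, pt_pt]
      congr 1
      have : β - α ≠ 0 := sub_ne_zero.2 hab.symm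
      field_simp
      ring
    rw [this]
    rcases hcase with ⟨h1, h2⟩ | ⟨h1, h2⟩
    · apply pt_mem
      · apply div_nonneg <;> linarith
      · rw [div_le_one (by linarith)]; linarith
    · apply pt_mem
      · apply div_nonneg_of_nonpos <;> linarith
      · rw [div_le_one_of_neg (by linarith)]; linarith
  have hvin : v ∈ segment ℝ g1 g2 := by
    have := hin 0 le_rfl zero_le_one; rwa [pt_eq_left] at this
  have hyin : y ∈ segment ℝ g1 g2 := by
    have := hin 1 zero_le_one le_rfl; rwa [pt_eq_right] at this
  apply hne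
  rcases hE.only hg hv hvin with h | h <;> rcases hE.only hg hyS hyin with h' | h'
  · exact absurd (h'.trans h.symm) hyv
  · rw [h, h']
  · rw [h, h', Sym2.eq_swap]
  · exact absurd (h'.trans h.symm) hyv

end Pool.Agent.MWST
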