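import Pool.Agent.MWST.Corner

namespace Pool.Agent.MWST

open Set

variable {S : Finset Plane} {T : Finset (Sym2 Plane)}

/-- An endpoint argument: if `r = pt k a t`, `t > 0`, `k` on the edge `a b`, and `r` is in `S`, then
`r = a`. -/
lemma IsEdgeSet.endpoint_of_escape (hE : IsEdgeSet S T) {a b k : Plane} (hab : s(a, b) ∈ T)
    (hk : k ∈ segment ℝ a b) {t : ℝ} (ht0 : 0 < t) (ht1 : t ≤ 1) (hr : pt k a t ∈ S) :
    pt k a t = a := by
  have hne := hE.ne hab
  have hseg : segment ℝ k a ⊆ segment ℝ a b :=
    (convex_segment a b).segment_subset hk (left_mem_segment ℝ a b)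
  have hrab : pt k a t ∈ segment ℝ a b := hseg (pt_mem ht0.le ht1)
  rcases hE.only hab hr hrab with h | h
  · exact h
  · exfalso
    obtain ⟨c, hc0, hc1, rfl⟩ := mem_segment_iff.1 hk
    have e0 : (pt (pt a b c) a t) 0 = b 0 := by rw [h]
    have e1 : (pt (pt a b c) a t) 1 = b 1 := by rw [h]
    simp only [pt_zero, pt_one] at e0 e1
    apply hne
    have hcoef : 0 < 1 - (1 - t) * c := by nlinarith
    apply plane_ext
    · have : (1 - (1 - t) * c) * (b 0 - a 0) = 0 := by linarith
      rcases mul_eq_zero.1 this with h' | h'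
      · linarith
      · linarith
    · have : (1 - (1 - t) * c) * (b 1 - a 1) = 0 := by linarith
      rcases mul_eq_zero.1 this with h' | h'
      · linarith
      · linarith

lemma mem_seg_of_frame {p q w z : Plane} (hD : 0 < ori p q w) (h1 : ori p q z = 0)
    (h2 : 0 ≤ ori q w z) (h3 : 0 ≤ ori w p z) : z ∈ segment ℝ p q := by
  have hD' : ori p q w ≠ 0 := hD.ne'
  have hsum : ori p q w = ori p q z + ori q w z + ori w p z := by unfold ori; ring
  apply onseg_of_G0 hD'
  · unfold cG; rw [h1]; simp
  · unfold cA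
    apply div_nonneg _ hD.le
    have : ori p z w = ori w p z := by unfold ori; ring
    rw [this]; exact h3
  · unfold cA
    rw [div_le_one hD]
    have : ori p z w = ori w p z := by unfold ori; ring
    rw [this]; linarith

/-- No edge of a triangulation enters the interior of a triangle of the triangulation. -/
lemma IsTriangulation.no_edge_in_tri (hT : IsTriangulation S T) {p q w : Plane}
    (hpq : s(p, q) ∈ T) (hqw : s(q, w) ∈ T) (hpw : s(p, w) ∈ T) (hD : 0 < ori p q w)
    (hemp : ∀ z ∈ S, 0 ≤ ori p q z → 0 ≤ ori q w z → 0 ≤ ori w p z → z = p ∨ z = q ∨ z = w)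
    {g1 g2 k : Plane} (hg : s(g1, g2) ∈ T) (hk : k ∈ segment ℝ g1 g2)
    (h1 : 0 < ori p q k) (h2 : 0 < ori q w k) (h3 : 0 < ori w p k) : False := by
  have hE := hT.prop
  have hpS := hE.left_mem hpq
  have hqS := hE.right_mem hpq
  have hwS := hE.right_mem hpw
  -- k is not on a side
  have kpq : k ∉ segment ℝ p q := by
    intro h
    obtain ⟨t, _, _, rfl⟩ := mem_segment_iff.1 h
    rw [ori_pt, ori_self', ori_self] at h1; simp at h1
  have kqw : k ∉ segment ℝ q w := by
    intro h
    obtain ⟨t, _, _, rfl⟩ := mem_segment_iff.1 h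
    rw [ori_pt, ori_self', ori_self] at h2; simp at h2
  have kpw : k ∉ segment ℝ w p := by
    intro h
    obtain ⟨t, _, _, rfl⟩ := mem_segment_iff.1 h
    rw [ori_pt, ori_self', ori_self] at h3; simp at h3
  -- endpoints are vertices
  have key : ∀ a b, s(a, b) ∈ T → k ∈ segment ℝ a b → a = p ∨ a = q ∨ a = w := by
    intro a b hab hkab
    by_contra hcon
    have haS := hE.left_mem hab
    have hout : ori p q a < 0 ∨ ori q w a < 0 ∨ ori w p a < 0 := by
      by_contra h
      push Not at h
      exact hcon (hemp a haS h.1 h.2.1 h.2.2)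
    obtain ⟨t, ht0, ht1, r1, r2, r3, hr⟩ := exit3 (φ := fun t => ori p q (pt k a t))
      (ψ := fun t => ori q w (pt k a t)) (χ := fun t => ori w p (pt k a t))
      (by simp only [ori_pt]; fun_prop) (by simp only [ori_pt]; fun_prop)
      (by simp only [ori_pt]; fun_prop)
      (by simp only [pt_eq_left]; exact h1) (by simp only [pt_eq_left]; exact h2)
      (by simp only [pt_eq_left]; exact h3)
      (by simp only [pt_eq_right]; exact hout)
    have hseg : segment ℝ k a ⊆ segment ℝ a b :=
      (convex_segment a b).segment_subset hkab (left_mem_segment ℝ a b)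
    have hrab : pt k a t ∈ segment ℝ a b := hseg (pt_mem ht0.le ht1)
    -- r is a vertex
    have hv : pt k a t = p ∨ pt k a t = q ∨ pt k a t = w := by
      rcases hr with h | h | h
      · have hm := mem_seg_of_frame hD h r2 r3
        have hne : s(a, b) ≠ s(p, q) := by
          intro heq
          apply kpq
          have h := hkab
          rw [← seg_mk, heq, seg_mk] at h
          exact h
        rcases (hE.meets hab hpq hne hrab hm).2 with h' | h'
        · exact Or.inl h'
        · exact Or.inr (Or.inl h')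
      · have hm := mem_seg_of_frame (p := q) (q := w) (w := p) (by rw [ori_rot]; exact hD) h r3 r1
        have hne : s(a, b) ≠ s(q, w) := by
          intro heq
          apply kqw
          have h := hkab
          rw [← seg_mk, heq, seg_mk] at h
          exact h
        rcases (hE.meets hab hqw hne hrab hm).2 with h' | h'
        · exact Or.inr (Or.inl h')
        · exact Or.inr (Or.inr h')
      · have hm := mem_seg_of_frame (p := w) (q := p) (w := q) (by rw [ori_rot']; exact hD) h r1 r2
        have hwp : s(w, p) ∈ T := by rwa [Sym2.eq_swap]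
        have hne : s(a, b) ≠ s(w, p) := by
          intro heq
          apply kpw
          have h := hkab
          rw [← seg_mk, heq, seg_mk] at h
          exact h
        rcases (hE.meets hab hwp hne hrab hm).2 with h' | h'
        · exact Or.inr (Or.inr h')
        · exact Or.inl h'
    have hrS : pt k a t ∈ S := by rcases hv with h | h | h <;> rw [h] <;> assumption
    have := hE.endpoint_of_escape hab hkab ht0 ht1 hrS
    rw [this] at hv
    exact hcon hv
  have hg1 := key g1 g2 hg hk
  have hg2 := key g2 g1 (by rwa [Sym2.eq_swap]) (by rwa [segment_symm])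
  have hne := hE.ne hg
  rcases hg1 with rfl | rfl | rfl <;> rcases hg2 with rfl | rfl | rfl
  · exact hne rfl
  · exact kpq hk
  · exact kpw (by rwa [segment_symm])
  · exact kpq (by rwa [segment_symm])
  · exact hne rfl
  · exact kqw hk
  · exact kpw hk
  · exact kqw (by rwa [segment_symm])
  · exact hne rfl

/-- Signed version of the face lemma together with emptiness of the interior. -/
lemma IsTriangulation.face_eps (hT : IsTriangulation S T) {ε : ℝ} (hε : ε = 1 ∨ ε = -1)
    {p q x0 : Plane} (hpq : s(p, q) ∈ T) (hx0 : x0 ∈ S) (hx : 0 < ε * ori p q x0) :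
    ∃ w, w ∈ S ∧ 0 < ε * ori p q w ∧ s(p, w) ∈ T ∧ s(q, w) ∈ T ∧
      (∀ z ∈ S, 0 ≤ ε * ori p q z → 0 ≤ ε * ori q w z → 0 ≤ ε * ori w p z → z = p ∨ z = q ∨ z = w) ∧
      (∀ g1 g2 k, s(g1, g2) ∈ T → k ∈ segment ℝ g1 g2 → 0 < ε * ori p q k → 0 < ε * ori q w k →
        0 < ε * ori w p k → False) := by
  rcases hε with rfl | rfl
  · simp only [one_mul] at hx ⊢
    obtain ⟨w, hw, hD, h1, h2, h3⟩ := hT.face hpq hx0 hx
    exact ⟨w, hw, hD, h1, h2, h3, fun g1 g2 k hg hk a b c =>
      hT.no_edge_in_tri hpq h2 h1 hD h3 hg hk a b c⟩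
  · have hqp : s(q, p) ∈ T := by rwa [Sym2.eq_swap]
    have hx' : 0 < ori q p x0 := by rw [ori_swap]; linarith
    obtain ⟨w, hw, hD, h1, h2, h3⟩ := hT.face hqp hx0 hx'
    refine ⟨w, hw, ?_, h2, h1, ?_, ?_⟩
    · rw [ori_swap] at hD; linarith
    · intro z hz a b c
      have h := h3 z hz (by rw [ori_swap]; linarith) (by rw [ori_swap]; linarith)
        (by rw [ori_swap]; linarith)
      tauto
    · intro g1 g2 k hg hk a b c
      exact hT.no_edge_in_tri hqp h2 h1 hD h3 hg hk (by rw [ori_swap]; linarith)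
        (by rw [ori_swap]; linarith) (by rw [ori_swap]; linarith)

lemma mem_seg_of_ori {p q r : Plane} (h : ori p q r = 0) (h1 : p 0 < r 0) (h2 : r 0 < q 0) :
    r ∈ segment ℝ p q := by
  have hpos : 0 < q 0 - p 0 := by linarith
  have : r = pt p q ((r 0 - p 0) / (q 0 - p 0)) := by
    unfold ori at h
    apply plane_ext
    · simp only [pt_zero]; field_simp; ring
    · simp only [pt_one]; field_simp; linarith
  rw [this]
  exact pt_mem (div_nonneg (by linarith) hpos.le) ((div_le_one hpos).2 (by linarith))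

/-- A point of the edge `p q` with prescribed first coordinate. -/
lemma exists_pt_x {p q : Plane} {t : ℝ} (h1 : p 0 < t) (h2 : t < q 0) :
    ∃ k, k ∈ segment ℝ p q ∧ k 0 = t ∧ ori p q k = 0 := by
  have hpos : 0 < q 0 - p 0 := by linarith
  refine ⟨pt p q ((t - p 0) / (q 0 - p 0)), pt_mem (div_nonneg (by linarith) hpos.le)
    ((div_le_one hpos).2 (by linarith)), ?_, ?_⟩
  · simp only [pt_zero]; field_simp; ring
  · rw [ori_pt, ori_self', ori_self]; ring

/-- The slice identity. -/
lemma slice_ident (u v z b : Plane) :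
    (v 0 - b 0) * ori u z b + (u 0 - b 0) * ori z v b + (z 0 - b 0) * ori v u b = 0 := by
  unfold ori; ring

lemma slice {ε : ℝ} {u v z b : Plane} (hu1 : u 0 < b 0) (hv1 : b 0 < v 0)
    (hbS : b ∈ S) (hb : 0 < ε * ori v u b)
    (hemp : ∀ x ∈ S, 0 ≤ ε * ori v u x → 0 ≤ ε * ori u z x → 0 ≤ ε * ori z v x →
      x = v ∨ x = u ∨ x = z) :
    (z 0 < b 0 → ε * ori z v b < 0) ∧ (b 0 < z 0 → ε * ori u z b < 0) := by
  have hid := slice_ident u v z b
  constructor
  · intro hz
    by_contra hcon
    push Not at hcon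
    have hX : 0 ≤ ε * ori u z b := by
      by_contra hneg
      push Not at hneg
      have t1 : (v 0 - b 0) * (ε * ori u z b) < 0 := mul_neg_of_pos_of_neg (by linarith) hneg
      have t2 : (u 0 - b 0) * (ε * ori z v b) ≤ 0 := mul_nonpos_of_nonpos_of_nonneg (by linarith) hcon
      have t3 : (z 0 - b 0) * (ε * ori v u b) < 0 := mul_neg_of_neg_of_pos (by linarith) hb
      have : (v 0 - b 0) * (ε * ori u z b) + (u 0 - b 0) * (ε * ori z v b) +
          (z 0 - b 0) * (ε * ori v u b) = 0 := by linear_combination ε * hid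
      linarith
    rcases hemp b hbS hb.le hX hcon with h | h | h
    · rw [h] at hv1; exact lt_irrefl _ hv1
    · rw [h] at hu1; exact lt_irrefl _ hu1
    · rw [h] at hz; exact lt_irrefl _ hz
  · intro hz
    by_contra hcon
    push Not at hcon
    have hY : 0 ≤ ε * ori z v b := by
      by_contra hneg
      push Not at hneg
      have t1 : 0 ≤ (v 0 - b 0) * (ε * ori u z b) := mul_nonneg (by linarith) hcon
      have t2 : 0 < (u 0 - b 0) * (ε * ori z v b) := mul_pos_of_neg_of_neg (by linarith) hneg
      have t3 : 0 < (z 0 - b 0) * (ε * ori v u b) := mul_pos (by linarith) hb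
      have : (v 0 - b 0) * (ε * ori u z b) + (u 0 - b 0) * (ε * ori z v b) +
          (z 0 - b 0) * (ε * ori v u b) = 0 := by linear_combination ε * hid
      linarith
    rcases hemp b hbS hb.le hcon hY with h | h | h
    · rw [h] at hv1; exact lt_irrefl _ hv1
    · rw [h] at hu1; exact lt_irrefl _ hu1
    · rw [h] at hz; exact lt_irrefl _ hz

/-- Edges `u v` and `u' v'` on different sides of `b` stay in the same order. -/
lemma IsEdgeSet.order (hE : IsEdgeSet S T) {ε m : ℝ} {u v u' v' b : Plane}
    (huv : s(u, v) ∈ T) (huv' : s(u', v') ∈ T) (hu : u 0 ≤ 0) (hu' : u' 0 ≤ 0)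
    (hv : m ≤ v 0) (hv' : m ≤ v' 0) (hb0 : 0 < b 0) (hbm : b 0 < m)
    (hb : 0 < ε * ori v u b) (hb' : 0 < ε * ori u' v' b) {k : Plane}
    (hk : k ∈ segment ℝ u' v') (hk0 : 0 < k 0) (hkm : k 0 < m) : 0 < ε * ori v u k := by
  by_contra hcon
  push Not at hcon
  obtain ⟨j, hj, hjx, hjo⟩ := exists_pt_x (p := u') (q := v') (t := b 0) (by linarith) (by linarith)
  -- j is below b
  have hid1 : ori u' v' b = (v' 0 - u' 0) * (b 1 - j 1) := by
    have h : ori u' v' b - ori u' v' j = (v' 0 - u' 0) * (b 1 - j 1) := by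
      unfold ori; rw [hjx]; ring
    rw [hjo] at h; linarith
  have hid2 : ori v u j = ori v u b + (u 0 - v 0) * (j 1 - b 1) := by
    unfold ori; rw [hjx]; ring
  have hpos' : 0 < v' 0 - u' 0 := by linarith
  have hεbj : 0 < ε * (b 1 - j 1) := by
    rw [hid1] at hb'
    have : 0 < (v' 0 - u' 0) * (ε * (b 1 - j 1)) := by linarith
    exact (mul_pos_iff_of_pos_left hpos').1 this
  have hj' : 0 < ε * ori v u j := by
    rw [hid2]
    have : 0 < (v 0 - u 0) * (ε * (b 1 - j 1)) := mul_pos (by linarith) hεbj
    linarith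
  -- the crossing point
  set g1 := ε * ori v u j with hg1
  set g2 := ε * ori v u k with hg2
  set lam := g1 / (g1 - g2) with hlam
  have hden : 0 < g1 - g2 := by linarith
  have hl0 : 0 < lam := div_pos hj' hden
  have hl1 : lam ≤ 1 := by rw [hlam, div_le_one hden]; linarith
  set r := pt j k lam with hr
  have hrseg : r ∈ segment ℝ u' v' :=
    (convex_segment u' v').segment_subset hj hk (pt_mem hl0.le hl1)
  have hr0 : ε * ori v u r = 0 := by
    rw [hr, ori_pt]
    have : ε * ((1 - lam) * ori v u j + lam * ori v u k) = (1 - lam) * g1 + lam * g2 := by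
      rw [hg1, hg2]; ring
    rw [this, hlam]
    field_simp
    ring
  have hεne : ε ≠ 0 := by rintro rfl; simp at hb
  have hr0' : ori u v r = 0 := by
    rw [ori_swap]
    rcases mul_eq_zero.1 hr0 with h | h
    · exact absurd h hεne
    · rw [h]; ring
  have hrx : r 0 = (1 - lam) * b 0 + lam * k 0 := by rw [hr, pt_zero, hjx]
  have hrx0 : 0 < r 0 := by rw [hrx]; nlinarith
  have hrxm : r 0 < m := by rw [hrx]; nlinarith
  have hruv : r ∈ segment ℝ u v := mem_seg_of_ori hr0' (by linarith) (by linarith)
  by_cases heq : s(u, v) = s(u', v')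
  · rcases Sym2.eq_iff.1 heq with ⟨rfl, rfl⟩ | ⟨rfl, rfl⟩
    · rw [ori_swap] at hb'; linarith
    · linarith
  · rcases (hE.meets huv huv' heq hruv hrseg).1 with h | h
    · rw [h] at hrx0; linarith
    · rw [h] at hrxm; linarith

/-- The third edge lemma. -/
lemma IsTriangulation.third (hT : IsTriangulation S T) {ε : ℝ} (hε : ε = 1 ∨ ε = -1) {m : ℝ}
    {u v u' v' b : Plane} (huv : s(u, v) ∈ T) (huv' : s(u', v') ∈ T) (hu : u 0 ≤ 0) (hu' : u' 0 ≤ 0)
    (hv : m ≤ v 0) (hv' : m ≤ v' 0) (hbS : b ∈ S) (hb0 : 0 < b 0) (hbm : b 0 < m)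
    (hb : 0 < ε * ori v u b) (hb' : 0 < ε * ori u' v' b) :
    ∃ z, z ∈ S ∧ z ≠ u ∧ z ≠ v ∧ s(u, z) ∈ T ∧ s(z, v) ∈ T ∧
      ((z 0 < b 0 → ε * ori z v b < 0) ∧ (b 0 < z 0 → ε * ori u z b < 0)) ∧
      ∀ t, 0 < t → t < m → (∀ x ∈ S, x 0 ≠ t) →
        (z 0 < t ∧ Sep S z v ∧ s(z, v) ≠ s(u', v')) ∨ (t < z 0 ∧ Sep S u z ∧ s(u, z) ≠ s(u', v')) := by
  have hE := hT.prop
  have hvu : s(v, u) ∈ T := by rwa [Sym2.eq_swap]
  obtain ⟨z, hzS, hD, hvz, huz, hemp, hint⟩ := hT.face_eps hε hvu hbS hb
  have hsl := slice (S := S) (ε := ε) (u := u) (v := v) (z := z) (b := b) (by linarith) (by linarith)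
    hbS hb hemp
  have hzu : z ≠ u := by rintro rfl; exact hE.ne huz rfl
  have hzv : z ≠ v := by rintro rfl; exact hE.ne hvz rfl
  have hzvT : s(z, v) ∈ T := by rwa [Sym2.eq_swap]
  refine ⟨z, hzS, hzu, hzv, huz, hzvT, hsl, ?_⟩
  intro t ht0 htm hgen
  obtain ⟨k, hkseg, hkx, hko⟩ := exists_pt_x (p := u') (q := v') (t := t) (by linarith) (by linarith)
  have hZ : 0 < ε * ori v u k := hE.order huv huv' hu hu' hv hv' hb0 hbm hb hb' hkseg
    (by rw [hkx]; exact ht0) (by rw [hkx]; exact htm)
  have hkS : k ∉ S := fun h => hgen k h hkx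
  have hid := slice_ident u v z k
  rw [hkx] at hid
  -- a point of u' v' strictly on the negative side gives an endpoint on that side
  have hneg : ∀ p q, ε * ori p q k < 0 → ε * ori p q u' < 0 ∨ ε * ori p q v' < 0 := by
    intro p q h
    by_contra hcon
    push Not at hcon
    obtain ⟨c, hc0, hc1, rfl⟩ := mem_segment_iff.1 hkseg
    rw [ori_pt] at h
    have : 0 ≤ (1 - c) * (ε * ori p q u') + c * (ε * ori p q v') :=
      add_nonneg (mul_nonneg (by linarith) hcon.1) (mul_nonneg hc0 hcon.2)
    linarith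
  have hu'S := hE.left_mem huv'
  have hv'S := hE.right_mem huv'
  have sep_of : ∀ p q x, x ∈ S → 0 < ε * ori p q x → ε * ori p q k < 0 → Sep S p q := by
    intro p q x hx h1 h2
    have h3 : ∃ y ∈ S, ε * ori p q y < 0 := by
      rcases hneg p q h2 with h | h
      · exact ⟨u', hu'S, h⟩
      · exact ⟨v', hv'S, h⟩
    obtain ⟨y, hy, h4⟩ := h3
    rcases hε with rfl | rfl
    · exact ⟨⟨x, hx, by linarith⟩, ⟨y, hy, by linarith⟩⟩
    · exact ⟨⟨y, hy, by linarith⟩, ⟨x, hx, by linarith⟩⟩
  have hzt : z 0 ≠ t := hgen z hzS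
  rcases lt_or_gt_of_ne hzt with hz | hz
  · left
    refine ⟨hz, ?_, ?_⟩
    · -- separation
      have hY : ε * ori z v k < 0 := by
        by_contra hcon
        push Not at hcon
        rcases hcon.lt_or_eq with h | h
        · have hX : 0 < ε * ori u z k := by
            by_contra hneg'
            push Not at hneg'
            have t1 : (v 0 - t) * (ε * ori u z k) ≤ 0 :=
              mul_nonpos_of_nonneg_of_nonpos (by linarith) hneg'
            have t2 : (u 0 - t) * (ε * ori z v k) < 0 := mul_neg_of_neg_of_pos (by linarith) h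
            have t3 : (z 0 - t) * (ε * ori v u k) < 0 := mul_neg_of_neg_of_pos (by linarith) hZ
            have : (v 0 - t) * (ε * ori u z k) + (u 0 - t) * (ε * ori z v k) +
              (z 0 - t) * (ε * ori v u k) = 0 := by linear_combination ε * hid
            linarith
          exact hint u' v' k huv' hkseg hZ hX h
        · have hεne : ε ≠ 0 := by rcases hε with rfl | rfl <;> norm_num
          have hzero : ori z v k = 0 := by
            rcases mul_eq_zero.1 h.symm with h' | h'
            · exact absurd h' hεne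
            · exact h'
          have hkzv : k ∈ segment ℝ z v := mem_seg_of_ori hzero (by rw [hkx]; exact hz)
            (by rw [hkx]; linarith)
          have heq := hE.eq_of_meet hzvT huv' hkzv hkseg hkS
          rcases Sym2.eq_iff.1 heq with ⟨h1, h2⟩ | ⟨h1, h2⟩
          · have hb1 := hsl.1 (by rw [h1]; linarith)
            rw [h1, h2] at hb1
            linarith
          · rw [h1] at hz; linarith
      apply sep_of z v u (hE.left_mem huv) _ hY
      rw [ori_rot' v u z]; exact hD
    · intro heq
      rcases Sym2.eq_iff.1 heq with ⟨h1, h2⟩ | ⟨h1, h2⟩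
      · have hb1 := hsl.1 (by rw [h1]; linarith)
        rw [h1, h2] at hb1
        linarith
      · rw [h1] at hz; linarith
  · right
    refine ⟨hz, ?_, ?_⟩
    · have hX : ε * ori u z k < 0 := by
        by_contra hcon
        push Not at hcon
        rcases hcon.lt_or_eq with h | h
        · have hY : 0 < ε * ori z v k := by
            by_contra hneg'
            push Not at hneg'
            have t1 : 0 < (v 0 - t) * (ε * ori u z k) := mul_pos (by linarith) h
            have t2 : 0 ≤ (u 0 - t) * (ε * ori z v k) :=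
              mul_nonneg_of_nonpos_of_nonpos (by linarith) hneg'
            have t3 : 0 < (z 0 - t) * (ε * ori v u k) := mul_pos (by linarith) hZ
            have : (v 0 - t) * (ε * ori u z k) + (u 0 - t) * (ε * ori z v k) +
              (z 0 - t) * (ε * ori v u k) = 0 := by linear_combination ε * hid
            linarith
          exact hint u' v' k huv' hkseg hZ h hY
        · have hεne : ε ≠ 0 := by rcases hε with rfl | rfl <;> norm_num
          have hzero : ori u z k = 0 := by
            rcases mul_eq_zero.1 h.symm with h' | h'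
            · exact absurd h' hεne
            · exact h'
          have hkuz : k ∈ segment ℝ u z := mem_seg_of_ori hzero (by rw [hkx]; linarith)
            (by rw [hkx]; exact hz)
          have heq := hE.eq_of_meet huz huv' hkuz hkseg hkS
          rcases Sym2.eq_iff.1 heq with ⟨h1, h2⟩ | ⟨h1, h2⟩
          · have hb1 := hsl.2 (by rw [h2]; linarith)
            rw [h1, h2] at hb1
            linarith
          · rw [h2] at hz; linarith
      apply sep_of u z v (hE.right_mem huv) _ hX
      rw [ori_rot v u z]; exact hD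
    · intro heq
      rcases Sym2.eq_iff.1 heq with ⟨h1, h2⟩ | ⟨h1, h2⟩
      · have hb1 := hsl.2 (by rw [h2]; linarith)
        rw [h1, h2] at hb1
        linarith
      · rw [h2] at hz; linarith

end Pool.Agent.MWST
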