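import Pool.Agent.MWST.UpperAux

namespace Pool.Agent.MWST

open Set

open Classical in
/-- The six points of the approximating triangulations. -/
noncomputable def Sh (h : ℝ) : Finset Plane := {pa, pb, pc, pd, pu h, pl h}

open Classical in
/-- The ten edges of the approximating triangulations. -/
noncomputable def Th (h : ℝ) : Finset (Sym2 Plane) :=
  {s(pa, (pl h)), s((pl h), (pu h)), s((pu h), pd), s(pd, pc), s(pc, pa), s((pu h), pc), s((pu h), pb), s(pb, pc), s((pl h), pb), s((pl h), pc)}

lemma mem_Sh {h : ℝ} {x : Plane} : x ∈ Sh h ↔ x = pa ∨ x = pb ∨ x = pc ∨ x = pd ∨ x = pu h ∨ x = pl h := by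
  simp [Sh]

lemma mem_Th {h : ℝ} {e : Sym2 Plane} : e ∈ Th h ↔ e = s(pa, (pl h)) ∨ e = s((pl h), (pu h)) ∨ e = s((pu h), pd) ∨ e = s(pd, pc) ∨ e = s(pc, pa) ∨ e = s((pu h), pc) ∨ e = s((pu h), pb) ∨ e = s(pb, pc) ∨ e = s((pl h), pb) ∨ e = s((pl h), pc) := by
  simp [Th]

lemma ne_of_0 {x y : Plane} (h : x 0 ≠ y 0) : x ≠ y := fun h2 => h (by rw [h2])
lemma ne_of_1 {x y : Plane} (h : x 1 ≠ y 1) : x ≠ y := fun h2 => h (by rw [h2])

lemma ne_ab {h : ℝ} (_h0 : 0 < h) (_h1 : h ≤ 1) : (pa : Plane) ≠ pb := ne_of_0 (by simp)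
lemma ne_ac {h : ℝ} (_h0 : 0 < h) (_h1 : h ≤ 1) : (pa : Plane) ≠ pc := ne_of_0 (by simp)
lemma ne_ad {h : ℝ} (_h0 : 0 < h) (_h1 : h ≤ 1) : (pa : Plane) ≠ pd := ne_of_1 (by
  simp only [pa1, pb1, pc1, pd1, pu1, pl1]; intro hh; linarith)
lemma ne_au {h : ℝ} (_h0 : 0 < h) (_h1 : h ≤ 1) : (pa : Plane) ≠ (pu h) := ne_of_1 (by
  simp only [pa1, pb1, pc1, pd1, pu1, pl1]; intro hh; linarith)
lemma ne_al {h : ℝ} (_h0 : 0 < h) (_h1 : h ≤ 1) : (pa : Plane) ≠ (pl h) := ne_of_1 (by
  simp only [pa1, pb1, pc1, pd1, pu1, pl1]; intro hh; linarith)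
lemma ne_bc {h : ℝ} (_h0 : 0 < h) (_h1 : h ≤ 1) : (pb : Plane) ≠ pc := ne_of_0 (by simp)
lemma ne_bd {h : ℝ} (_h0 : 0 < h) (_h1 : h ≤ 1) : (pb : Plane) ≠ pd := ne_of_0 (by simp)
lemma ne_bu {h : ℝ} (_h0 : 0 < h) (_h1 : h ≤ 1) : (pb : Plane) ≠ (pu h) := ne_of_0 (by simp)
lemma ne_bl {h : ℝ} (_h0 : 0 < h) (_h1 : h ≤ 1) : (pb : Plane) ≠ (pl h) := ne_of_0 (by simp)
lemma ne_cd {h : ℝ} (_h0 : 0 < h) (_h1 : h ≤ 1) : (pc : Plane) ≠ pd := ne_of_0 (by simp)
lemma ne_cu {h : ℝ} (_h0 : 0 < h) (_h1 : h ≤ 1) : (pc : Plane) ≠ (pu h) := ne_of_0 (by simp)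
lemma ne_cl {h : ℝ} (_h0 : 0 < h) (_h1 : h ≤ 1) : (pc : Plane) ≠ (pl h) := ne_of_0 (by simp)
lemma ne_du {h : ℝ} (_h0 : 0 < h) (_h1 : h ≤ 1) : (pd : Plane) ≠ (pu h) := ne_of_1 (by
  simp only [pa1, pb1, pc1, pd1, pu1, pl1]; intro hh; linarith)
lemma ne_dl {h : ℝ} (_h0 : 0 < h) (_h1 : h ≤ 1) : (pd : Plane) ≠ (pl h) := ne_of_1 (by
  simp only [pa1, pb1, pc1, pd1, pu1, pl1]; intro hh; linarith)
lemma ne_ul {h : ℝ} (_h0 : 0 < h) (_h1 : h ≤ 1) : ((pu h) : Plane) ≠ (pl h) := ne_of_1 (by
  simp only [pa1, pb1, pc1, pd1, pu1, pl1]; intro hh; linarith)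

lemma Th_edgeSet {h : ℝ} (h0 : 0 < h) (h1 : h ≤ 1) : IsEdgeSet (Sh h) (Th h) := by
  have honly : ∀ e ∈ Th h, ∀ x ∈ Sh h, x ∈ seg e → x ∈ e := by
    intro e he x hx hxe
    rw [mem_Th] at he
    rw [mem_Sh] at hx
    rcases he with rfl | rfl | rfl | rfl | rfl | rfl | rfl | rfl | rfl | rfl
    · rw [seg_mk] at hxe
      rcases hx with rfl | rfl | rfl | rfl | rfl | rfl
      · simp
      · exact absurd hxe (o_al_b h0 h1)
      · exact absurd hxe (o_al_c h0 h1)
      · exact absurd hxe (o_al_d h0 h1)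
      · exact absurd hxe (o_al_u h0 h1)
      · simp
    · rw [seg_mk] at hxe
      rcases hx with rfl | rfl | rfl | rfl | rfl | rfl
      · exact absurd hxe (o_lu_a h0 h1)
      · exact absurd hxe (o_lu_b h0 h1)
      · exact absurd hxe (o_lu_c h0 h1)
      · exact absurd hxe (o_lu_d h0 h1)
      · simp
      · simp
    · rw [seg_mk] at hxe
      rcases hx with rfl | rfl | rfl | rfl | rfl | rfl
      · exact absurd hxe (o_ud_a h0 h1)
      · exact absurd hxe (o_ud_b h0 h1)
      · exact absurd hxe (o_ud_c h0 h1)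
      · simp
      · simp
      · exact absurd hxe (o_ud_l h0 h1)
    · rw [seg_mk] at hxe
      rcases hx with rfl | rfl | rfl | rfl | rfl | rfl
      · exact absurd hxe (o_dc_a h0 h1)
      · exact absurd hxe (o_dc_b h0 h1)
      · simp
      · simp
      · exact absurd hxe (o_dc_u h0 h1)
      · exact absurd hxe (o_dc_l h0 h1)
    · rw [seg_mk] at hxe
      rcases hx with rfl | rfl | rfl | rfl | rfl | rfl
      · simp
      · exact absurd hxe (o_ca_b h0 h1)
      · simp
      · exact absurd hxe (o_ca_d h0 h1)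
      · exact absurd hxe (o_ca_u h0 h1)
      · exact absurd hxe (o_ca_l h0 h1)
    · rw [seg_mk] at hxe
      rcases hx with rfl | rfl | rfl | rfl | rfl | rfl
      · exact absurd hxe (o_uc_a h0 h1)
      · exact absurd hxe (o_uc_b h0 h1)
      · simp
      · exact absurd hxe (o_uc_d h0 h1)
      · simp
      · exact absurd hxe (o_uc_l h0 h1)
    · rw [seg_mk] at hxe
      rcases hx with rfl | rfl | rfl | rfl | rfl | rfl
      · exact absurd hxe (o_ub_a h0 h1)
      · simp
      · exact absurd hxe (o_ub_c h0 h1)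
      · exact absurd hxe (o_ub_d h0 h1)
      · simp
      · exact absurd hxe (o_ub_l h0 h1)
    · rw [seg_mk] at hxe
      rcases hx with rfl | rfl | rfl | rfl | rfl | rfl
      · exact absurd hxe (o_bc_a h0 h1)
      · simp
      · simp
      · exact absurd hxe (o_bc_d h0 h1)
      · exact absurd hxe (o_bc_u h0 h1)
      · exact absurd hxe (o_bc_l h0 h1)
    · rw [seg_mk] at hxe
      rcases hx with rfl | rfl | rfl | rfl | rfl | rfl
      · exact absurd hxe (o_lb_a h0 h1)
      · simp
      · exact absurd hxe (o_lb_c h0 h1)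
      · exact absurd hxe (o_lb_d h0 h1)
      · exact absurd hxe (o_lb_u h0 h1)
      · simp
    · rw [seg_mk] at hxe
      rcases hx with rfl | rfl | rfl | rfl | rfl | rfl
      · exact absurd hxe (o_lc_a h0 h1)
      · exact absurd hxe (o_lc_b h0 h1)
      · simp
      · exact absurd hxe (o_lc_d h0 h1)
      · exact absurd hxe (o_lc_u h0 h1)
      · simp
  have hend : ∀ e ∈ Th h, ∀ x ∈ e, x ∈ Sh h := by
    intro e he x hx
    rw [mem_Th] at he
    rw [mem_Sh]
    rcases he with rfl | rfl | rfl | rfl | rfl | rfl | rfl | rfl | rfl | rfl <;> rcases Sym2.mem_iff.1 hx with rfl | rfl <;> simp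
  have hor : ∀ e ∈ Th h, ∀ f ∈ Th h, e ≠ f → ∀ x, x ∈ seg e → x ∈ seg f → x ∈ e ∨ x ∈ f := by
    intro e he f hf hne x hxe hxf
    rw [mem_Th] at he hf
    rcases he with rfl | rfl | rfl | rfl | rfl | rfl | rfl | rfl | rfl | rfl
    · rw [seg_mk] at hxe
      rcases hf with rfl | rfl | rfl | rfl | rfl | rfl | rfl | rfl | rfl | rfl
      · exact absurd rfl hne
      · rw [seg_mk] at hxf
        have := m_al_lu h0 h1 hxe hxf
        rw [this]; simp
      · rw [seg_mk] at hxf
        have := m_al_ud h0 h1 hxe hxf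
        rw [this]; simp
      · rw [seg_mk] at hxf
        have := m_al_dc h0 h1 hxe hxf
        rw [this]; simp
      · rw [seg_mk] at hxf
        have := m_al_ca h0 h1 hxe hxf
        rw [this]; simp
      · rw [seg_mk] at hxf
        have := m_al_uc h0 h1 hxe hxf
        rw [this]; simp
      · rw [seg_mk] at hxf
        have := m_al_ub h0 h1 hxe hxf
        rw [this]; simp
      · rw [seg_mk] at hxf
        have := m_al_bc h0 h1 hxe hxf
        rw [this]; simp
      · rw [seg_mk] at hxf
        have := m_al_lb h0 h1 hxe hxf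
        rw [this]; simp
      · rw [seg_mk] at hxf
        have := m_al_lc h0 h1 hxe hxf
        rw [this]; simp
    · rw [seg_mk] at hxe
      rcases hf with rfl | rfl | rfl | rfl | rfl | rfl | rfl | rfl | rfl | rfl
      · rw [seg_mk] at hxf
        have := m_al_lu h0 h1 hxf hxe
        rw [this]; simp
      · exact absurd rfl hne
      · rw [seg_mk] at hxf
        have := m_lu_ud h0 h1 hxe hxf
        rw [this]; simp
      · rw [seg_mk] at hxf
        have := m_lu_dc h0 h1 hxe hxf
        rw [this]; simp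
      · rw [seg_mk] at hxf
        have := m_lu_ca h0 h1 hxe hxf
        rw [this]; simp
      · rw [seg_mk] at hxf
        have := m_lu_uc h0 h1 hxe hxf
        rw [this]; simp
      · rw [seg_mk] at hxf
        have := m_lu_ub h0 h1 hxe hxf
        rw [this]; simp
      · rw [seg_mk] at hxf
        have := m_lu_bc h0 h1 hxe hxf
        rw [this]; simp
      · rw [seg_mk] at hxf
        have := m_lu_lb h0 h1 hxe hxf
        rw [this]; simp
      · rw [seg_mk] at hxf
        have := m_lu_lc h0 h1 hxe hxf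
        rw [this]; simp
    · rw [seg_mk] at hxe
      rcases hf with rfl | rfl | rfl | rfl | rfl | rfl | rfl | rfl | rfl | rfl
      · rw [seg_mk] at hxf
        have := m_al_ud h0 h1 hxf hxe
        rw [this]; simp
      · rw [seg_mk] at hxf
        have := m_lu_ud h0 h1 hxf hxe
        rw [this]; simp
      · exact absurd rfl hne
      · rw [seg_mk] at hxf
        have := m_ud_dc h0 h1 hxe hxf
        rw [this]; simp
      · rw [seg_mk] at hxf
        have := m_ud_ca h0 h1 hxe hxf
        rw [this]; simp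
      · rw [seg_mk] at hxf
        have := m_ud_uc h0 h1 hxe hxf
        rw [this]; simp
      · rw [seg_mk] at hxf
        have := m_ud_ub h0 h1 hxe hxf
        rw [this]; simp
      · rw [seg_mk] at hxf
        have := m_ud_bc h0 h1 hxe hxf
        rw [this]; simp
      · rw [seg_mk] at hxf
        have := m_ud_lb h0 h1 hxe hxf
        rw [this]; simp
      · rw [seg_mk] at hxf
        have := m_ud_lc h0 h1 hxe hxf
        rw [this]; simp
    · rw [seg_mk] at hxe
      rcases hf with rfl | rfl | rfl | rfl | rfl | rfl | rfl | rfl | rfl | rfl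
      · rw [seg_mk] at hxf
        have := m_al_dc h0 h1 hxf hxe
        rw [this]; simp
      · rw [seg_mk] at hxf
        have := m_lu_dc h0 h1 hxf hxe
        rw [this]; simp
      · rw [seg_mk] at hxf
        have := m_ud_dc h0 h1 hxf hxe
        rw [this]; simp
      · exact absurd rfl hne
      · rw [seg_mk] at hxf
        have := m_dc_ca h0 h1 hxe hxf
        rw [this]; simp
      · rw [seg_mk] at hxf
        have := m_dc_uc h0 h1 hxe hxf
        rw [this]; simp
      · rw [seg_mk] at hxf
        have := m_dc_ub h0 h1 hxe hxf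
        rw [this]; simp
      · rw [seg_mk] at hxf
        have := m_dc_bc h0 h1 hxe hxf
        rw [this]; simp
      · rw [seg_mk] at hxf
        have := m_dc_lb h0 h1 hxe hxf
        rw [this]; simp
      · rw [seg_mk] at hxf
        have := m_dc_lc h0 h1 hxe hxf
        rw [this]; simp
    · rw [seg_mk] at hxe
      rcases hf with rfl | rfl | rfl | rfl | rfl | rfl | rfl | rfl | rfl | rfl
      · rw [seg_mk] at hxf
        have := m_al_ca h0 h1 hxf hxe
        rw [this]; simp
      · rw [seg_mk] at hxf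
        have := m_lu_ca h0 h1 hxf hxe
        rw [this]; simp
      · rw [seg_mk] at hxf
        have := m_ud_ca h0 h1 hxf hxe
        rw [this]; simp
      · rw [seg_mk] at hxf
        have := m_dc_ca h0 h1 hxf hxe
        rw [this]; simp
      · exact absurd rfl hne
      · rw [seg_mk] at hxf
        have := m_ca_uc h0 h1 hxe hxf
        rw [this]; simp
      · rw [seg_mk] at hxf
        have := m_ca_ub h0 h1 hxe hxf
        rw [this]; simp
      · rw [seg_mk] at hxf
        have := m_ca_bc h0 h1 hxe hxf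
        rw [this]; simp
      · rw [seg_mk] at hxf
        have := m_ca_lb h0 h1 hxe hxf
        rw [this]; simp
      · rw [seg_mk] at hxf
        have := m_ca_lc h0 h1 hxe hxf
        rw [this]; simp
    · rw [seg_mk] at hxe
      rcases hf with rfl | rfl | rfl | rfl | rfl | rfl | rfl | rfl | rfl | rfl
      · rw [seg_mk] at hxf
        have := m_al_uc h0 h1 hxf hxe
        rw [this]; simp
      · rw [seg_mk] at hxf
        have := m_lu_uc h0 h1 hxf hxe
        rw [this]; simp
      · rw [seg_mk] at hxf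
        have := m_ud_uc h0 h1 hxf hxe
        rw [this]; simp
      · rw [seg_mk] at hxf
        have := m_dc_uc h0 h1 hxf hxe
        rw [this]; simp
      · rw [seg_mk] at hxf
        have := m_ca_uc h0 h1 hxf hxe
        rw [this]; simp
      · exact absurd rfl hne
      · rw [seg_mk] at hxf
        have := m_uc_ub h0 h1 hxe hxf
        rw [this]; simp
      · rw [seg_mk] at hxf
        have := m_uc_bc h0 h1 hxe hxf
        rw [this]; simp
      · rw [seg_mk] at hxf
        have := m_uc_lb h0 h1 hxe hxf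
        rw [this]; simp
      · rw [seg_mk] at hxf
        have := m_uc_lc h0 h1 hxe hxf
        rw [this]; simp
    · rw [seg_mk] at hxe
      rcases hf with rfl | rfl | rfl | rfl | rfl | rfl | rfl | rfl | rfl | rfl
      · rw [seg_mk] at hxf
        have := m_al_ub h0 h1 hxf hxe
        rw [this]; simp
      · rw [seg_mk] at hxf
        have := m_lu_ub h0 h1 hxf hxe
        rw [this]; simp
      · rw [seg_mk] at hxf
        have := m_ud_ub h0 h1 hxf hxe
        rw [this]; simp
      · rw [seg_mk] at hxf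
        have := m_dc_ub h0 h1 hxf hxe
        rw [this]; simp
      · rw [seg_mk] at hxf
        have := m_ca_ub h0 h1 hxf hxe
        rw [this]; simp
      · rw [seg_mk] at hxf
        have := m_uc_ub h0 h1 hxf hxe
        rw [this]; simp
      · exact absurd rfl hne
      · rw [seg_mk] at hxf
        have := m_ub_bc h0 h1 hxe hxf
        rw [this]; simp
      · rw [seg_mk] at hxf
        have := m_ub_lb h0 h1 hxe hxf
        rw [this]; simp
      · rw [seg_mk] at hxf
        have := m_ub_lc h0 h1 hxe hxf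
        rw [this]; simp
    · rw [seg_mk] at hxe
      rcases hf with rfl | rfl | rfl | rfl | rfl | rfl | rfl | rfl | rfl | rfl
      · rw [seg_mk] at hxf
        have := m_al_bc h0 h1 hxf hxe
        rw [this]; simp
      · rw [seg_mk] at hxf
        have := m_lu_bc h0 h1 hxf hxe
        rw [this]; simp
      · rw [seg_mk] at hxf
        have := m_ud_bc h0 h1 hxf hxe
        rw [this]; simp
      · rw [seg_mk] at hxf
        have := m_dc_bc h0 h1 hxf hxe
        rw [this]; simp
      · rw [seg_mk] at hxf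
        have := m_ca_bc h0 h1 hxf hxe
        rw [this]; simp
      · rw [seg_mk] at hxf
        have := m_uc_bc h0 h1 hxf hxe
        rw [this]; simp
      · rw [seg_mk] at hxf
        have := m_ub_bc h0 h1 hxf hxe
        rw [this]; simp
      · exact absurd rfl hne
      · rw [seg_mk] at hxf
        have := m_bc_lb h0 h1 hxe hxf
        rw [this]; simp
      · rw [seg_mk] at hxf
        have := m_bc_lc h0 h1 hxe hxf
        rw [this]; simp
    · rw [seg_mk] at hxe
      rcases hf with rfl | rfl | rfl | rfl | rfl | rfl | rfl | rfl | rfl | rfl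
      · rw [seg_mk] at hxf
        have := m_al_lb h0 h1 hxf hxe
        rw [this]; simp
      · rw [seg_mk] at hxf
        have := m_lu_lb h0 h1 hxf hxe
        rw [this]; simp
      · rw [seg_mk] at hxf
        have := m_ud_lb h0 h1 hxf hxe
        rw [this]; simp
      · rw [seg_mk] at hxf
        have := m_dc_lb h0 h1 hxf hxe
        rw [this]; simp
      · rw [seg_mk] at hxf
        have := m_ca_lb h0 h1 hxf hxe
        rw [this]; simp
      · rw [seg_mk] at hxf
        have := m_uc_lb h0 h1 hxf hxe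
        rw [this]; simp
      · rw [seg_mk] at hxf
        have := m_ub_lb h0 h1 hxf hxe
        rw [this]; simp
      · rw [seg_mk] at hxf
        have := m_bc_lb h0 h1 hxf hxe
        rw [this]; simp
      · exact absurd rfl hne
      · rw [seg_mk] at hxf
        have := m_lb_lc h0 h1 hxe hxf
        rw [this]; simp
    · rw [seg_mk] at hxe
      rcases hf with rfl | rfl | rfl | rfl | rfl | rfl | rfl | rfl | rfl | rfl
      · rw [seg_mk] at hxf
        have := m_al_lc h0 h1 hxf hxe
        rw [this]; simp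
      · rw [seg_mk] at hxf
        have := m_lu_lc h0 h1 hxf hxe
        rw [this]; simp
      · rw [seg_mk] at hxf
        have := m_ud_lc h0 h1 hxf hxe
        rw [this]; simp
      · rw [seg_mk] at hxf
        have := m_dc_lc h0 h1 hxf hxe
        rw [this]; simp
      · rw [seg_mk] at hxf
        have := m_ca_lc h0 h1 hxf hxe
        rw [this]; simp
      · rw [seg_mk] at hxf
        have := m_uc_lc h0 h1 hxf hxe
        rw [this]; simp
      · rw [seg_mk] at hxf
        have := m_ub_lc h0 h1 hxf hxe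
        rw [this]; simp
      · rw [seg_mk] at hxf
        have := m_bc_lc h0 h1 hxf hxe
        rw [this]; simp
      · rw [seg_mk] at hxf
        have := m_lb_lc h0 h1 hxf hxe
        rw [this]; simp
      · exact absurd rfl hne
  refine ⟨?_, hend, honly, ?_⟩
  · intro e he
    rw [mem_Th] at he
    rcases he with rfl | rfl | rfl | rfl | rfl | rfl | rfl | rfl | rfl | rfl
    · rw [Sym2.mk_isDiag_iff]; exact (ne_al h0 h1)
    · rw [Sym2.mk_isDiag_iff]; exact (ne_ul h0 h1).symm
    · rw [Sym2.mk_isDiag_iff]; exact (ne_du h0 h1).symm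
    · rw [Sym2.mk_isDiag_iff]; exact (ne_cd h0 h1).symm
    · rw [Sym2.mk_isDiag_iff]; exact (ne_ac h0 h1).symm
    · rw [Sym2.mk_isDiag_iff]; exact (ne_cu h0 h1).symm
    · rw [Sym2.mk_isDiag_iff]; exact (ne_bu h0 h1).symm
    · rw [Sym2.mk_isDiag_iff]; exact (ne_bc h0 h1)
    · rw [Sym2.mk_isDiag_iff]; exact (ne_bl h0 h1).symm
    · rw [Sym2.mk_isDiag_iff]; exact (ne_cl h0 h1).symm
  · intro e he f hf hne x hxe hxf
    rcases hor e he f hf hne x hxe hxf with hx | hx
    · exact ⟨hx, honly f hf x (hend e he x hx) hxf⟩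
    · exact ⟨honly e he x (hend f hf x hx) hxe, hx⟩

/-- The crossing point of the segments `b d` and `u c`. -/
noncomputable def crossT (h : ℝ) : ℝ := (200 - h) / (200 - h / 4)

lemma crossT_pos {h : ℝ} (h0 : 0 < h) (h1 : h ≤ 1) : 0 < crossT h ∧ crossT h < 1 := by
  unfold crossT
  constructor
  · apply div_pos <;> linarith
  · rw [div_lt_one (by linarith)]; linarith

lemma cross_bd {h : ℝ} (h0 : 0 < h) (h1 : h ≤ 1) :
    pt pd pb (crossT h) = pt (pu h) pc (crossT h / 4) := by
  have hne : (200 - h / 4 : ℝ) ≠ 0 := by linarith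
  have hmul : crossT h * (200 - h / 4) = 200 - h := by
    unfold crossT; exact div_mul_cancel₀ _ hne
  apply plane_ext
  · simp
  · simp only [pt_one, pd1, pb1, pu1, pc1]; linarith

lemma cross_ab {h : ℝ} (h0 : 0 < h) (h1 : h ≤ 1) :
    pt pa pb (crossT h) = pt (pl h) pc (crossT h / 4) := by
  have hne : (200 - h / 4 : ℝ) ≠ 0 := by linarith
  have hmul : crossT h * (200 - h / 4) = 200 - h := by
    unfold crossT; exact div_mul_cancel₀ _ hne
  apply plane_ext
  · simp
  · simp only [pt_one, pa1, pb1, pl1, pc1]; linarith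

lemma Th_triangulation {h : ℝ} (h0 : 0 < h) (h1 : h ≤ 1) : IsTriangulation (Sh h) (Th h) := by
  refine ⟨Th_edgeSet h0 h1, ?_⟩
  intro T' hT' hsub
  obtain ⟨hc0, hc1⟩ := crossT_pos h0 h1
  -- the five forbidden pairs
  have hua : s(pa, pu h) ∉ T' := by
    intro hmem
    have hin : pl h ∈ segment ℝ pa (pu h) := by
      rw [mem_segment_iff]
      refine ⟨(200 - h) / (200 + h), by apply div_nonneg <;> linarith,
        by rw [div_le_one (by linarith)]; linarith, ?_⟩
      apply plane_ext
      · simp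
      · simp only [pt_one, pa1, pl1, pu1]; field_simp; ring
    rcases hT'.only hmem (by rw [mem_Sh]; simp) hin with hh | hh
    · exact (ne_al h0 h1).symm hh
    · exact (ne_ul h0 h1).symm hh
  have had : s(pa, pd) ∉ T' := by
    intro hmem
    have hin : pu h ∈ segment ℝ pa pd := by
      rw [mem_segment_iff]
      refine ⟨(200 + h) / 400, by apply div_nonneg <;> linarith,
        by rw [div_le_one (by norm_num)]; linarith, ?_⟩
      apply plane_ext
      · simp
      · simp only [pt_one, pa1, pd1, pu1]; ring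
    rcases hT'.only hmem (by rw [mem_Sh]; simp) hin with hh | hh
    · exact (ne_au h0 h1).symm hh
    · exact (ne_du h0 h1).symm hh
  have hld : s(pd, pl h) ∉ T' := by
    intro hmem
    have hin : pu h ∈ segment ℝ pd (pl h) := by
      rw [mem_segment_iff]
      refine ⟨(200 - h) / (200 + h), by apply div_nonneg <;> linarith,
        by rw [div_le_one (by linarith)]; linarith, ?_⟩
      apply plane_ext
      · simp
      · simp only [pt_one, pd1, pl1, pu1]; field_simp; ring
    rcases hT'.only hmem (by rw [mem_Sh]; simp) hin with hh | hh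
    · exact (ne_du h0 h1).symm hh
    · exact (ne_ul h0 h1) hh
  have hab : s(pa, pb) ∉ T' := by
    intro hmem
    have hlc : s(pl h, pc) ∈ T' := hsub (by rw [mem_Th]; simp)
    have hne : s(pa, pb) ≠ s(pl h, pc) := by
      intro hh
      rcases Sym2.eq_iff.1 hh with ⟨e1, _⟩ | ⟨e1, _⟩
      · exact (ne_al h0 h1) e1
      · exact (ne_ac h0 h1) e1
    have hz1 : pt pa pb (crossT h) ∈ segment ℝ pa pb := pt_mem hc0.le hc1.le
    have hz2 : pt pa pb (crossT h) ∈ segment ℝ (pl h) pc := by
      rw [cross_ab h0 h1]; exact pt_mem (by linarith) (by linarith)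
    rcases (hT'.meets hmem hlc hne hz1 hz2).1 with hh | hh
    · have := congrArg (fun z : Plane => z 0) hh
      simp at this; linarith
    · have := congrArg (fun z : Plane => z 0) hh
      simp at this; linarith
  have hbd : s(pb, pd) ∉ T' := by
    intro hmem
    rw [Sym2.eq_swap] at hmem
    have huc : s(pu h, pc) ∈ T' := hsub (by rw [mem_Th]; simp)
    have hne : s(pd, pb) ≠ s(pu h, pc) := by
      intro hh
      rcases Sym2.eq_iff.1 hh with ⟨e1, _⟩ | ⟨e1, _⟩
      · exact (ne_du h0 h1) e1
      · exact (ne_cd h0 h1).symm e1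
    have hz1 : pt pd pb (crossT h) ∈ segment ℝ pd pb := pt_mem hc0.le hc1.le
    have hz2 : pt pd pb (crossT h) ∈ segment ℝ (pu h) pc := by
      rw [cross_bd h0 h1]; exact pt_mem (by linarith) (by linarith)
    rcases (hT'.meets hmem huc hne hz1 hz2).1 with hh | hh
    · have := congrArg (fun z : Plane => z 0) hh
      simp at this; linarith
    · have := congrArg (fun z : Plane => z 0) hh
      simp at this; linarith
  intro e he
  have key : ∀ x y : Plane, s(x, y) ∈ T' → s(x, y) ∈ Th h := by
    intro x y hxy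
    have hx := hT'.left_mem hxy
    have hy := hT'.right_mem hxy
    have hnexy := hT'.ne hxy
    rw [mem_Sh] at hx hy
    rcases hx with rfl | rfl | rfl | rfl | rfl | rfl
    · rcases hy with rfl | rfl | rfl | rfl | rfl | rfl
      · exact absurd rfl hnexy
      · exact absurd hxy hab
      · rw [Sym2.eq_swap, mem_Th]; simp
      · exact absurd hxy had
      · exact absurd hxy hua
      · rw [mem_Th]; simp
    · rcases hy with rfl | rfl | rfl | rfl | rfl | rfl
      · exact absurd (by rwa [Sym2.eq_swap]) hab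
      · exact absurd rfl hnexy
      · rw [mem_Th]; simp
      · exact absurd hxy hbd
      · rw [Sym2.eq_swap, mem_Th]; simp
      · rw [Sym2.eq_swap, mem_Th]; simp
    · rcases hy with rfl | rfl | rfl | rfl | rfl | rfl
      · rw [mem_Th]; simp
      · rw [Sym2.eq_swap, mem_Th]; simp
      · exact absurd rfl hnexy
      · rw [Sym2.eq_swap, mem_Th]; simp
      · rw [Sym2.eq_swap, mem_Th]; simp
      · rw [Sym2.eq_swap, mem_Th]; simp
    · rcases hy with rfl | rfl | rfl | rfl | rfl | rfl
      · exact absurd (by rwa [Sym2.eq_swap]) had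
      · exact absurd (by rwa [Sym2.eq_swap]) hbd
      · rw [mem_Th]; simp
      · exact absurd rfl hnexy
      · rw [Sym2.eq_swap, mem_Th]; simp
      · exact absurd hxy hld
    · rcases hy with rfl | rfl | rfl | rfl | rfl | rfl
      · exact absurd (by rwa [Sym2.eq_swap]) hua
      · rw [mem_Th]; simp
      · rw [mem_Th]; simp
      · rw [mem_Th]; simp
      · exact absurd rfl hnexy
      · rw [Sym2.eq_swap, mem_Th]; simp
    · rcases hy with rfl | rfl | rfl | rfl | rfl | rfl
      · rw [Sym2.eq_swap, mem_Th]; simp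
      · rw [mem_Th]; simp
      · rw [mem_Th]; simp
      · exact absurd (by rwa [Sym2.eq_swap]) hld
      · rw [mem_Th]; simp
      · exact absurd rfl hnexy
  induction e using Sym2.ind with
  | _ x y => exact key x y he

lemma Th_steiner {P : Finset Plane} (hP : ∀ x ∈ P, x = pa ∨ x = pb ∨ x = pc ∨ x = pd) {h : ℝ}
    (h0 : 0 < h) (h1 : h ≤ 1) : IsSteinerTriangulation P (Th h) := by
  refine ⟨Sh h, ?_, Th_triangulation h0 h1⟩
  intro x hx
  rw [mem_Sh]
  rcases hP x hx with rfl | rfl | rfl | rfl <;> simp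

lemma dist_eq_sqrt (x y : Plane) : dist x y = √((x 0 - y 0) ^ 2 + (x 1 - y 1) ^ 2) := by
  rw [← dist_sq, Real.sqrt_sq dist_nonneg]

lemma sum_insert_le' [DecidableEq (Sym2 Plane)] (e : Sym2 Plane) (s : Finset (Sym2 Plane)) :
    ∑ x ∈ insert e s, len x ≤ len e + ∑ x ∈ s, len x := by
  by_cases he : e ∈ s
  · rw [Finset.insert_eq_of_mem he]
    linarith [len_nonneg e]
  · rw [Finset.sum_insert he]

lemma dist_ac : dist pa pc = √40016 := by
  rw [dist_eq_sqrt]; congr 1; simp; norm_num
lemma dist_cd : dist pc pd = √40016 := by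
  rw [dist_eq_sqrt]; congr 1; simp; norm_num
lemma dist_da : dist pd pa = 400 := by
  rw [dist_eq_sqrt]
  have : (pd 0 - pa 0) ^ 2 + (pd 1 - pa 1) ^ 2 = (400 : ℝ) ^ 2 := by simp; norm_num
  rw [this, Real.sqrt_sq (by norm_num)]

lemma dist_le_of_sq {x y : Plane} {r : ℝ} (hr : 0 ≤ r)
    (h : (x 0 - y 0) ^ 2 + (x 1 - y 1) ^ 2 ≤ r ^ 2) : dist x y ≤ r := by
  rw [dist_eq_sqrt]
  exact Real.sqrt_le_iff.2 ⟨hr, h⟩

lemma weight_Th {h : ℝ} (h0 : 0 < h) (h1 : h ≤ 1) :
    weight (Th h) ≤ 413 + 2 * √40016 + 4 * h := by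
  classical
  have hsum : weight (Th h) ≤ len s(pa, (pl h)) + (len s((pl h), (pu h)) + (len s((pu h), pd) + (len s(pd, pc) + (len s(pc, pa) + (len s((pu h), pc) + (len s((pu h), pb) + (len s(pb, pc) + (len s((pl h), pb) + (len s((pl h), pc)))))))))) := by
    unfold weight Th
    refine (sum_insert_le' _ _).trans ?_
    refine add_le_add le_rfl ?_
    refine (sum_insert_le' _ _).trans ?_
    refine add_le_add le_rfl ?_
    refine (sum_insert_le' _ _).trans ?_
    refine add_le_add le_rfl ?_
    refine (sum_insert_le' _ _).trans ?_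
    refine add_le_add le_rfl ?_
    refine (sum_insert_le' _ _).trans ?_
    refine add_le_add le_rfl ?_
    refine (sum_insert_le' _ _).trans ?_
    refine add_le_add le_rfl ?_
    refine (sum_insert_le' _ _).trans ?_
    refine add_le_add le_rfl ?_
    refine (sum_insert_le' _ _).trans ?_
    refine add_le_add le_rfl ?_
    refine (sum_insert_le' _ _).trans ?_
    rw [Finset.sum_singleton]
  simp only [len_mk] at hsum
  have d1 : dist pa (pl h) ≤ 200 - h := dist_le_of_sq (by linarith) (by
    simp only [pa0, pa1, pl0, pl1]; nlinarith)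
  have d2 : dist (pl h) (pu h) ≤ 2 * h := dist_le_of_sq (by linarith) (by
    simp only [pu0, pu1, pl0, pl1]; nlinarith)
  have d3 : dist (pu h) pd ≤ 200 - h := dist_le_of_sq (by linarith) (by
    simp only [pu0, pu1, pd0, pd1]; nlinarith)
  have d4 : dist pd pc = √40016 := by rw [dist_comm]; exact dist_cd
  have d5 : dist pc pa = √40016 := by rw [dist_comm]; exact dist_ac
  have d6 : dist (pu h) pc ≤ 4 + h := dist_le_of_sq (by linarith) (by
    simp only [pu0, pu1, pc0, pc1]; nlinarith)
  have d7 : dist (pu h) pb ≤ 1 + h := dist_le_of_sq (by linarith) (by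
    simp only [pu0, pu1, pb0, pb1]; nlinarith)
  have d8 : dist pb pc ≤ 3 := dist_le_of_sq (by norm_num) (by
    simp only [pb0, pb1, pc0, pc1]; norm_num)
  have d9 : dist (pl h) pb ≤ 1 + h := dist_le_of_sq (by linarith) (by
    simp only [pl0, pl1, pb0, pb1]; nlinarith)
  have d10 : dist (pl h) pc ≤ 4 + h := dist_le_of_sq (by linarith) (by
    simp only [pl0, pl1, pc0, pc1]; nlinarith)
  linarith

end Pool.Agent.MWST
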