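import Pool.Agent.MWST.Hull

namespace Pool.Agent.MWST

open Set

/-- The two Steiner points used for the upper bound. -/
noncomputable def pu (h : ℝ) : Plane := !₂[0, h]
noncomputable def pl (h : ℝ) : Plane := !₂[0, -h]

@[simp] lemma pu0 (h : ℝ) : (pu h) 0 = 0 := by simp [pu]
@[simp] lemma pu1 (h : ℝ) : (pu h) 1 = h := by simp [pu]
@[simp] lemma pl0 (h : ℝ) : (pl h) 0 = 0 := by simp [pl]
@[simp] lemma pl1 (h : ℝ) : (pl h) 1 = -h := by simp [pl]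

/-- An affine function on the plane. -/
def aff (α β γ : ℝ) (z : Plane) : ℝ := α * z 0 + β * z 1 + γ

lemma aff_pt (α β γ : ℝ) (x y : Plane) (t : ℝ) :
    aff α β γ (pt x y t) = (1 - t) * aff α β γ x + t * aff α β γ y := by
  unfold aff; simp; ring

lemma not_mem_aff (α β γ : ℝ) {p q x : Plane} (hp : aff α β γ p ≤ 0) (hq : aff α β γ q ≤ 0)
    (hx : 0 < aff α β γ x) : x ∉ segment ℝ p q := by
  intro h
  obtain ⟨t, h0, h1, rfl⟩ := mem_segment_iff.1 h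
  rw [aff_pt] at hx
  nlinarith

lemma sep_aux (α β γ : ℝ) {p q r w z : Plane} (hz1 : z ∈ segment ℝ p q) (hz2 : z ∈ segment ℝ r w)
    (hp : aff α β γ p ≤ 0) (hq : aff α β γ q ≤ 0) (hr : 0 ≤ aff α β γ r) (hw : 0 ≤ aff α β γ w) :
    aff α β γ z = 0 := by
  obtain ⟨t, h0, h1, hz⟩ := mem_segment_iff.1 hz1
  obtain ⟨t', h0', h1', hz'⟩ := mem_segment_iff.1 hz2
  apply le_antisymm
  · rw [hz, aff_pt]; nlinarith
  · rw [hz', aff_pt]; nlinarith [mul_nonneg (sub_nonneg.2 h1') hr, mul_nonneg h0' hw]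

lemma end_of_zero {α β γ : ℝ} {p q z : Plane} (hz1 : z ∈ segment ℝ p q) (h : aff α β γ z = 0)
    (hp : aff α β γ p ≠ 0) (hsign : 0 ≤ aff α β γ p * aff α β γ q) : z = q := by
  obtain ⟨t, h0, h1, hz⟩ := mem_segment_iff.1 hz1
  rw [hz, aff_pt] at h
  have ht : 1 - t = 0 := by
    by_contra hne
    have h1t : 0 < 1 - t := lt_of_le_of_ne (by linarith) (Ne.symm hne)
    have hp2 : 0 < aff α β γ p * aff α β γ p := mul_self_pos.2 hp
    have : (1 - t) * (aff α β γ p * aff α β γ p) + t * (aff α β γ p * aff α β γ q) = 0 := by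
      linear_combination aff α β γ p * h
    have h3 : 0 < (1 - t) * (aff α β γ p * aff α β γ p) := mul_pos h1t hp2
    have h4 : 0 ≤ t * (aff α β γ p * aff α β γ q) := mul_nonneg h0 hsign
    linarith
  have : t = 1 := by linarith
  rw [hz, this, pt_eq_right]

lemma sep0 (α β γ : ℝ) {p q r w z : Plane} (hz1 : z ∈ segment ℝ p q) (hz2 : z ∈ segment ℝ r w)
    (hp : aff α β γ p < 0) (hq : aff α β γ q ≤ 0) (hr : 0 ≤ aff α β γ r) (hw : 0 ≤ aff α β γ w) :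
    z = q :=
  end_of_zero hz1 (sep_aux α β γ hz1 hz2 hp.le hq hr hw) hp.ne (mul_nonneg_of_nonpos_of_nonpos hp.le hq)

lemma sep1 (α β γ : ℝ) {p q r w z : Plane} (hz1 : z ∈ segment ℝ p q) (hz2 : z ∈ segment ℝ r w)
    (hp : aff α β γ p ≤ 0) (hq : aff α β γ q < 0) (hr : 0 ≤ aff α β γ r) (hw : 0 ≤ aff α β γ w) :
    z = p :=
  end_of_zero (by rwa [segment_symm]) (sep_aux α β γ hz1 hz2 hp hq.le hr hw) hq.ne
    (mul_nonneg_of_nonpos_of_nonpos hq.le hp)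

lemma sep2 (α β γ : ℝ) {p q r w z : Plane} (hz1 : z ∈ segment ℝ p q) (hz2 : z ∈ segment ℝ r w)
    (hp : aff α β γ p ≤ 0) (hq : aff α β γ q ≤ 0) (hr : 0 < aff α β γ r) (hw : 0 ≤ aff α β γ w) :
    z = w :=
  end_of_zero hz2 (sep_aux α β γ hz1 hz2 hp hq hr.le hw) hr.ne' (mul_nonneg hr.le hw)

lemma sep3 (α β γ : ℝ) {p q r w z : Plane} (hz1 : z ∈ segment ℝ p q) (hz2 : z ∈ segment ℝ r w)
    (hp : aff α β γ p ≤ 0) (hq : aff α β γ q ≤ 0) (hr : 0 ≤ aff α β γ r) (hw : 0 < aff α β γ w) :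
    z = r :=
  end_of_zero (by rwa [segment_symm]) (sep_aux α β γ hz1 hz2 hp hq hr hw.le) hw.ne'
    (mul_nonneg hw.le hr)

section Example

variable {h : ℝ}

lemma m_al_lu (h0 : 0 < h) (h1 : h ≤ 1) {z : Plane} (hz1 : z ∈ segment ℝ pa (pl h))
    (hz2 : z ∈ segment ℝ (pl h) (pu h)) : z = (pl h) :=
  sep0 (0) (1) (h) hz1 hz2
    (by unfold aff; simp only [pa0, pa1, pb0, pb1, pc0, pc1, pd0, pd1, pu0, pu1, pl0, pl1]; linarith)
    (by unfold aff; simp only [pa0, pa1, pb0, pb1, pc0, pc1, pd0, pd1, pu0, pu1, pl0, pl1]; linarith)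
    (by unfold aff; simp only [pa0, pa1, pb0, pb1, pc0, pc1, pd0, pd1, pu0, pu1, pl0, pl1]; linarith)
    (by unfold aff; simp only [pa0, pa1, pb0, pb1, pc0, pc1, pd0, pd1, pu0, pu1, pl0, pl1]; linarith)

lemma m_al_ud (h0 : 0 < h) (h1 : h ≤ 1) {z : Plane} (hz1 : z ∈ segment ℝ pa (pl h))
    (hz2 : z ∈ segment ℝ (pu h) pd) : z = (pl h) :=
  sep0 (0) (1) (0) hz1 hz2
    (by unfold aff; simp only [pa0, pa1, pb0, pb1, pc0, pc1, pd0, pd1, pu0, pu1, pl0, pl1]; linarith)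
    (by unfold aff; simp only [pa0, pa1, pb0, pb1, pc0, pc1, pd0, pd1, pu0, pu1, pl0, pl1]; linarith)
    (by unfold aff; simp only [pa0, pa1, pb0, pb1, pc0, pc1, pd0, pd1, pu0, pu1, pl0, pl1]; linarith)
    (by unfold aff; simp only [pa0, pa1, pb0, pb1, pc0, pc1, pd0, pd1, pu0, pu1, pl0, pl1]; linarith)

lemma m_al_dc (h0 : 0 < h) (h1 : h ≤ 1) {z : Plane} (hz1 : z ∈ segment ℝ pa (pl h))
    (hz2 : z ∈ segment ℝ pd pc) : z = pd :=
  sep3 (1) (0) (0) hz1 hz2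
    (by unfold aff; simp only [pa0, pa1, pb0, pb1, pc0, pc1, pd0, pd1, pu0, pu1, pl0, pl1]; linarith)
    (by unfold aff; simp only [pa0, pa1, pb0, pb1, pc0, pc1, pd0, pd1, pu0, pu1, pl0, pl1]; linarith)
    (by unfold aff; simp only [pa0, pa1, pb0, pb1, pc0, pc1, pd0, pd1, pu0, pu1, pl0, pl1]; linarith)
    (by unfold aff; simp only [pa0, pa1, pb0, pb1, pc0, pc1, pd0, pd1, pu0, pu1, pl0, pl1]; linarith)

lemma m_al_ca (h0 : 0 < h) (h1 : h ≤ 1) {z : Plane} (hz1 : z ∈ segment ℝ pa (pl h))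
    (hz2 : z ∈ segment ℝ pc pa) : z = pa :=
  sep2 (1) (0) (0) hz1 hz2
    (by unfold aff; simp only [pa0, pa1, pb0, pb1, pc0, pc1, pd0, pd1, pu0, pu1, pl0, pl1]; linarith)
    (by unfold aff; simp only [pa0, pa1, pb0, pb1, pc0, pc1, pd0, pd1, pu0, pu1, pl0, pl1]; linarith)
    (by unfold aff; simp only [pa0, pa1, pb0, pb1, pc0, pc1, pd0, pd1, pu0, pu1, pl0, pl1]; linarith)
    (by unfold aff; simp only [pa0, pa1, pb0, pb1, pc0, pc1, pd0, pd1, pu0, pu1, pl0, pl1]; linarith)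

lemma m_al_uc (h0 : 0 < h) (h1 : h ≤ 1) {z : Plane} (hz1 : z ∈ segment ℝ pa (pl h))
    (hz2 : z ∈ segment ℝ (pu h) pc) : z = (pu h) :=
  sep3 (1) (0) (0) hz1 hz2
    (by unfold aff; simp only [pa0, pa1, pb0, pb1, pc0, pc1, pd0, pd1, pu0, pu1, pl0, pl1]; linarith)
    (by unfold aff; simp only [pa0, pa1, pb0, pb1, pc0, pc1, pd0, pd1, pu0, pu1, pl0, pl1]; linarith)
    (by unfold aff; simp only [pa0, pa1, pb0, pb1, pc0, pc1, pd0, pd1, pu0, pu1, pl0, pl1]; linarith)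
    (by unfold aff; simp only [pa0, pa1, pb0, pb1, pc0, pc1, pd0, pd1, pu0, pu1, pl0, pl1]; linarith)

lemma m_al_ub (h0 : 0 < h) (h1 : h ≤ 1) {z : Plane} (hz1 : z ∈ segment ℝ pa (pl h))
    (hz2 : z ∈ segment ℝ (pu h) pb) : z = (pu h) :=
  sep3 (1) (0) (0) hz1 hz2
    (by unfold aff; simp only [pa0, pa1, pb0, pb1, pc0, pc1, pd0, pd1, pu0, pu1, pl0, pl1]; linarith)
    (by unfold aff; simp only [pa0, pa1, pb0, pb1, pc0, pc1, pd0, pd1, pu0, pu1, pl0, pl1]; linarith)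
    (by unfold aff; simp only [pa0, pa1, pb0, pb1, pc0, pc1, pd0, pd1, pu0, pu1, pl0, pl1]; linarith)
    (by unfold aff; simp only [pa0, pa1, pb0, pb1, pc0, pc1, pd0, pd1, pu0, pu1, pl0, pl1]; linarith)

lemma m_al_bc (h0 : 0 < h) (h1 : h ≤ 1) {z : Plane} (hz1 : z ∈ segment ℝ pa (pl h))
    (hz2 : z ∈ segment ℝ pb pc) : z = pc :=
  sep2 (1) (0) (0) hz1 hz2
    (by unfold aff; simp only [pa0, pa1, pb0, pb1, pc0, pc1, pd0, pd1, pu0, pu1, pl0, pl1]; linarith)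
    (by unfold aff; simp only [pa0, pa1, pb0, pb1, pc0, pc1, pd0, pd1, pu0, pu1, pl0, pl1]; linarith)
    (by unfold aff; simp only [pa0, pa1, pb0, pb1, pc0, pc1, pd0, pd1, pu0, pu1, pl0, pl1]; linarith)
    (by unfold aff; simp only [pa0, pa1, pb0, pb1, pc0, pc1, pd0, pd1, pu0, pu1, pl0, pl1]; linarith)

lemma m_al_lb (h0 : 0 < h) (h1 : h ≤ 1) {z : Plane} (hz1 : z ∈ segment ℝ pa (pl h))
    (hz2 : z ∈ segment ℝ (pl h) pb) : z = (pl h) :=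
  sep3 (1) (0) (0) hz1 hz2
    (by unfold aff; simp only [pa0, pa1, pb0, pb1, pc0, pc1, pd0, pd1, pu0, pu1, pl0, pl1]; linarith)
    (by unfold aff; simp only [pa0, pa1, pb0, pb1, pc0, pc1, pd0, pd1, pu0, pu1, pl0, pl1]; linarith)
    (by unfold aff; simp only [pa0, pa1, pb0, pb1, pc0, pc1, pd0, pd1, pu0, pu1, pl0, pl1]; linarith)
    (by unfold aff; simp only [pa0, pa1, pb0, pb1, pc0, pc1, pd0, pd1, pu0, pu1, pl0, pl1]; linarith)

lemma m_al_lc (h0 : 0 < h) (h1 : h ≤ 1) {z : Plane} (hz1 : z ∈ segment ℝ pa (pl h))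
    (hz2 : z ∈ segment ℝ (pl h) pc) : z = (pl h) :=
  sep3 (1) (0) (0) hz1 hz2
    (by unfold aff; simp only [pa0, pa1, pb0, pb1, pc0, pc1, pd0, pd1, pu0, pu1, pl0, pl1]; linarith)
    (by unfold aff; simp only [pa0, pa1, pb0, pb1, pc0, pc1, pd0, pd1, pu0, pu1, pl0, pl1]; linarith)
    (by unfold aff; simp only [pa0, pa1, pb0, pb1, pc0, pc1, pd0, pd1, pu0, pu1, pl0, pl1]; linarith)
    (by unfold aff; simp only [pa0, pa1, pb0, pb1, pc0, pc1, pd0, pd1, pu0, pu1, pl0, pl1]; linarith)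

lemma m_lu_ud (h0 : 0 < h) (h1 : h ≤ 1) {z : Plane} (hz1 : z ∈ segment ℝ (pl h) (pu h))
    (hz2 : z ∈ segment ℝ (pu h) pd) : z = (pu h) :=
  sep0 (h) (4) ((-4*h)) hz1 hz2
    (by unfold aff; simp only [pa0, pa1, pb0, pb1, pc0, pc1, pd0, pd1, pu0, pu1, pl0, pl1]; linarith)
    (by unfold aff; simp only [pa0, pa1, pb0, pb1, pc0, pc1, pd0, pd1, pu0, pu1, pl0, pl1]; linarith)
    (by unfold aff; simp only [pa0, pa1, pb0, pb1, pc0, pc1, pd0, pd1, pu0, pu1, pl0, pl1]; linarith)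
    (by unfold aff; simp only [pa0, pa1, pb0, pb1, pc0, pc1, pd0, pd1, pu0, pu1, pl0, pl1]; linarith)

lemma m_lu_dc (h0 : 0 < h) (h1 : h ≤ 1) {z : Plane} (hz1 : z ∈ segment ℝ (pl h) (pu h))
    (hz2 : z ∈ segment ℝ pd pc) : z = pd :=
  sep3 (1) (0) (0) hz1 hz2
    (by unfold aff; simp only [pa0, pa1, pb0, pb1, pc0, pc1, pd0, pd1, pu0, pu1, pl0, pl1]; linarith)
    (by unfold aff; simp only [pa0, pa1, pb0, pb1, pc0, pc1, pd0, pd1, pu0, pu1, pl0, pl1]; linarith)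
    (by unfold aff; simp only [pa0, pa1, pb0, pb1, pc0, pc1, pd0, pd1, pu0, pu1, pl0, pl1]; linarith)
    (by unfold aff; simp only [pa0, pa1, pb0, pb1, pc0, pc1, pd0, pd1, pu0, pu1, pl0, pl1]; linarith)

lemma m_lu_ca (h0 : 0 < h) (h1 : h ≤ 1) {z : Plane} (hz1 : z ∈ segment ℝ (pl h) (pu h))
    (hz2 : z ∈ segment ℝ pc pa) : z = pa :=
  sep2 (1) (0) (0) hz1 hz2
    (by unfold aff; simp only [pa0, pa1, pb0, pb1, pc0, pc1, pd0, pd1, pu0, pu1, pl0, pl1]; linarith)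
    (by unfold aff; simp only [pa0, pa1, pb0, pb1, pc0, pc1, pd0, pd1, pu0, pu1, pl0, pl1]; linarith)
    (by unfold aff; simp only [pa0, pa1, pb0, pb1, pc0, pc1, pd0, pd1, pu0, pu1, pl0, pl1]; linarith)
    (by unfold aff; simp only [pa0, pa1, pb0, pb1, pc0, pc1, pd0, pd1, pu0, pu1, pl0, pl1]; linarith)

lemma m_lu_uc (h0 : 0 < h) (h1 : h ≤ 1) {z : Plane} (hz1 : z ∈ segment ℝ (pl h) (pu h))
    (hz2 : z ∈ segment ℝ (pu h) pc) : z = (pu h) :=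
  sep3 (1) (0) (0) hz1 hz2
    (by unfold aff; simp only [pa0, pa1, pb0, pb1, pc0, pc1, pd0, pd1, pu0, pu1, pl0, pl1]; linarith)
    (by unfold aff; simp only [pa0, pa1, pb0, pb1, pc0, pc1, pd0, pd1, pu0, pu1, pl0, pl1]; linarith)
    (by unfold aff; simp only [pa0, pa1, pb0, pb1, pc0, pc1, pd0, pd1, pu0, pu1, pl0, pl1]; linarith)
    (by unfold aff; simp only [pa0, pa1, pb0, pb1, pc0, pc1, pd0, pd1, pu0, pu1, pl0, pl1]; linarith)

lemma m_lu_ub (h0 : 0 < h) (h1 : h ≤ 1) {z : Plane} (hz1 : z ∈ segment ℝ (pl h) (pu h))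
    (hz2 : z ∈ segment ℝ (pu h) pb) : z = (pu h) :=
  sep3 (1) (0) (0) hz1 hz2
    (by unfold aff; simp only [pa0, pa1, pb0, pb1, pc0, pc1, pd0, pd1, pu0, pu1, pl0, pl1]; linarith)
    (by unfold aff; simp only [pa0, pa1, pb0, pb1, pc0, pc1, pd0, pd1, pu0, pu1, pl0, pl1]; linarith)
    (by unfold aff; simp only [pa0, pa1, pb0, pb1, pc0, pc1, pd0, pd1, pu0, pu1, pl0, pl1]; linarith)
    (by unfold aff; simp only [pa0, pa1, pb0, pb1, pc0, pc1, pd0, pd1, pu0, pu1, pl0, pl1]; linarith)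

lemma m_lu_bc (h0 : 0 < h) (h1 : h ≤ 1) {z : Plane} (hz1 : z ∈ segment ℝ (pl h) (pu h))
    (hz2 : z ∈ segment ℝ pb pc) : z = pc :=
  sep2 (1) (0) (0) hz1 hz2
    (by unfold aff; simp only [pa0, pa1, pb0, pb1, pc0, pc1, pd0, pd1, pu0, pu1, pl0, pl1]; linarith)
    (by unfold aff; simp only [pa0, pa1, pb0, pb1, pc0, pc1, pd0, pd1, pu0, pu1, pl0, pl1]; linarith)
    (by unfold aff; simp only [pa0, pa1, pb0, pb1, pc0, pc1, pd0, pd1, pu0, pu1, pl0, pl1]; linarith)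
    (by unfold aff; simp only [pa0, pa1, pb0, pb1, pc0, pc1, pd0, pd1, pu0, pu1, pl0, pl1]; linarith)

lemma m_lu_lb (h0 : 0 < h) (h1 : h ≤ 1) {z : Plane} (hz1 : z ∈ segment ℝ (pl h) (pu h))
    (hz2 : z ∈ segment ℝ (pl h) pb) : z = (pl h) :=
  sep3 (1) (0) (0) hz1 hz2
    (by unfold aff; simp only [pa0, pa1, pb0, pb1, pc0, pc1, pd0, pd1, pu0, pu1, pl0, pl1]; linarith)
    (by unfold aff; simp only [pa0, pa1, pb0, pb1, pc0, pc1, pd0, pd1, pu0, pu1, pl0, pl1]; linarith)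
    (by unfold aff; simp only [pa0, pa1, pb0, pb1, pc0, pc1, pd0, pd1, pu0, pu1, pl0, pl1]; linarith)
    (by unfold aff; simp only [pa0, pa1, pb0, pb1, pc0, pc1, pd0, pd1, pu0, pu1, pl0, pl1]; linarith)

lemma m_lu_lc (h0 : 0 < h) (h1 : h ≤ 1) {z : Plane} (hz1 : z ∈ segment ℝ (pl h) (pu h))
    (hz2 : z ∈ segment ℝ (pl h) pc) : z = (pl h) :=
  sep3 (1) (0) (0) hz1 hz2
    (by unfold aff; simp only [pa0, pa1, pb0, pb1, pc0, pc1, pd0, pd1, pu0, pu1, pl0, pl1]; linarith)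
    (by unfold aff; simp only [pa0, pa1, pb0, pb1, pc0, pc1, pd0, pd1, pu0, pu1, pl0, pl1]; linarith)
    (by unfold aff; simp only [pa0, pa1, pb0, pb1, pc0, pc1, pd0, pd1, pu0, pu1, pl0, pl1]; linarith)
    (by unfold aff; simp only [pa0, pa1, pb0, pb1, pc0, pc1, pd0, pd1, pu0, pu1, pl0, pl1]; linarith)

lemma m_ud_dc (h0 : 0 < h) (h1 : h ≤ 1) {z : Plane} (hz1 : z ∈ segment ℝ (pu h) pd)
    (hz2 : z ∈ segment ℝ pd pc) : z = pd :=
  sep3 (1) (0) (0) hz1 hz2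
    (by unfold aff; simp only [pa0, pa1, pb0, pb1, pc0, pc1, pd0, pd1, pu0, pu1, pl0, pl1]; linarith)
    (by unfold aff; simp only [pa0, pa1, pb0, pb1, pc0, pc1, pd0, pd1, pu0, pu1, pl0, pl1]; linarith)
    (by unfold aff; simp only [pa0, pa1, pb0, pb1, pc0, pc1, pd0, pd1, pu0, pu1, pl0, pl1]; linarith)
    (by unfold aff; simp only [pa0, pa1, pb0, pb1, pc0, pc1, pd0, pd1, pu0, pu1, pl0, pl1]; linarith)

lemma m_ud_ca (h0 : 0 < h) (h1 : h ≤ 1) {z : Plane} (hz1 : z ∈ segment ℝ (pu h) pd)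
    (hz2 : z ∈ segment ℝ pc pa) : z = pa :=
  sep2 (1) (0) (0) hz1 hz2
    (by unfold aff; simp only [pa0, pa1, pb0, pb1, pc0, pc1, pd0, pd1, pu0, pu1, pl0, pl1]; linarith)
    (by unfold aff; simp only [pa0, pa1, pb0, pb1, pc0, pc1, pd0, pd1, pu0, pu1, pl0, pl1]; linarith)
    (by unfold aff; simp only [pa0, pa1, pb0, pb1, pc0, pc1, pd0, pd1, pu0, pu1, pl0, pl1]; linarith)
    (by unfold aff; simp only [pa0, pa1, pb0, pb1, pc0, pc1, pd0, pd1, pu0, pu1, pl0, pl1]; linarith)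

lemma m_ud_uc (h0 : 0 < h) (h1 : h ≤ 1) {z : Plane} (hz1 : z ∈ segment ℝ (pu h) pd)
    (hz2 : z ∈ segment ℝ (pu h) pc) : z = (pu h) :=
  sep3 (1) (0) (0) hz1 hz2
    (by unfold aff; simp only [pa0, pa1, pb0, pb1, pc0, pc1, pd0, pd1, pu0, pu1, pl0, pl1]; linarith)
    (by unfold aff; simp only [pa0, pa1, pb0, pb1, pc0, pc1, pd0, pd1, pu0, pu1, pl0, pl1]; linarith)
    (by unfold aff; simp only [pa0, pa1, pb0, pb1, pc0, pc1, pd0, pd1, pu0, pu1, pl0, pl1]; linarith)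
    (by unfold aff; simp only [pa0, pa1, pb0, pb1, pc0, pc1, pd0, pd1, pu0, pu1, pl0, pl1]; linarith)

lemma m_ud_ub (h0 : 0 < h) (h1 : h ≤ 1) {z : Plane} (hz1 : z ∈ segment ℝ (pu h) pd)
    (hz2 : z ∈ segment ℝ (pu h) pb) : z = (pu h) :=
  sep3 (1) (0) (0) hz1 hz2
    (by unfold aff; simp only [pa0, pa1, pb0, pb1, pc0, pc1, pd0, pd1, pu0, pu1, pl0, pl1]; linarith)
    (by unfold aff; simp only [pa0, pa1, pb0, pb1, pc0, pc1, pd0, pd1, pu0, pu1, pl0, pl1]; linarith)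
    (by unfold aff; simp only [pa0, pa1, pb0, pb1, pc0, pc1, pd0, pd1, pu0, pu1, pl0, pl1]; linarith)
    (by unfold aff; simp only [pa0, pa1, pb0, pb1, pc0, pc1, pd0, pd1, pu0, pu1, pl0, pl1]; linarith)

lemma m_ud_bc (h0 : 0 < h) (h1 : h ≤ 1) {z : Plane} (hz1 : z ∈ segment ℝ (pu h) pd)
    (hz2 : z ∈ segment ℝ pb pc) : z = pc :=
  sep2 (1) (0) (0) hz1 hz2
    (by unfold aff; simp only [pa0, pa1, pb0, pb1, pc0, pc1, pd0, pd1, pu0, pu1, pl0, pl1]; linarith)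
    (by unfold aff; simp only [pa0, pa1, pb0, pb1, pc0, pc1, pd0, pd1, pu0, pu1, pl0, pl1]; linarith)
    (by unfold aff; simp only [pa0, pa1, pb0, pb1, pc0, pc1, pd0, pd1, pu0, pu1, pl0, pl1]; linarith)
    (by unfold aff; simp only [pa0, pa1, pb0, pb1, pc0, pc1, pd0, pd1, pu0, pu1, pl0, pl1]; linarith)

lemma m_ud_lb (h0 : 0 < h) (h1 : h ≤ 1) {z : Plane} (hz1 : z ∈ segment ℝ (pu h) pd)
    (hz2 : z ∈ segment ℝ (pl h) pb) : z = (pl h) :=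
  sep3 (1) (0) (0) hz1 hz2
    (by unfold aff; simp only [pa0, pa1, pb0, pb1, pc0, pc1, pd0, pd1, pu0, pu1, pl0, pl1]; linarith)
    (by unfold aff; simp only [pa0, pa1, pb0, pb1, pc0, pc1, pd0, pd1, pu0, pu1, pl0, pl1]; linarith)
    (by unfold aff; simp only [pa0, pa1, pb0, pb1, pc0, pc1, pd0, pd1, pu0, pu1, pl0, pl1]; linarith)
    (by unfold aff; simp only [pa0, pa1, pb0, pb1, pc0, pc1, pd0, pd1, pu0, pu1, pl0, pl1]; linarith)

lemma m_ud_lc (h0 : 0 < h) (h1 : h ≤ 1) {z : Plane} (hz1 : z ∈ segment ℝ (pu h) pd)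
    (hz2 : z ∈ segment ℝ (pl h) pc) : z = (pl h) :=
  sep3 (1) (0) (0) hz1 hz2
    (by unfold aff; simp only [pa0, pa1, pb0, pb1, pc0, pc1, pd0, pd1, pu0, pu1, pl0, pl1]; linarith)
    (by unfold aff; simp only [pa0, pa1, pb0, pb1, pc0, pc1, pd0, pd1, pu0, pu1, pl0, pl1]; linarith)
    (by unfold aff; simp only [pa0, pa1, pb0, pb1, pc0, pc1, pd0, pd1, pu0, pu1, pl0, pl1]; linarith)
    (by unfold aff; simp only [pa0, pa1, pb0, pb1, pc0, pc1, pd0, pd1, pu0, pu1, pl0, pl1]; linarith)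

lemma m_dc_ca (h0 : 0 < h) (h1 : h ≤ 1) {z : Plane} (hz1 : z ∈ segment ℝ pd pc)
    (hz2 : z ∈ segment ℝ pc pa) : z = pc :=
  sep0 (h) ((-4)) ((-4*h)) hz1 hz2
    (by unfold aff; simp only [pa0, pa1, pb0, pb1, pc0, pc1, pd0, pd1, pu0, pu1, pl0, pl1]; linarith)
    (by unfold aff; simp only [pa0, pa1, pb0, pb1, pc0, pc1, pd0, pd1, pu0, pu1, pl0, pl1]; linarith)
    (by unfold aff; simp only [pa0, pa1, pb0, pb1, pc0, pc1, pd0, pd1, pu0, pu1, pl0, pl1]; linarith)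
    (by unfold aff; simp only [pa0, pa1, pb0, pb1, pc0, pc1, pd0, pd1, pu0, pu1, pl0, pl1]; linarith)

lemma m_dc_uc (h0 : 0 < h) (h1 : h ≤ 1) {z : Plane} (hz1 : z ∈ segment ℝ pd pc)
    (hz2 : z ∈ segment ℝ (pu h) pc) : z = pc :=
  sep0 ((-(h))) ((-(4))) ((-((-4*h)))) hz1 hz2
    (by unfold aff; simp only [pa0, pa1, pb0, pb1, pc0, pc1, pd0, pd1, pu0, pu1, pl0, pl1]; linarith)
    (by unfold aff; simp only [pa0, pa1, pb0, pb1, pc0, pc1, pd0, pd1, pu0, pu1, pl0, pl1]; linarith)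
    (by unfold aff; simp only [pa0, pa1, pb0, pb1, pc0, pc1, pd0, pd1, pu0, pu1, pl0, pl1]; linarith)
    (by unfold aff; simp only [pa0, pa1, pb0, pb1, pc0, pc1, pd0, pd1, pu0, pu1, pl0, pl1]; linarith)

lemma m_dc_ub (h0 : 0 < h) (h1 : h ≤ 1) {z : Plane} (hz1 : z ∈ segment ℝ pd pc)
    (hz2 : z ∈ segment ℝ (pu h) pb) : z = pc :=
  sep0 ((-(h))) ((-(4))) ((-((-4*h)))) hz1 hz2
    (by unfold aff; simp only [pa0, pa1, pb0, pb1, pc0, pc1, pd0, pd1, pu0, pu1, pl0, pl1]; linarith)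
    (by unfold aff; simp only [pa0, pa1, pb0, pb1, pc0, pc1, pd0, pd1, pu0, pu1, pl0, pl1]; linarith)
    (by unfold aff; simp only [pa0, pa1, pb0, pb1, pc0, pc1, pd0, pd1, pu0, pu1, pl0, pl1]; linarith)
    (by unfold aff; simp only [pa0, pa1, pb0, pb1, pc0, pc1, pd0, pd1, pu0, pu1, pl0, pl1]; linarith)

lemma m_dc_bc (h0 : 0 < h) (h1 : h ≤ 1) {z : Plane} (hz1 : z ∈ segment ℝ pd pc)
    (hz2 : z ∈ segment ℝ pb pc) : z = pc :=
  sep0 ((-(0))) ((-(1))) ((-(0))) hz1 hz2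
    (by unfold aff; simp only [pa0, pa1, pb0, pb1, pc0, pc1, pd0, pd1, pu0, pu1, pl0, pl1]; linarith)
    (by unfold aff; simp only [pa0, pa1, pb0, pb1, pc0, pc1, pd0, pd1, pu0, pu1, pl0, pl1]; linarith)
    (by unfold aff; simp only [pa0, pa1, pb0, pb1, pc0, pc1, pd0, pd1, pu0, pu1, pl0, pl1]; linarith)
    (by unfold aff; simp only [pa0, pa1, pb0, pb1, pc0, pc1, pd0, pd1, pu0, pu1, pl0, pl1]; linarith)

lemma m_dc_lb (h0 : 0 < h) (h1 : h ≤ 1) {z : Plane} (hz1 : z ∈ segment ℝ pd pc)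
    (hz2 : z ∈ segment ℝ (pl h) pb) : z = pc :=
  sep0 ((-(0))) ((-(1))) ((-(0))) hz1 hz2
    (by unfold aff; simp only [pa0, pa1, pb0, pb1, pc0, pc1, pd0, pd1, pu0, pu1, pl0, pl1]; linarith)
    (by unfold aff; simp only [pa0, pa1, pb0, pb1, pc0, pc1, pd0, pd1, pu0, pu1, pl0, pl1]; linarith)
    (by unfold aff; simp only [pa0, pa1, pb0, pb1, pc0, pc1, pd0, pd1, pu0, pu1, pl0, pl1]; linarith)
    (by unfold aff; simp only [pa0, pa1, pb0, pb1, pc0, pc1, pd0, pd1, pu0, pu1, pl0, pl1]; linarith)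

lemma m_dc_lc (h0 : 0 < h) (h1 : h ≤ 1) {z : Plane} (hz1 : z ∈ segment ℝ pd pc)
    (hz2 : z ∈ segment ℝ (pl h) pc) : z = pc :=
  sep0 (h) ((-4)) ((-4*h)) hz1 hz2
    (by unfold aff; simp only [pa0, pa1, pb0, pb1, pc0, pc1, pd0, pd1, pu0, pu1, pl0, pl1]; linarith)
    (by unfold aff; simp only [pa0, pa1, pb0, pb1, pc0, pc1, pd0, pd1, pu0, pu1, pl0, pl1]; linarith)
    (by unfold aff; simp only [pa0, pa1, pb0, pb1, pc0, pc1, pd0, pd1, pu0, pu1, pl0, pl1]; linarith)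
    (by unfold aff; simp only [pa0, pa1, pb0, pb1, pc0, pc1, pd0, pd1, pu0, pu1, pl0, pl1]; linarith)

lemma m_ca_uc (h0 : 0 < h) (h1 : h ≤ 1) {z : Plane} (hz1 : z ∈ segment ℝ pc pa)
    (hz2 : z ∈ segment ℝ (pu h) pc) : z = pc :=
  sep1 (0) (1) (0) hz1 hz2
    (by unfold aff; simp only [pa0, pa1, pb0, pb1, pc0, pc1, pd0, pd1, pu0, pu1, pl0, pl1]; linarith)
    (by unfold aff; simp only [pa0, pa1, pb0, pb1, pc0, pc1, pd0, pd1, pu0, pu1, pl0, pl1]; linarith)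
    (by unfold aff; simp only [pa0, pa1, pb0, pb1, pc0, pc1, pd0, pd1, pu0, pu1, pl0, pl1]; linarith)
    (by unfold aff; simp only [pa0, pa1, pb0, pb1, pc0, pc1, pd0, pd1, pu0, pu1, pl0, pl1]; linarith)

lemma m_ca_ub (h0 : 0 < h) (h1 : h ≤ 1) {z : Plane} (hz1 : z ∈ segment ℝ pc pa)
    (hz2 : z ∈ segment ℝ (pu h) pb) : z = pc :=
  sep1 (0) (1) (0) hz1 hz2
    (by unfold aff; simp only [pa0, pa1, pb0, pb1, pc0, pc1, pd0, pd1, pu0, pu1, pl0, pl1]; linarith)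
    (by unfold aff; simp only [pa0, pa1, pb0, pb1, pc0, pc1, pd0, pd1, pu0, pu1, pl0, pl1]; linarith)
    (by unfold aff; simp only [pa0, pa1, pb0, pb1, pc0, pc1, pd0, pd1, pu0, pu1, pl0, pl1]; linarith)
    (by unfold aff; simp only [pa0, pa1, pb0, pb1, pc0, pc1, pd0, pd1, pu0, pu1, pl0, pl1]; linarith)

lemma m_ca_bc (h0 : 0 < h) (h1 : h ≤ 1) {z : Plane} (hz1 : z ∈ segment ℝ pc pa)
    (hz2 : z ∈ segment ℝ pb pc) : z = pc :=
  sep1 (0) (1) (0) hz1 hz2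
    (by unfold aff; simp only [pa0, pa1, pb0, pb1, pc0, pc1, pd0, pd1, pu0, pu1, pl0, pl1]; linarith)
    (by unfold aff; simp only [pa0, pa1, pb0, pb1, pc0, pc1, pd0, pd1, pu0, pu1, pl0, pl1]; linarith)
    (by unfold aff; simp only [pa0, pa1, pb0, pb1, pc0, pc1, pd0, pd1, pu0, pu1, pl0, pl1]; linarith)
    (by unfold aff; simp only [pa0, pa1, pb0, pb1, pc0, pc1, pd0, pd1, pu0, pu1, pl0, pl1]; linarith)

lemma m_ca_lb (h0 : 0 < h) (h1 : h ≤ 1) {z : Plane} (hz1 : z ∈ segment ℝ pc pa)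
    (hz2 : z ∈ segment ℝ (pl h) pb) : z = pc :=
  sep1 ((-(h))) ((-((-4)))) ((-((-4*h)))) hz1 hz2
    (by unfold aff; simp only [pa0, pa1, pb0, pb1, pc0, pc1, pd0, pd1, pu0, pu1, pl0, pl1]; linarith)
    (by unfold aff; simp only [pa0, pa1, pb0, pb1, pc0, pc1, pd0, pd1, pu0, pu1, pl0, pl1]; linarith)
    (by unfold aff; simp only [pa0, pa1, pb0, pb1, pc0, pc1, pd0, pd1, pu0, pu1, pl0, pl1]; linarith)
    (by unfold aff; simp only [pa0, pa1, pb0, pb1, pc0, pc1, pd0, pd1, pu0, pu1, pl0, pl1]; linarith)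

lemma m_ca_lc (h0 : 0 < h) (h1 : h ≤ 1) {z : Plane} (hz1 : z ∈ segment ℝ pc pa)
    (hz2 : z ∈ segment ℝ (pl h) pc) : z = pc :=
  sep1 ((-(h))) ((-((-4)))) ((-((-4*h)))) hz1 hz2
    (by unfold aff; simp only [pa0, pa1, pb0, pb1, pc0, pc1, pd0, pd1, pu0, pu1, pl0, pl1]; linarith)
    (by unfold aff; simp only [pa0, pa1, pb0, pb1, pc0, pc1, pd0, pd1, pu0, pu1, pl0, pl1]; linarith)
    (by unfold aff; simp only [pa0, pa1, pb0, pb1, pc0, pc1, pd0, pd1, pu0, pu1, pl0, pl1]; linarith)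
    (by unfold aff; simp only [pa0, pa1, pb0, pb1, pc0, pc1, pd0, pd1, pu0, pu1, pl0, pl1]; linarith)

lemma m_uc_ub (h0 : 0 < h) (h1 : h ≤ 1) {z : Plane} (hz1 : z ∈ segment ℝ (pu h) pc)
    (hz2 : z ∈ segment ℝ (pu h) pb) : z = (pu h) :=
  sep3 ((-(h))) ((-(4))) ((-((-4*h)))) hz1 hz2
    (by unfold aff; simp only [pa0, pa1, pb0, pb1, pc0, pc1, pd0, pd1, pu0, pu1, pl0, pl1]; linarith)
    (by unfold aff; simp only [pa0, pa1, pb0, pb1, pc0, pc1, pd0, pd1, pu0, pu1, pl0, pl1]; linarith)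
    (by unfold aff; simp only [pa0, pa1, pb0, pb1, pc0, pc1, pd0, pd1, pu0, pu1, pl0, pl1]; linarith)
    (by unfold aff; simp only [pa0, pa1, pb0, pb1, pc0, pc1, pd0, pd1, pu0, pu1, pl0, pl1]; linarith)

lemma m_uc_bc (h0 : 0 < h) (h1 : h ≤ 1) {z : Plane} (hz1 : z ∈ segment ℝ (pu h) pc)
    (hz2 : z ∈ segment ℝ pb pc) : z = pc :=
  sep0 ((-(0))) ((-(1))) ((-(0))) hz1 hz2
    (by unfold aff; simp only [pa0, pa1, pb0, pb1, pc0, pc1, pd0, pd1, pu0, pu1, pl0, pl1]; linarith)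
    (by unfold aff; simp only [pa0, pa1, pb0, pb1, pc0, pc1, pd0, pd1, pu0, pu1, pl0, pl1]; linarith)
    (by unfold aff; simp only [pa0, pa1, pb0, pb1, pc0, pc1, pd0, pd1, pu0, pu1, pl0, pl1]; linarith)
    (by unfold aff; simp only [pa0, pa1, pb0, pb1, pc0, pc1, pd0, pd1, pu0, pu1, pl0, pl1]; linarith)

lemma m_uc_lb (h0 : 0 < h) (h1 : h ≤ 1) {z : Plane} (hz1 : z ∈ segment ℝ (pu h) pc)
    (hz2 : z ∈ segment ℝ (pl h) pb) : z = pc :=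
  sep0 ((-(0))) ((-(1))) ((-(0))) hz1 hz2
    (by unfold aff; simp only [pa0, pa1, pb0, pb1, pc0, pc1, pd0, pd1, pu0, pu1, pl0, pl1]; linarith)
    (by unfold aff; simp only [pa0, pa1, pb0, pb1, pc0, pc1, pd0, pd1, pu0, pu1, pl0, pl1]; linarith)
    (by unfold aff; simp only [pa0, pa1, pb0, pb1, pc0, pc1, pd0, pd1, pu0, pu1, pl0, pl1]; linarith)
    (by unfold aff; simp only [pa0, pa1, pb0, pb1, pc0, pc1, pd0, pd1, pu0, pu1, pl0, pl1]; linarith)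

lemma m_uc_lc (h0 : 0 < h) (h1 : h ≤ 1) {z : Plane} (hz1 : z ∈ segment ℝ (pu h) pc)
    (hz2 : z ∈ segment ℝ (pl h) pc) : z = pc :=
  sep0 (h) ((-4)) ((-4*h)) hz1 hz2
    (by unfold aff; simp only [pa0, pa1, pb0, pb1, pc0, pc1, pd0, pd1, pu0, pu1, pl0, pl1]; linarith)
    (by unfold aff; simp only [pa0, pa1, pb0, pb1, pc0, pc1, pd0, pd1, pu0, pu1, pl0, pl1]; linarith)
    (by unfold aff; simp only [pa0, pa1, pb0, pb1, pc0, pc1, pd0, pd1, pu0, pu1, pl0, pl1]; linarith)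
    (by unfold aff; simp only [pa0, pa1, pb0, pb1, pc0, pc1, pd0, pd1, pu0, pu1, pl0, pl1]; linarith)

lemma m_ub_bc (h0 : 0 < h) (h1 : h ≤ 1) {z : Plane} (hz1 : z ∈ segment ℝ (pu h) pb)
    (hz2 : z ∈ segment ℝ pb pc) : z = pb :=
  sep3 (h) (1) ((-h)) hz1 hz2
    (by unfold aff; simp only [pa0, pa1, pb0, pb1, pc0, pc1, pd0, pd1, pu0, pu1, pl0, pl1]; linarith)
    (by unfold aff; simp only [pa0, pa1, pb0, pb1, pc0, pc1, pd0, pd1, pu0, pu1, pl0, pl1]; linarith)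
    (by unfold aff; simp only [pa0, pa1, pb0, pb1, pc0, pc1, pd0, pd1, pu0, pu1, pl0, pl1]; linarith)
    (by unfold aff; simp only [pa0, pa1, pb0, pb1, pc0, pc1, pd0, pd1, pu0, pu1, pl0, pl1]; linarith)

lemma m_ub_lb (h0 : 0 < h) (h1 : h ≤ 1) {z : Plane} (hz1 : z ∈ segment ℝ (pu h) pb)
    (hz2 : z ∈ segment ℝ (pl h) pb) : z = pb :=
  sep0 (h) ((-1)) ((-h)) hz1 hz2
    (by unfold aff; simp only [pa0, pa1, pb0, pb1, pc0, pc1, pd0, pd1, pu0, pu1, pl0, pl1]; linarith)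
    (by unfold aff; simp only [pa0, pa1, pb0, pb1, pc0, pc1, pd0, pd1, pu0, pu1, pl0, pl1]; linarith)
    (by unfold aff; simp only [pa0, pa1, pb0, pb1, pc0, pc1, pd0, pd1, pu0, pu1, pl0, pl1]; linarith)
    (by unfold aff; simp only [pa0, pa1, pb0, pb1, pc0, pc1, pd0, pd1, pu0, pu1, pl0, pl1]; linarith)

lemma m_ub_lc (h0 : 0 < h) (h1 : h ≤ 1) {z : Plane} (hz1 : z ∈ segment ℝ (pu h) pb)
    (hz2 : z ∈ segment ℝ (pl h) pc) : z = pb :=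
  sep0 (h) ((-4)) ((-4*h)) hz1 hz2
    (by unfold aff; simp only [pa0, pa1, pb0, pb1, pc0, pc1, pd0, pd1, pu0, pu1, pl0, pl1]; linarith)
    (by unfold aff; simp only [pa0, pa1, pb0, pb1, pc0, pc1, pd0, pd1, pu0, pu1, pl0, pl1]; linarith)
    (by unfold aff; simp only [pa0, pa1, pb0, pb1, pc0, pc1, pd0, pd1, pu0, pu1, pl0, pl1]; linarith)
    (by unfold aff; simp only [pa0, pa1, pb0, pb1, pc0, pc1, pd0, pd1, pu0, pu1, pl0, pl1]; linarith)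

lemma m_bc_lb (h0 : 0 < h) (h1 : h ≤ 1) {z : Plane} (hz1 : z ∈ segment ℝ pb pc)
    (hz2 : z ∈ segment ℝ (pl h) pb) : z = pb :=
  sep2 ((-(0))) ((-(1))) ((-(0))) hz1 hz2
    (by unfold aff; simp only [pa0, pa1, pb0, pb1, pc0, pc1, pd0, pd1, pu0, pu1, pl0, pl1]; linarith)
    (by unfold aff; simp only [pa0, pa1, pb0, pb1, pc0, pc1, pd0, pd1, pu0, pu1, pl0, pl1]; linarith)
    (by unfold aff; simp only [pa0, pa1, pb0, pb1, pc0, pc1, pd0, pd1, pu0, pu1, pl0, pl1]; linarith)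
    (by unfold aff; simp only [pa0, pa1, pb0, pb1, pc0, pc1, pd0, pd1, pu0, pu1, pl0, pl1]; linarith)

lemma m_bc_lc (h0 : 0 < h) (h1 : h ≤ 1) {z : Plane} (hz1 : z ∈ segment ℝ pb pc)
    (hz2 : z ∈ segment ℝ (pl h) pc) : z = pc :=
  sep0 (h) ((-4)) ((-4*h)) hz1 hz2
    (by unfold aff; simp only [pa0, pa1, pb0, pb1, pc0, pc1, pd0, pd1, pu0, pu1, pl0, pl1]; linarith)
    (by unfold aff; simp only [pa0, pa1, pb0, pb1, pc0, pc1, pd0, pd1, pu0, pu1, pl0, pl1]; linarith)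
    (by unfold aff; simp only [pa0, pa1, pb0, pb1, pc0, pc1, pd0, pd1, pu0, pu1, pl0, pl1]; linarith)
    (by unfold aff; simp only [pa0, pa1, pb0, pb1, pc0, pc1, pd0, pd1, pu0, pu1, pl0, pl1]; linarith)

lemma m_lb_lc (h0 : 0 < h) (h1 : h ≤ 1) {z : Plane} (hz1 : z ∈ segment ℝ (pl h) pb)
    (hz2 : z ∈ segment ℝ (pl h) pc) : z = (pl h) :=
  sep1 (h) ((-4)) ((-4*h)) hz1 hz2
    (by unfold aff; simp only [pa0, pa1, pb0, pb1, pc0, pc1, pd0, pd1, pu0, pu1, pl0, pl1]; linarith)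
    (by unfold aff; simp only [pa0, pa1, pb0, pb1, pc0, pc1, pd0, pd1, pu0, pu1, pl0, pl1]; linarith)
    (by unfold aff; simp only [pa0, pa1, pb0, pb1, pc0, pc1, pd0, pd1, pu0, pu1, pl0, pl1]; linarith)
    (by unfold aff; simp only [pa0, pa1, pb0, pb1, pc0, pc1, pd0, pd1, pu0, pu1, pl0, pl1]; linarith)

lemma o_al_b (h0 : 0 < h) (h1 : h ≤ 1) : pb ∉ segment ℝ pa (pl h) :=
  not_mem_aff (1) (0) (0) (by unfold aff; simp only [pa0, pa1, pb0, pb1, pc0, pc1, pd0, pd1, pu0, pu1, pl0, pl1]; linarith) (by unfold aff; simp only [pa0, pa1, pb0, pb1, pc0, pc1, pd0, pd1, pu0, pu1, pl0, pl1]; linarith) (by unfold aff; simp only [pa0, pa1, pb0, pb1, pc0, pc1, pd0, pd1, pu0, pu1, pl0, pl1]; linarith)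

lemma o_al_c (h0 : 0 < h) (h1 : h ≤ 1) : pc ∉ segment ℝ pa (pl h) :=
  not_mem_aff (1) (0) (0) (by unfold aff; simp only [pa0, pa1, pb0, pb1, pc0, pc1, pd0, pd1, pu0, pu1, pl0, pl1]; linarith) (by unfold aff; simp only [pa0, pa1, pb0, pb1, pc0, pc1, pd0, pd1, pu0, pu1, pl0, pl1]; linarith) (by unfold aff; simp only [pa0, pa1, pb0, pb1, pc0, pc1, pd0, pd1, pu0, pu1, pl0, pl1]; linarith)

lemma o_al_d (h0 : 0 < h) (h1 : h ≤ 1) : pd ∉ segment ℝ pa (pl h) :=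
  not_mem_aff (0) (1) (0) (by unfold aff; simp only [pa0, pa1, pb0, pb1, pc0, pc1, pd0, pd1, pu0, pu1, pl0, pl1]; linarith) (by unfold aff; simp only [pa0, pa1, pb0, pb1, pc0, pc1, pd0, pd1, pu0, pu1, pl0, pl1]; linarith) (by unfold aff; simp only [pa0, pa1, pb0, pb1, pc0, pc1, pd0, pd1, pu0, pu1, pl0, pl1]; linarith)

lemma o_al_u (h0 : 0 < h) (h1 : h ≤ 1) : (pu h) ∉ segment ℝ pa (pl h) :=
  not_mem_aff (0) (1) (0) (by unfold aff; simp only [pa0, pa1, pb0, pb1, pc0, pc1, pd0, pd1, pu0, pu1, pl0, pl1]; linarith) (by unfold aff; simp only [pa0, pa1, pb0, pb1, pc0, pc1, pd0, pd1, pu0, pu1, pl0, pl1]; linarith) (by unfold aff; simp only [pa0, pa1, pb0, pb1, pc0, pc1, pd0, pd1, pu0, pu1, pl0, pl1]; linarith)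

lemma o_lu_a (h0 : 0 < h) (h1 : h ≤ 1) : pa ∉ segment ℝ (pl h) (pu h) :=
  not_mem_aff (h) ((-4)) ((-4*h)) (by unfold aff; simp only [pa0, pa1, pb0, pb1, pc0, pc1, pd0, pd1, pu0, pu1, pl0, pl1]; linarith) (by unfold aff; simp only [pa0, pa1, pb0, pb1, pc0, pc1, pd0, pd1, pu0, pu1, pl0, pl1]; linarith) (by unfold aff; simp only [pa0, pa1, pb0, pb1, pc0, pc1, pd0, pd1, pu0, pu1, pl0, pl1]; linarith)

lemma o_lu_b (h0 : 0 < h) (h1 : h ≤ 1) : pb ∉ segment ℝ (pl h) (pu h) :=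
  not_mem_aff (1) (0) (0) (by unfold aff; simp only [pa0, pa1, pb0, pb1, pc0, pc1, pd0, pd1, pu0, pu1, pl0, pl1]; linarith) (by unfold aff; simp only [pa0, pa1, pb0, pb1, pc0, pc1, pd0, pd1, pu0, pu1, pl0, pl1]; linarith) (by unfold aff; simp only [pa0, pa1, pb0, pb1, pc0, pc1, pd0, pd1, pu0, pu1, pl0, pl1]; linarith)

lemma o_lu_c (h0 : 0 < h) (h1 : h ≤ 1) : pc ∉ segment ℝ (pl h) (pu h) :=
  not_mem_aff (1) (0) (0) (by unfold aff; simp only [pa0, pa1, pb0, pb1, pc0, pc1, pd0, pd1, pu0, pu1, pl0, pl1]; linarith) (by unfold aff; simp only [pa0, pa1, pb0, pb1, pc0, pc1, pd0, pd1, pu0, pu1, pl0, pl1]; linarith) (by unfold aff; simp only [pa0, pa1, pb0, pb1, pc0, pc1, pd0, pd1, pu0, pu1, pl0, pl1]; linarith)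

lemma o_lu_d (h0 : 0 < h) (h1 : h ≤ 1) : pd ∉ segment ℝ (pl h) (pu h) :=
  not_mem_aff (h) (4) ((-4*h)) (by unfold aff; simp only [pa0, pa1, pb0, pb1, pc0, pc1, pd0, pd1, pu0, pu1, pl0, pl1]; linarith) (by unfold aff; simp only [pa0, pa1, pb0, pb1, pc0, pc1, pd0, pd1, pu0, pu1, pl0, pl1]; linarith) (by unfold aff; simp only [pa0, pa1, pb0, pb1, pc0, pc1, pd0, pd1, pu0, pu1, pl0, pl1]; linarith)

lemma o_ud_a (h0 : 0 < h) (h1 : h ≤ 1) : pa ∉ segment ℝ (pu h) pd :=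
  not_mem_aff (h) ((-4)) ((-4*h)) (by unfold aff; simp only [pa0, pa1, pb0, pb1, pc0, pc1, pd0, pd1, pu0, pu1, pl0, pl1]; linarith) (by unfold aff; simp only [pa0, pa1, pb0, pb1, pc0, pc1, pd0, pd1, pu0, pu1, pl0, pl1]; linarith) (by unfold aff; simp only [pa0, pa1, pb0, pb1, pc0, pc1, pd0, pd1, pu0, pu1, pl0, pl1]; linarith)

lemma o_ud_b (h0 : 0 < h) (h1 : h ≤ 1) : pb ∉ segment ℝ (pu h) pd :=
  not_mem_aff (1) (0) (0) (by unfold aff; simp only [pa0, pa1, pb0, pb1, pc0, pc1, pd0, pd1, pu0, pu1, pl0, pl1]; linarith) (by unfold aff; simp only [pa0, pa1, pb0, pb1, pc0, pc1, pd0, pd1, pu0, pu1, pl0, pl1]; linarith) (by unfold aff; simp only [pa0, pa1, pb0, pb1, pc0, pc1, pd0, pd1, pu0, pu1, pl0, pl1]; linarith)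

lemma o_ud_c (h0 : 0 < h) (h1 : h ≤ 1) : pc ∉ segment ℝ (pu h) pd :=
  not_mem_aff (1) (0) (0) (by unfold aff; simp only [pa0, pa1, pb0, pb1, pc0, pc1, pd0, pd1, pu0, pu1, pl0, pl1]; linarith) (by unfold aff; simp only [pa0, pa1, pb0, pb1, pc0, pc1, pd0, pd1, pu0, pu1, pl0, pl1]; linarith) (by unfold aff; simp only [pa0, pa1, pb0, pb1, pc0, pc1, pd0, pd1, pu0, pu1, pl0, pl1]; linarith)

lemma o_ud_l (h0 : 0 < h) (h1 : h ≤ 1) : (pl h) ∉ segment ℝ (pu h) pd :=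
  not_mem_aff ((-(0))) ((-(1))) ((-(0))) (by unfold aff; simp only [pa0, pa1, pb0, pb1, pc0, pc1, pd0, pd1, pu0, pu1, pl0, pl1]; linarith) (by unfold aff; simp only [pa0, pa1, pb0, pb1, pc0, pc1, pd0, pd1, pu0, pu1, pl0, pl1]; linarith) (by unfold aff; simp only [pa0, pa1, pb0, pb1, pc0, pc1, pd0, pd1, pu0, pu1, pl0, pl1]; linarith)

lemma o_dc_a (h0 : 0 < h) (h1 : h ≤ 1) : pa ∉ segment ℝ pd pc :=
  not_mem_aff (h) ((-4)) ((-4*h)) (by unfold aff; simp only [pa0, pa1, pb0, pb1, pc0, pc1, pd0, pd1, pu0, pu1, pl0, pl1]; linarith) (by unfold aff; simp only [pa0, pa1, pb0, pb1, pc0, pc1, pd0, pd1, pu0, pu1, pl0, pl1]; linarith) (by unfold aff; simp only [pa0, pa1, pb0, pb1, pc0, pc1, pd0, pd1, pu0, pu1, pl0, pl1]; linarith)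

lemma o_dc_b (h0 : 0 < h) (h1 : h ≤ 1) : pb ∉ segment ℝ pd pc :=
  not_mem_aff ((-(h))) ((-(4))) ((-((-4*h)))) (by unfold aff; simp only [pa0, pa1, pb0, pb1, pc0, pc1, pd0, pd1, pu0, pu1, pl0, pl1]; linarith) (by unfold aff; simp only [pa0, pa1, pb0, pb1, pc0, pc1, pd0, pd1, pu0, pu1, pl0, pl1]; linarith) (by unfold aff; simp only [pa0, pa1, pb0, pb1, pc0, pc1, pd0, pd1, pu0, pu1, pl0, pl1]; linarith)

lemma o_dc_u (h0 : 0 < h) (h1 : h ≤ 1) : (pu h) ∉ segment ℝ pd pc :=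
  not_mem_aff ((-(50))) ((-(1))) ((-((-200)))) (by unfold aff; simp only [pa0, pa1, pb0, pb1, pc0, pc1, pd0, pd1, pu0, pu1, pl0, pl1]; linarith) (by unfold aff; simp only [pa0, pa1, pb0, pb1, pc0, pc1, pd0, pd1, pu0, pu1, pl0, pl1]; linarith) (by unfold aff; simp only [pa0, pa1, pb0, pb1, pc0, pc1, pd0, pd1, pu0, pu1, pl0, pl1]; linarith)

lemma o_dc_l (h0 : 0 < h) (h1 : h ≤ 1) : (pl h) ∉ segment ℝ pd pc :=
  not_mem_aff ((-(0))) ((-(1))) ((-(0))) (by unfold aff; simp only [pa0, pa1, pb0, pb1, pc0, pc1, pd0, pd1, pu0, pu1, pl0, pl1]; linarith) (by unfold aff; simp only [pa0, pa1, pb0, pb1, pc0, pc1, pd0, pd1, pu0, pu1, pl0, pl1]; linarith) (by unfold aff; simp only [pa0, pa1, pb0, pb1, pc0, pc1, pd0, pd1, pu0, pu1, pl0, pl1]; linarith)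

lemma o_ca_b (h0 : 0 < h) (h1 : h ≤ 1) : pb ∉ segment ℝ pc pa :=
  not_mem_aff ((-(h))) ((-((-4)))) ((-((-4*h)))) (by unfold aff; simp only [pa0, pa1, pb0, pb1, pc0, pc1, pd0, pd1, pu0, pu1, pl0, pl1]; linarith) (by unfold aff; simp only [pa0, pa1, pb0, pb1, pc0, pc1, pd0, pd1, pu0, pu1, pl0, pl1]; linarith) (by unfold aff; simp only [pa0, pa1, pb0, pb1, pc0, pc1, pd0, pd1, pu0, pu1, pl0, pl1]; linarith)

lemma o_ca_d (h0 : 0 < h) (h1 : h ≤ 1) : pd ∉ segment ℝ pc pa :=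
  not_mem_aff (0) (1) (0) (by unfold aff; simp only [pa0, pa1, pb0, pb1, pc0, pc1, pd0, pd1, pu0, pu1, pl0, pl1]; linarith) (by unfold aff; simp only [pa0, pa1, pb0, pb1, pc0, pc1, pd0, pd1, pu0, pu1, pl0, pl1]; linarith) (by unfold aff; simp only [pa0, pa1, pb0, pb1, pc0, pc1, pd0, pd1, pu0, pu1, pl0, pl1]; linarith)

lemma o_ca_u (h0 : 0 < h) (h1 : h ≤ 1) : (pu h) ∉ segment ℝ pc pa :=
  not_mem_aff (0) (1) (0) (by unfold aff; simp only [pa0, pa1, pb0, pb1, pc0, pc1, pd0, pd1, pu0, pu1, pl0, pl1]; linarith) (by unfold aff; simp only [pa0, pa1, pb0, pb1, pc0, pc1, pd0, pd1, pu0, pu1, pl0, pl1]; linarith) (by unfold aff; simp only [pa0, pa1, pb0, pb1, pc0, pc1, pd0, pd1, pu0, pu1, pl0, pl1]; linarith)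

lemma o_ca_l (h0 : 0 < h) (h1 : h ≤ 1) : (pl h) ∉ segment ℝ pc pa :=
  not_mem_aff ((-(50))) ((-((-1)))) ((-((-200)))) (by unfold aff; simp only [pa0, pa1, pb0, pb1, pc0, pc1, pd0, pd1, pu0, pu1, pl0, pl1]; linarith) (by unfold aff; simp only [pa0, pa1, pb0, pb1, pc0, pc1, pd0, pd1, pu0, pu1, pl0, pl1]; linarith) (by unfold aff; simp only [pa0, pa1, pb0, pb1, pc0, pc1, pd0, pd1, pu0, pu1, pl0, pl1]; linarith)

lemma o_uc_a (h0 : 0 < h) (h1 : h ≤ 1) : pa ∉ segment ℝ (pu h) pc :=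
  not_mem_aff (h) ((-4)) ((-4*h)) (by unfold aff; simp only [pa0, pa1, pb0, pb1, pc0, pc1, pd0, pd1, pu0, pu1, pl0, pl1]; linarith) (by unfold aff; simp only [pa0, pa1, pb0, pb1, pc0, pc1, pd0, pd1, pu0, pu1, pl0, pl1]; linarith) (by unfold aff; simp only [pa0, pa1, pb0, pb1, pc0, pc1, pd0, pd1, pu0, pu1, pl0, pl1]; linarith)

lemma o_uc_b (h0 : 0 < h) (h1 : h ≤ 1) : pb ∉ segment ℝ (pu h) pc :=
  not_mem_aff ((-(h))) ((-(4))) ((-((-4*h)))) (by unfold aff; simp only [pa0, pa1, pb0, pb1, pc0, pc1, pd0, pd1, pu0, pu1, pl0, pl1]; linarith) (by unfold aff; simp only [pa0, pa1, pb0, pb1, pc0, pc1, pd0, pd1, pu0, pu1, pl0, pl1]; linarith) (by unfold aff; simp only [pa0, pa1, pb0, pb1, pc0, pc1, pd0, pd1, pu0, pu1, pl0, pl1]; linarith)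

lemma o_uc_d (h0 : 0 < h) (h1 : h ≤ 1) : pd ∉ segment ℝ (pu h) pc :=
  not_mem_aff (h) (4) ((-4*h)) (by unfold aff; simp only [pa0, pa1, pb0, pb1, pc0, pc1, pd0, pd1, pu0, pu1, pl0, pl1]; linarith) (by unfold aff; simp only [pa0, pa1, pb0, pb1, pc0, pc1, pd0, pd1, pu0, pu1, pl0, pl1]; linarith) (by unfold aff; simp only [pa0, pa1, pb0, pb1, pc0, pc1, pd0, pd1, pu0, pu1, pl0, pl1]; linarith)

lemma o_uc_l (h0 : 0 < h) (h1 : h ≤ 1) : (pl h) ∉ segment ℝ (pu h) pc :=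
  not_mem_aff ((-(0))) ((-(1))) ((-(0))) (by unfold aff; simp only [pa0, pa1, pb0, pb1, pc0, pc1, pd0, pd1, pu0, pu1, pl0, pl1]; linarith) (by unfold aff; simp only [pa0, pa1, pb0, pb1, pc0, pc1, pd0, pd1, pu0, pu1, pl0, pl1]; linarith) (by unfold aff; simp only [pa0, pa1, pb0, pb1, pc0, pc1, pd0, pd1, pu0, pu1, pl0, pl1]; linarith)

lemma o_ub_a (h0 : 0 < h) (h1 : h ≤ 1) : pa ∉ segment ℝ (pu h) pb :=
  not_mem_aff (h) ((-4)) ((-4*h)) (by unfold aff; simp only [pa0, pa1, pb0, pb1, pc0, pc1, pd0, pd1, pu0, pu1, pl0, pl1]; linarith) (by unfold aff; simp only [pa0, pa1, pb0, pb1, pc0, pc1, pd0, pd1, pu0, pu1, pl0, pl1]; linarith) (by unfold aff; simp only [pa0, pa1, pb0, pb1, pc0, pc1, pd0, pd1, pu0, pu1, pl0, pl1]; linarith)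

lemma o_ub_c (h0 : 0 < h) (h1 : h ≤ 1) : pc ∉ segment ℝ (pu h) pb :=
  not_mem_aff (h) (1) ((-h)) (by unfold aff; simp only [pa0, pa1, pb0, pb1, pc0, pc1, pd0, pd1, pu0, pu1, pl0, pl1]; linarith) (by unfold aff; simp only [pa0, pa1, pb0, pb1, pc0, pc1, pd0, pd1, pu0, pu1, pl0, pl1]; linarith) (by unfold aff; simp only [pa0, pa1, pb0, pb1, pc0, pc1, pd0, pd1, pu0, pu1, pl0, pl1]; linarith)

lemma o_ub_d (h0 : 0 < h) (h1 : h ≤ 1) : pd ∉ segment ℝ (pu h) pb :=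
  not_mem_aff (h) (4) ((-4*h)) (by unfold aff; simp only [pa0, pa1, pb0, pb1, pc0, pc1, pd0, pd1, pu0, pu1, pl0, pl1]; linarith) (by unfold aff; simp only [pa0, pa1, pb0, pb1, pc0, pc1, pd0, pd1, pu0, pu1, pl0, pl1]; linarith) (by unfold aff; simp only [pa0, pa1, pb0, pb1, pc0, pc1, pd0, pd1, pu0, pu1, pl0, pl1]; linarith)

lemma o_ub_l (h0 : 0 < h) (h1 : h ≤ 1) : (pl h) ∉ segment ℝ (pu h) pb :=
  not_mem_aff ((-(0))) ((-(1))) ((-(0))) (by unfold aff; simp only [pa0, pa1, pb0, pb1, pc0, pc1, pd0, pd1, pu0, pu1, pl0, pl1]; linarith) (by unfold aff; simp only [pa0, pa1, pb0, pb1, pc0, pc1, pd0, pd1, pu0, pu1, pl0, pl1]; linarith) (by unfold aff; simp only [pa0, pa1, pb0, pb1, pc0, pc1, pd0, pd1, pu0, pu1, pl0, pl1]; linarith)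

lemma o_bc_a (h0 : 0 < h) (h1 : h ≤ 1) : pa ∉ segment ℝ pb pc :=
  not_mem_aff (h) ((-4)) ((-4*h)) (by unfold aff; simp only [pa0, pa1, pb0, pb1, pc0, pc1, pd0, pd1, pu0, pu1, pl0, pl1]; linarith) (by unfold aff; simp only [pa0, pa1, pb0, pb1, pc0, pc1, pd0, pd1, pu0, pu1, pl0, pl1]; linarith) (by unfold aff; simp only [pa0, pa1, pb0, pb1, pc0, pc1, pd0, pd1, pu0, pu1, pl0, pl1]; linarith)

lemma o_bc_d (h0 : 0 < h) (h1 : h ≤ 1) : pd ∉ segment ℝ pb pc :=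
  not_mem_aff (0) (1) (0) (by unfold aff; simp only [pa0, pa1, pb0, pb1, pc0, pc1, pd0, pd1, pu0, pu1, pl0, pl1]; linarith) (by unfold aff; simp only [pa0, pa1, pb0, pb1, pc0, pc1, pd0, pd1, pu0, pu1, pl0, pl1]; linarith) (by unfold aff; simp only [pa0, pa1, pb0, pb1, pc0, pc1, pd0, pd1, pu0, pu1, pl0, pl1]; linarith)

lemma o_bc_u (h0 : 0 < h) (h1 : h ≤ 1) : (pu h) ∉ segment ℝ pb pc :=
  not_mem_aff (0) (1) (0) (by unfold aff; simp only [pa0, pa1, pb0, pb1, pc0, pc1, pd0, pd1, pu0, pu1, pl0, pl1]; linarith) (by unfold aff; simp only [pa0, pa1, pb0, pb1, pc0, pc1, pd0, pd1, pu0, pu1, pl0, pl1]; linarith) (by unfold aff; simp only [pa0, pa1, pb0, pb1, pc0, pc1, pd0, pd1, pu0, pu1, pl0, pl1]; linarith)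

lemma o_bc_l (h0 : 0 < h) (h1 : h ≤ 1) : (pl h) ∉ segment ℝ pb pc :=
  not_mem_aff ((-(0))) ((-(1))) ((-(0))) (by unfold aff; simp only [pa0, pa1, pb0, pb1, pc0, pc1, pd0, pd1, pu0, pu1, pl0, pl1]; linarith) (by unfold aff; simp only [pa0, pa1, pb0, pb1, pc0, pc1, pd0, pd1, pu0, pu1, pl0, pl1]; linarith) (by unfold aff; simp only [pa0, pa1, pb0, pb1, pc0, pc1, pd0, pd1, pu0, pu1, pl0, pl1]; linarith)

lemma o_lb_a (h0 : 0 < h) (h1 : h ≤ 1) : pa ∉ segment ℝ (pl h) pb :=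
  not_mem_aff (h) ((-4)) ((-4*h)) (by unfold aff; simp only [pa0, pa1, pb0, pb1, pc0, pc1, pd0, pd1, pu0, pu1, pl0, pl1]; linarith) (by unfold aff; simp only [pa0, pa1, pb0, pb1, pc0, pc1, pd0, pd1, pu0, pu1, pl0, pl1]; linarith) (by unfold aff; simp only [pa0, pa1, pb0, pb1, pc0, pc1, pd0, pd1, pu0, pu1, pl0, pl1]; linarith)

lemma o_lb_c (h0 : 0 < h) (h1 : h ≤ 1) : pc ∉ segment ℝ (pl h) pb :=
  not_mem_aff (h) (1) ((-h)) (by unfold aff; simp only [pa0, pa1, pb0, pb1, pc0, pc1, pd0, pd1, pu0, pu1, pl0, pl1]; linarith) (by unfold aff; simp only [pa0, pa1, pb0, pb1, pc0, pc1, pd0, pd1, pu0, pu1, pl0, pl1]; linarith) (by unfold aff; simp only [pa0, pa1, pb0, pb1, pc0, pc1, pd0, pd1, pu0, pu1, pl0, pl1]; linarith)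

lemma o_lb_d (h0 : 0 < h) (h1 : h ≤ 1) : pd ∉ segment ℝ (pl h) pb :=
  not_mem_aff (0) (1) (0) (by unfold aff; simp only [pa0, pa1, pb0, pb1, pc0, pc1, pd0, pd1, pu0, pu1, pl0, pl1]; linarith) (by unfold aff; simp only [pa0, pa1, pb0, pb1, pc0, pc1, pd0, pd1, pu0, pu1, pl0, pl1]; linarith) (by unfold aff; simp only [pa0, pa1, pb0, pb1, pc0, pc1, pd0, pd1, pu0, pu1, pl0, pl1]; linarith)

lemma o_lb_u (h0 : 0 < h) (h1 : h ≤ 1) : (pu h) ∉ segment ℝ (pl h) pb :=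
  not_mem_aff (0) (1) (0) (by unfold aff; simp only [pa0, pa1, pb0, pb1, pc0, pc1, pd0, pd1, pu0, pu1, pl0, pl1]; linarith) (by unfold aff; simp only [pa0, pa1, pb0, pb1, pc0, pc1, pd0, pd1, pu0, pu1, pl0, pl1]; linarith) (by unfold aff; simp only [pa0, pa1, pb0, pb1, pc0, pc1, pd0, pd1, pu0, pu1, pl0, pl1]; linarith)

lemma o_lc_a (h0 : 0 < h) (h1 : h ≤ 1) : pa ∉ segment ℝ (pl h) pc :=
  not_mem_aff (h) ((-4)) ((-4*h)) (by unfold aff; simp only [pa0, pa1, pb0, pb1, pc0, pc1, pd0, pd1, pu0, pu1, pl0, pl1]; linarith) (by unfold aff; simp only [pa0, pa1, pb0, pb1, pc0, pc1, pd0, pd1, pu0, pu1, pl0, pl1]; linarith) (by unfold aff; simp only [pa0, pa1, pb0, pb1, pc0, pc1, pd0, pd1, pu0, pu1, pl0, pl1]; linarith)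

lemma o_lc_b (h0 : 0 < h) (h1 : h ≤ 1) : pb ∉ segment ℝ (pl h) pc :=
  not_mem_aff ((-(h))) ((-((-4)))) ((-((-4*h)))) (by unfold aff; simp only [pa0, pa1, pb0, pb1, pc0, pc1, pd0, pd1, pu0, pu1, pl0, pl1]; linarith) (by unfold aff; simp only [pa0, pa1, pb0, pb1, pc0, pc1, pd0, pd1, pu0, pu1, pl0, pl1]; linarith) (by unfold aff; simp only [pa0, pa1, pb0, pb1, pc0, pc1, pd0, pd1, pu0, pu1, pl0, pl1]; linarith)

lemma o_lc_d (h0 : 0 < h) (h1 : h ≤ 1) : pd ∉ segment ℝ (pl h) pc :=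
  not_mem_aff (0) (1) (0) (by unfold aff; simp only [pa0, pa1, pb0, pb1, pc0, pc1, pd0, pd1, pu0, pu1, pl0, pl1]; linarith) (by unfold aff; simp only [pa0, pa1, pb0, pb1, pc0, pc1, pd0, pd1, pu0, pu1, pl0, pl1]; linarith) (by unfold aff; simp only [pa0, pa1, pb0, pb1, pc0, pc1, pd0, pd1, pu0, pu1, pl0, pl1]; linarith)

lemma o_lc_u (h0 : 0 < h) (h1 : h ≤ 1) : (pu h) ∉ segment ℝ (pl h) pc :=
  not_mem_aff (0) (1) (0) (by unfold aff; simp only [pa0, pa1, pb0, pb1, pc0, pc1, pd0, pd1, pu0, pu1, pl0, pl1]; linarith) (by unfold aff; simp only [pa0, pa1, pb0, pb1, pc0, pc1, pd0, pd1, pu0, pu1, pl0, pl1]; linarith) (by unfold aff; simp only [pa0, pa1, pb0, pb1, pc0, pc1, pd0, pd1, pu0, pu1, pl0, pl1]; linarith)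

end Example

end Pool.Agent.MWST
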