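import Pool.Agent.MWST.Geometry

namespace Pool.Agent.MWST

open Set

/-- Coordinates of `z` in the affine frame with origin `o` and axes `o → p`, `o → q`. -/
noncomputable def cA (o p q z : Plane) : ℝ := ori o z q / ori o p q
noncomputable def cG (o p q z : Plane) : ℝ := ori o p z / ori o p q

lemma frame0 {o p q : Plane} (h : ori o p q ≠ 0) (z : Plane) :
    z 0 = o 0 + cA o p q z * (p 0 - o 0) + cG o p q z * (q 0 - o 0) := by
  unfold cA cG
  field_simp
  unfold ori
  ring

lemma frame1 {o p q : Plane} (h : ori o p q ≠ 0) (z : Plane) :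
    z 1 = o 1 + cA o p q z * (p 1 - o 1) + cG o p q z * (q 1 - o 1) := by
  unfold cA cG
  field_simp
  unfold ori
  ring

lemma frame_ext {o p q : Plane} (h : ori o p q ≠ 0) {z w : Plane}
    (hA : cA o p q z = cA o p q w) (hG : cG o p q z = cG o p q w) : z = w := by
  apply plane_ext
  · rw [frame0 h z, frame0 h w, hA, hG]
  · rw [frame1 h z, frame1 h w, hA, hG]

lemma cA_o (o p q : Plane) : cA o p q o = 0 := by simp [cA, ori_self'']
lemma cG_o (o p q : Plane) : cG o p q o = 0 := by simp [cG, ori_self']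
lemma cA_p {o p q : Plane} (h : ori o p q ≠ 0) : cA o p q p = 1 := by simp [cA, h]
lemma cG_p (o p q : Plane) : cG o p q p = 0 := by simp [cG, ori_self]
lemma cA_q (o p q : Plane) : cA o p q q = 0 := by simp [cA, ori_self]
lemma cG_q {o p q : Plane} (h : ori o p q ≠ 0) : cG o p q q = 1 := by simp [cG, h]

lemma cA_pt (o p q x y : Plane) (t : ℝ) :
    cA o p q (pt x y t) = (1 - t) * cA o p q x + t * cA o p q y := by
  unfold cA ori; simp; ring

lemma cG_pt (o p q x y : Plane) (t : ℝ) :
    cG o p q (pt x y t) = (1 - t) * cG o p q x + t * cG o p q y := by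
  unfold cG ori; simp; ring

lemma isCompact_seg (x y : Plane) : IsCompact (segment ℝ x y) := by
  rw [segment_eq_image]
  exact isCompact_Icc.image (by fun_prop)

lemma isClosed_seg (e : Sym2 Plane) : IsClosed (seg e) := by
  induction e using Sym2.ind with
  | _ x y => exact (isCompact_seg x y).isClosed

lemma continuous_pt (x y : Plane) : Continuous (fun t => pt x y t) := by
  unfold pt
  fun_prop

/-- If `z` lies on the segment `x y` and is different from `x`, then `y` lies on the ray from `x`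
through `z`, at least as far away. -/
lemma exists_ratio {x y z : Plane} (hz : z ∈ segment ℝ x y) (hzx : z ≠ x) :
    ∃ t : ℝ, 0 < t ∧ t ≤ 1 ∧ z = pt x y t := by
  obtain ⟨t, h0, h1, rfl⟩ := mem_segment_iff.1 hz
  refine ⟨t, lt_of_le_of_ne h0 ?_, h1, rfl⟩
  rintro rfl
  exact hzx pt_eq_left

variable {S : Finset Plane} {T : Finset (Sym2 Plane)}

/-- An edge through a point `v` of `S` which contains another point of the (empty) open segment
`v y` is `s(v, y)`. -/
lemma IsEdgeSet.eq_of_ray (hE : IsEdgeSet S T) {v y g2 : Plane} (hy : y ∈ S) (hvy : v ≠ y)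
    (hempty : ∀ z ∈ S, z ∈ segment ℝ v y → z = v ∨ z = y)
    (hg : s(v, g2) ∈ T) {κ : ℝ} (h0 : 0 < κ) (hk : pt v y κ ∈ segment ℝ v g2) :
    g2 = y := by
  have hvg := hE.ne hg
  have hne : pt v y κ ≠ v := by
    intro h
    have e0 : (pt v y κ) 0 = v 0 := by rw [h]
    have e1 : (pt v y κ) 1 = v 1 := by rw [h]
    simp at e0 e1
    apply hvy
    apply plane_ext
    · have : κ * (y 0 - v 0) = 0 := by linarith
      rcases mul_eq_zero.1 this with h | h
      · exact absurd h h0.ne'
      · linarith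
    · have : κ * (y 1 - v 1) = 0 := by linarith
      rcases mul_eq_zero.1 this with h | h
      · exact absurd h h0.ne'
      · linarith
  obtain ⟨μ, hμ0, hμ1, hμ⟩ := exists_ratio hk hne
  have e0 : (pt v y κ) 0 = (pt v g2 μ) 0 := by rw [← hμ]
  have e1 : (pt v y κ) 1 = (pt v g2 μ) 1 := by rw [← hμ]
  simp at e0 e1
  -- κ (y - v) = μ (g2 - v)
  by_cases hle : κ ≤ μ
  · -- g2 on segment v y
    have hg2 : g2 = pt v y (κ / μ) := by
      apply plane_ext
      · simp; field_simp; linarith
      · simp; field_simp; linarith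
    have hmem : g2 ∈ segment ℝ v y := by
      rw [hg2]
      exact pt_mem (by positivity) ((div_le_one hμ0).2 hle)
    rcases hempty g2 (hE.right_mem hg) hmem with h | h
    · exact absurd h.symm hvg
    · exact h
  · push Not at hle
    have hy' : y = pt v g2 (μ / κ) := by
      apply plane_ext
      · simp; field_simp; linarith
      · simp; field_simp; linarith
    have hmem : y ∈ segment ℝ v g2 := by
      rw [hy']
      exact pt_mem (by positivity) ((div_le_one h0).2 hle.le)
    rcases hE.only hg hy hmem with h | h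
    · exact absurd h.symm hvy
    · exact h.symm

/-- First edge hit by a segment from `v` to `w` which is not an edge. -/
lemma IsTriangulation.exists_first_hit (hT : IsTriangulation S T) {v w : Plane} (hv : v ∈ S)
    (hw : w ∈ S) (hvw : v ≠ w) (hempty : ∀ z ∈ S, z ∈ segment ℝ v w → z = v ∨ z = w)
    (hnot : s(v, w) ∉ T) :
    ∃ (p q : Plane) (τ : ℝ), s(p, q) ∈ T ∧ v ≠ p ∧ v ≠ q ∧ 0 < τ ∧ τ < 1 ∧
      pt v w τ ∈ segment ℝ p q ∧
      ∀ r x, s(r, x) ∈ T → v ≠ r → v ≠ x → ∀ t, 0 ≤ t → t ≤ τ → pt v w t ∈ segment ℝ r x → t = τ := by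
  classical
  have hE := hT.prop
  -- some edge blocks
  have hblock : ∃ p q, s(p, q) ∈ T ∧ s(p, q) ≠ s(v, w) ∧ ∃ z ∈ segment ℝ v w, z ∈ segment ℝ p q ∧
      z ≠ v ∧ z ≠ w := by
    by_contra hcon
    push Not at hcon
    apply hnot
    refine hT.mem_of_free hv hw hvw hempty ?_
    intro p q hpq hne z hz1 hz2
    by_cases h1 : z = v
    · exact Or.inl h1
    · exact Or.inr (hcon p q hpq hne z hz1 hz2 h1)
  obtain ⟨p, q, hpq, hne, z, hz1, hz2, hzv, hzw⟩ := hblock
  obtain ⟨κ, hκ0, hκ1, rfl⟩ := exists_ratio hz1 hzv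
  have hvp : v ≠ p := by
    rintro rfl
    have := hE.eq_of_ray hw hvw hempty hpq hκ0 hz2
    exact hne (by rw [this])
  have hvq : v ≠ q := by
    rintro rfl
    rw [segment_symm] at hz2
    have hqp : s(v, p) ∈ T := by rwa [Sym2.eq_swap]
    have := hE.eq_of_ray hw hvw hempty hqp hκ0 hz2
    exact hne (by rw [this, Sym2.eq_swap])
  have hκlt : κ < 1 := by
    rcases hκ1.lt_or_eq with h | h
    · exact h
    · subst h; exact absurd pt_eq_right hzw
  set K : Set ℝ := Set.Icc 0 1 ∩ ⋃ e ∈ T.filter (fun e => v ∉ e), (fun t => pt v w t) ⁻¹' seg e with hK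
  have hKc : IsCompact K := by
    apply isCompact_Icc.inter_right
    apply isClosed_biUnion_finset
    intro e _
    exact (isClosed_seg e).preimage (continuous_pt v w)
  have hκK : κ ∈ K := by
    refine ⟨⟨hκ0.le, hκ1⟩, ?_⟩
    simp only [Finset.mem_filter, mem_iUnion, mem_preimage, exists_prop]
    refine ⟨s(p, q), ⟨hpq, ?_⟩, hz2⟩
    simp [hvp, hvq]
  obtain ⟨τ, hτK, hτmin⟩ := hKc.exists_isLeast ⟨κ, hκK⟩
  have hτκ : τ ≤ κ := hτmin hκK
  obtain ⟨⟨hτ0, hτ1⟩, hτU⟩ := hτK
  simp only [Finset.mem_filter, mem_iUnion, mem_preimage, exists_prop] at hτU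
  obtain ⟨e, ⟨heT, hve⟩, hτe⟩ := hτU
  induction e using Sym2.ind with
  | _ p' q' =>
    have hvp' : v ≠ p' := by rintro rfl; exact hve (by simp)
    have hvq' : v ≠ q' := by rintro rfl; exact hve (by simp)
    refine ⟨p', q', τ, heT, hvp', hvq', ?_, lt_of_le_of_lt hτκ hκlt, hτe, ?_⟩
    · rcases hτ0.lt_or_eq with h | h
      · exact h
      · exfalso
        subst h
        rw [seg_mk, pt_eq_left] at hτe
        rcases hE.only heT hv hτe with h | h
        · exact hvp' h
        · exact hvq' h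
    · intro r x hrx hvr hvx t ht0 htτ htm
      apply le_antisymm htτ
      apply hτmin
      refine ⟨⟨ht0, htτ.trans hτ1⟩, ?_⟩
      simp only [Finset.mem_filter, mem_iUnion, mem_preimage, exists_prop]
      refine ⟨s(r, x), ⟨hrx, ?_⟩, htm⟩
      simp [hvr, hvx]

end Pool.Agent.MWST
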